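import Pool.Agent.J4.H82.PV.P

/-!
# Vanishing theorems for quadratic characters without fixed points
-/

set_option autoImplicit false

open FF IntermediateField Pool.Agent.W603.LV Pool.Agent.W603.PV Pool.Agent.J4.H17.ZC
  Pool.Agent.N162.CV Pool.Agent.N75.CV

namespace Pool.Agent.J4.H82.PV

variable {k : Type} [Field k] [CharZero k] [IsAlgClosed k] {K : Type} [Field K] [Algebra k K]
  [IsFF k K] {H : Type} [Group H] [Fintype H] (β : H →* (K ≃ₐ[k] K)) (χ : H →* ℤˣ)

omit [CharZero k] [IsAlgClosed k] [IsFF k K] [Fintype H] [Field k] [Field K] [Algebra k K] in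
theorem exists_neg {H : Type} [Group H] {χ : H →* ℤˣ} (h : χ ≠ 1) : ∃ h0, χ h0 = -1 := by
  by_contra hcon
  push Not at hcon
  apply h
  ext x
  rw [(Int.units_eq_one_or (χ x)).resolve_right (hcon x)]
  rfl

/-- The bound by the genus of the quotient by the kernel. -/
theorem van_ker [Fintype χ.ker] {d : ℕ}
    (hK : HasGenus k (fixedField (β.comp χ.ker.subtype).range) d) (h : χ ≠ 1) :
    Van k (ex β χ) d := by
  obtain ⟨h0, hh0⟩ := exists_neg h
  obtain ⟨o, -⟩ := exists_place (k := k) (K := K)
  have h3 := van_lin (van_one (β.comp χ.ker.subtype) hK o) (J := Bool)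
    (fun b => if b then 1 else -1) (fun b P => if b then P else act (β h0) P)
  have h4 : ex β χ = fun P => ∑ j : Bool, (if j then (1 : ℤ) else -1) •
      (ex (β.comp χ.ker.subtype) 1 (if j then P else act (β h0) P) -
        ex (β.comp χ.ker.subtype) 1 o) := by
    funext P
    rw [Fintype.sum_bool, ex_eq β χ hh0]
    simp only [ex_one]
    simp
  rw [h4]
  exact h3

/-- The vanishing theorem for a quadratic character if the quotient is a double cover of the
projective line. -/
theorem van_char_hyper [Fintype χ.ker] {g' d : ℕ} (hF : HasGenus k (fixedField β.range) g')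
    (hK : HasGenus k (fixedField (β.comp χ.ker.subtype).range) (g' + d)) (h : χ ≠ 1)
    {t0 : fixedField β.range} (ht : Transcendental k t0)
    (h2 : Module.finrank k⟮t0⟯ (fixedField β.range) = 2) : Van k (ex β χ) d := by
  obtain ⟨h0, hh0⟩ := exists_neg h
  intro T _ _ hT s l hl
  have i1 : IsFF k (fixedField (β.comp χ.ker.subtype).range) := isFF_fixed _
  have i2 : IsFF k (fixedField β.range) := isFF_fixed _
  rcases setup β χ hh0 with hdeg | ⟨iA, iT, τ, τ', hq, hτ', hτ⟩
  · have hne : Nonempty T := Fintype.card_pos_iff.1 (by omega)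
    obtain ⟨i⟩ := hne
    exact Th_zero l (i := i) (ex_degenerate β χ hh0 hdeg _)
  · rw [Th_char β χ hh0 hτ]
    have hl' : ∀ r ∈ RatEq ((curve k (fixedField (β.comp χ.ker.subtype).range)).pow T),
        (l.comp (mx fun _ w => NN (β.comp χ.ker.subtype) (lf (β.comp χ.ker.subtype) w))) r = 0 :=
      fun r hr => pull (β.comp χ.ker.subtype) l hl hr
    by_cases hfix : ∃ P, act τ' P = P
    · exact vanish_odd hq hτ' hK hF hfix (by rw [hT]; omega) _ _ hl'
    · push Not at hfix
      exact hyper hq hτ' hK hF hfix ht h2 T hT _ _ hl'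

end Pool.Agent.J4.H82.PV
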