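import Pool.Agent.J4.H17.ZC.G5

/-!
# Functions in a Riemann-Roch space with equal values at pairs of points
-/

set_option autoImplicit false

open FF IntermediateField Pool.Agent.W603.LV Pool.Agent.W603.PV Pool.Agent.J4.H17.ZC

namespace Pool.Agent.J4.H82.PV

variable {k : Type} [Field k] [CharZero k] [IsAlgClosed k] {F : Type} [Field F] [Algebra k F]
  [IsFF k F]

/-- the residue field of a place is the field of constants -/
noncomputable def resk (P : Place k F) : k ≃ₗ[k] P.RF :=
  LinearEquiv.ofBijective (Algebra.linearMap k P.RF)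
    IsAlgClosed.algebraMap_bijective_of_isIntegral

theorem ev_iff (P : Place k F) {f : F} (hf : P.Reg f) (c : k) :
    (resk P).symm (P.red f) = c ↔ Ge P 1 (f - algebraMap k F c) := by
  have h1 : (resk P).symm (P.red f) = c ↔ P.red f = P.red (algebraMap k F c) := by
    rw [LinearEquiv.symm_apply_eq]
    rfl
  rw [h1, ← sub_eq_zero, ← P.red_sub hf (P.reg_const c), P.red_eq_zero_iff
    (by rw [sub_eq_add_neg]; exact P.reg_add hf (P.reg_neg (P.reg_const c)))]
  unfold Ge
  constructor
  · rintro (h | h)
    · exact Or.inl h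
    · exact Or.inr (by omega)
  · rintro (h | h)
    · exact Or.inl h
    · exact Or.inr (by omega)

/-- A large Riemann-Roch space contains a nonconstant function with equal values at the two points
of each of given pairs. -/
theorem exists_paired {J : Type} [Fintype J] (E : Place k F →₀ ℤ) (b b' : J → Place k F)
    (hb : ∀ j, E (b j) ≤ 0) (hb' : ∀ j, E (b' j) ≤ 0) (hE : (Fintype.card J : ℤ) + 2 ≤ ell E) :
    ∃ h ∈ LL E, Transcendental k h ∧
      ∀ j, ∃ c : k, Ge (b j) 1 (h - algebraMap k F c) ∧ Ge (b' j) 1 (h - algebraMap k F c) := by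
  classical
  have hreg : ∀ (P : Place k F), E P ≤ 0 → ∀ f : LL E, P.Reg f.1 := by
    intro P hP f
    rcases f.2 with h | h
    · exact Or.inl h
    · exact Or.inr (by have := h P; omega)
  let φ : LL E →ₗ[k] (J → k) :=
    { toFun := fun f j => (resk (b j)).symm ((b j).red f.1) - (resk (b' j)).symm ((b' j).red f.1)
      map_add' := by
        intro f g
        funext j
        have h1 : (f + g).1 = f.1 + g.1 := rfl
        simp only [Pi.add_apply]
        rw [h1, (b j).red_add (hreg _ (hb j) f) (hreg _ (hb j) g),
          (b' j).red_add (hreg _ (hb' j) f) (hreg _ (hb' j) g), map_add, map_add]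
        ring
      map_smul' := by
        intro c f
        funext j
        simp only [RingHom.id_apply, Pi.smul_apply]
        have h1 : (c • f).1 = algebraMap k F c * f.1 := Algebra.smul_def c f.1
        rw [h1, (b j).red_mul ((b j).reg_const c) (hreg _ (hb j) f),
          (b' j).red_mul ((b' j).reg_const c) (hreg _ (hb' j) f), ← Place.algebraMap_RF,
          ← Place.algebraMap_RF, ← Algebra.smul_def, ← Algebra.smul_def, map_smul, map_smul,
          smul_sub] }
  have h1 : Module.finrank k (LL E) ≤ Module.finrank k (LinearMap.ker φ) + Fintype.card J := by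
    have h2 := LinearMap.finrank_range_add_finrank_ker φ
    have h3 : Module.finrank k (LinearMap.range φ) ≤ Fintype.card J := by
      have := Submodule.finrank_le (LinearMap.range φ)
      rwa [Module.finrank_fintype_fun_eq_card] at this
    omega
  have h2 : 2 ≤ Module.finrank k (LinearMap.ker φ) := by
    unfold ell at hE
    omega
  obtain ⟨f, hf⟩ : ∃ f : LinearMap.ker φ, ¬ IsAlgebraic k (f.1.1 : F) := by
    by_contra hcon
    push Not at hcon
    have h3 : ∀ f : LinearMap.ker φ, ∃ c : k, (f.1.1 : F) = algebraMap k F c := by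
      intro f
      have h4 := IsAlgClosed.degree_eq_one_of_irreducible k (minpoly.irreducible (hcon f).isIntegral)
      obtain ⟨c, hc⟩ := minpoly.mem_range_of_degree_eq_one k _ h4
      exact ⟨c, hc.symm⟩
    -- all elements are multiples of one of them
    have h4 : Module.finrank k (LinearMap.ker φ) ≤ 1 := by
      by_cases h5 : ∃ f : LinearMap.ker φ, f ≠ 0
      · obtain ⟨f0, hf0⟩ := h5
        obtain ⟨c0, hc0⟩ := h3 f0
        have hc00 : c0 ≠ 0 := by
          rintro rfl
          rw [map_zero] at hc0
          exact hf0 (Subtype.ext (Subtype.ext hc0))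
        refine finrank_le_one f0 fun f => ?_
        obtain ⟨c, hc⟩ := h3 f
        refine ⟨c / c0, Subtype.ext (Subtype.ext ?_)⟩
        change (c / c0) • (f0.1.1 : F) = f.1.1
        rw [hc0, hc, Algebra.smul_def, ← map_mul, div_mul_cancel₀ _ hc00]
      · push Not at h5
        have h6 : Subsingleton (LinearMap.ker φ) := ⟨fun a b => by rw [h5 a, h5 b]⟩
        rw [Module.finrank_zero_of_subsingleton]
        exact Nat.zero_le _
    omega
  refine ⟨f.1.1, f.1.2, hf, fun j => ?_⟩
  have h3 : φ f.1 = 0 := f.2
  have h4 := congrFun h3 j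
  change (resk (b j)).symm ((b j).red f.1.1) - (resk (b' j)).symm ((b' j).red f.1.1) = 0 at h4
  rw [sub_eq_zero] at h4
  refine ⟨(resk (b j)).symm ((b j).red f.1.1), ?_, ?_⟩
  · rw [← ev_iff _ (hreg _ (hb j) f.1)]
  · rw [← ev_iff _ (hreg _ (hb' j) f.1), ← h4]

end Pool.Agent.J4.H82.PV
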