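import Pool.Agent.J4.H82.PV.A

/-!
# Double covers of curves
-/

set_option autoImplicit false

open FF IntermediateField Pool.Agent.W603.LV Pool.Agent.W603.PV Pool.Agent.J4.H17.ZC

namespace Pool.Agent.J4.H82.PV

/-- `K` is an extension of degree two of `F`, and `τ` is its involution. -/
structure Quad (F K : Type) [Field F] [Field K] [Algebra F K] (τ : K ≃ₐ[F] K) : Prop where
  inv : ∀ x, τ (τ x) = x
  fix : ∀ x, τ x = x → ∃ a, algebraMap F K a = x
  ne : ∃ x, τ x ≠ x

variable {k : Type} [Field k] [CharZero k] [IsAlgClosed k] {F K : Type} [Field F] [Field K]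
  [Algebra k F] [Algebra k K] [Algebra F K] [IsScalarTower k F K]

theorem Quad.symm {τ : K ≃ₐ[F] K} (q : Quad F K τ) (x : K) : τ.symm x = τ x := by
  rw [AlgEquiv.symm_apply_eq, q.inv]

/-- a square root which generates a quadratic extension -/
structure Root (F K : Type) [Field F] [Field K] [Algebra F K] (τ : K ≃ₐ[F] K) (w : K) (δ : F) :
    Prop where
  w0 : w ≠ 0
  tau : τ w = -w
  sq : w ^ 2 = algebraMap F K δ
  dec : ∀ x : K, ∃ a b : F, x = algebraMap F K a + algebraMap F K b * w

omit [IsAlgClosed k] [Algebra k F] [IsScalarTower k F K] in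
include k in
theorem two_ne : (2 : K) ≠ 0 := by
  have hK : CharZero K := charZero_of_injective_algebraMap (algebraMap k K).injective
  exact two_ne_zero

omit [IsAlgClosed k] [Algebra k F] [IsScalarTower k F K] in
include k in
theorem Quad.exists_root {τ : K ≃ₐ[F] K} (q : Quad F K τ) : ∃ w δ, Root F K τ w δ := by
  have h2 : (2 : K) ≠ 0 := two_ne (k := k)
  obtain ⟨x, hx⟩ := q.ne
  set w := x - τ x with hw
  have hw0 : w ≠ 0 := fun h => hx (sub_eq_zero.1 h).symm
  have hτ : τ w = -w := by
    rw [hw, map_sub, q.inv]; ring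
  obtain ⟨δ, hδ⟩ := q.fix (w ^ 2) (by rw [map_pow, hτ]; ring)
  refine ⟨w, δ, hw0, hτ, hδ.symm, fun y => ?_⟩
  obtain ⟨a, ha⟩ := q.fix ((y + τ y) / 2) (by
    rw [map_div₀, map_add, q.inv, map_ofNat, add_comm])
  obtain ⟨b, hb⟩ := q.fix ((y - τ y) / (2 * w)) (by
    rw [map_div₀, map_sub, q.inv, map_mul, hτ, map_ofNat]
    field_simp
    ring)
  refine ⟨a, b, ?_⟩
  rw [ha, hb]
  field_simp
  ring

namespace Root

variable {τ : K ≃ₐ[F] K} {w : K} {δ : F} (R : Root F K τ w δ)

include R

omit [IsAlgClosed k] [IsScalarTower k F K] [Algebra k F] in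
include k in
theorem eq_zero {a b : F} (h : algebraMap F K a + algebraMap F K b * w = 0) : a = 0 ∧ b = 0 := by
  have h2 : (2 : K) ≠ 0 := two_ne (k := k)
  have h3 := congrArg τ h
  rw [map_add, map_mul, AlgEquiv.commutes, AlgEquiv.commutes, R.tau, map_zero] at h3
  have h4 : 2 * algebraMap F K a = 0 := by linear_combination h + h3
  have h5 : algebraMap F K a = 0 := (mul_eq_zero.1 h4).resolve_left h2
  refine ⟨by simpa using h5, ?_⟩
  rw [h5, zero_add] at h
  have h6 := (mul_eq_zero.1 h).resolve_right R.w0
  simpa using h6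

omit [IsAlgClosed k] [IsScalarTower k F K] [Algebra k F] in
include k in
theorem finrank_eq : FiniteDimensional F K ∧ Module.finrank F K = 2 := by
  let l : (F × F) →ₗ[F] K :=
    { toFun := fun p => algebraMap F K p.1 + algebraMap F K p.2 * w
      map_add' := fun p p' => by
        simp only [Prod.fst_add, Prod.snd_add, map_add]; ring
      map_smul' := fun c p => by
        rw [Prod.smul_fst, Prod.smul_snd, smul_eq_mul, smul_eq_mul, map_mul, map_mul,
          RingHom.id_apply, Algebra.smul_def]; ring }
  have hl : Function.Bijective l := by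
    constructor
    · rw [← LinearMap.ker_eq_bot, LinearMap.ker_eq_bot']
      intro p hp
      have h1 : algebraMap F K p.1 + algebraMap F K p.2 * w = 0 := hp
      obtain ⟨h2, h3⟩ := R.eq_zero (k := k) h1
      exact Prod.ext h2 h3
    · intro x
      obtain ⟨a, b, hx⟩ := R.dec x
      exact ⟨(a, b), hx.symm⟩
  let e := LinearEquiv.ofBijective l hl
  refine ⟨Module.Finite.equiv e, ?_⟩
  rw [← e.finrank_eq, Module.finrank_prod, Module.finrank_self]

omit [IsAlgClosed k] [CharZero k] [IsScalarTower k F K] [Algebra k F] [Algebra k K] in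
theorem δ0 : δ ≠ 0 := by
  rintro rfl
  have h := R.sq
  rw [map_zero] at h
  exact R.w0 (pow_eq_zero_iff (two_ne_zero)|>.1 h)

end Root

variable [IsFF k F] [IsFF k K]

/-- the action of an automorphism over `F` on the places -/
noncomputable abbrev actF (τ : K ≃ₐ[F] K) (P : Place k K) : Place k K :=
  act (τ.restrictScalars k) P

omit [CharZero k] [IsAlgClosed k] [IsFF k F] [IsFF k K] in
theorem actF_ord (τ : K ≃ₐ[F] K) (P : Place k K) (f : K) :
    (actF τ P).ord f = P.ord (τ.symm f) := rfl

omit [CharZero k] [IsAlgClosed k] [IsFF k F] [IsFF k K] in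
theorem ram_act (τ : K ≃ₐ[F] K) (P : Place k K) : ram F (actF τ P) = ram F P := by
  unfold ram
  congr 1
  ext m
  constructor
  · rintro ⟨h1, x, hx⟩
    refine ⟨h1, x, ?_⟩
    rw [actF_ord, AlgEquiv.commutes] at hx
    exact hx
  · rintro ⟨h1, x, hx⟩
    refine ⟨h1, x, ?_⟩
    rw [actF_ord, AlgEquiv.commutes]
    exact hx

theorem under_act (τ : K ≃ₐ[F] K) (P : Place k K) : under F (actF τ P) = under F P := by
  ext x
  change (actF τ P).ord (algebraMap F K x) / (ram F (actF τ P) : ℤ) =
    P.ord (algebraMap F K x) / (ram F P : ℤ)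
  rw [ram_act, actF_ord, AlgEquiv.commutes]

namespace Root

variable {τ : K ≃ₐ[F] K} {w : K} {δ : F} (R : Root F K τ w δ)

include R

theorem two_ord (P : Place k K) : 2 * P.ord w = ram F P * (under F P).ord δ := by
  rw [← ord_under, ← R.sq, P.ord_pow]
  rfl

/-- The place is fixed if `δ` has odd order below it. -/
theorem fixed_of_odd {P : Place k K} (h : Odd ((under F P).ord δ)) : actF τ P = P := by
  obtain ⟨hfd, h2⟩ := R.finrank_eq (k := k)
  obtain ⟨T, hT, hT2⟩ := exists_over (K := K) (under F P)
  rw [h2] at hT2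
  have h3 : 2 ≤ (ram F P : ℤ) := by
    have h4 := R.two_ord P
    have h5 : Even ((ram F P : ℤ) * (under F P).ord δ) := by rw [← h4]; exact even_two_mul _
    have h6 : Even (ram F P : ℤ) := by
      rcases Int.even_mul.1 h5 with h6 | h6
      · exact h6
      · exact absurd h6 (Int.not_even_iff_odd.2 h)
    have h7 := (ram_spec (F := F) P).1
    obtain ⟨a, ha⟩ := h6
    omega
  by_contra hne
  have h8 : P ∈ T := (hT P).2 rfl
  have h9 : actF τ P ∈ T := (hT _).2 (under_act τ P)
  have h10 := Finset.add_le_sum (f := fun w : Place k K => (ram F w : ℤ))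
      (fun _ _ => by positivity) h9 h8 hne
  have h11 := (ram_spec (F := F) (actF τ P)).1
  rw [hT2] at h10
  simp only [Nat.cast_ofNat] at h10
  omega

/-- The function `δ` has odd order below a fixed place. -/
theorem odd_of_fixed {P : Place k K} (h : actF τ P = P) : Odd ((under F P).ord δ) := by
  rw [← Int.not_even_iff_odd]
  rintro ⟨m, hm⟩
  obtain ⟨s, hs0, hs⟩ := (under F P).surj
  have hsK : algebraMap F K s ≠ 0 := by simpa using hs0
  have h1 := R.two_ord P
  set w' := w * (algebraMap F K s) ^ (-m) with hw'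
  have hw0' : w' ≠ 0 := mul_ne_zero R.w0 (zpow_ne_zero _ hsK)
  have h3 : P.ord w' = 0 := by
    rw [hw', P.ord_mul R.w0 (zpow_ne_zero _ hsK), P.ord_zpow, ord_under, hs, mul_one]
    rw [hm] at h1
    linarith
  have h4 : τ.symm w' = -w' := by
    have h5 : τ.symm w = -w := by
      rw [AlgEquiv.symm_apply_eq, map_neg, R.tau, neg_neg]
    rw [hw', map_mul, map_zpow₀, AlgEquiv.commutes, h5]
    ring
  obtain ⟨c, hc⟩ := exists_const P (Or.inr h3.ge : Ge P 0 w')
  have h5 : Ge P 1 (-w' - algebraMap k K c) := by
    have h6 : -w' - algebraMap k K c = τ.symm (w' - algebraMap k K c) := by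
      rw [map_sub, h4, IsScalarTower.algebraMap_apply k F K, AlgEquiv.commutes]
    rw [h6]
    rcases hc with hc | hc
    · exact Or.inl (by rw [hc, map_zero])
    · right
      have h7 := actF_ord τ P (w' - algebraMap k K c)
      rw [h] at h7
      rwa [← h7]
  have h6 := hc.add h5
  have h7 : w' - algebraMap k K c + (-w' - algebraMap k K c) = algebraMap k K (-2 * c) := by
    rw [map_mul, map_neg, map_ofNat]; ring
  rw [h7] at h6
  have hc0 : c = 0 := by
    by_contra hc0
    have h8 : (-2 * c : k) ≠ 0 := mul_ne_zero (by norm_num) hc0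
    rcases h6 with h6 | h6
    · exact h8 (by simpa using h6)
    · rw [P.ord_const h8] at h6
      omega
  rw [hc0, map_zero, sub_zero] at hc
  rcases hc with hc | hc
  · exact hw0' hc
  · omega

theorem fixed_iff (P : Place k K) : actF τ P = P ↔ Odd ((under F P).ord δ) :=
  ⟨R.odd_of_fixed, R.fixed_of_odd⟩

end Root

open Classical in
/-- the branch places -/
noncomputable def Br (k : Type) [Field k] [CharZero k] [IsAlgClosed k] {F : Type} [Field F]
    [Algebra k F] [IsFF k F] (δ : F) : Finset (Place k F) :=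
  (divisor k δ).support.filter fun v => Odd (v.ord δ)

omit [Field K] [Algebra k K] [Algebra F K] [IsScalarTower k F K] [IsFF k K] in
theorem mem_Br {δ : F} {v : Place k F} : v ∈ Br k δ ↔ Odd (v.ord δ) := by
  unfold Br
  rw [Finset.mem_filter, Finsupp.mem_support_iff, divisor_apply]
  constructor
  · exact fun h => h.2
  · intro h
    refine ⟨?_, h⟩
    intro h0
    rw [h0] at h
    exact Int.not_odd_zero h

/-- half of a divisor, rounded down -/
noncomputable def half (D : Place k F →₀ ℤ) : Place k F →₀ ℤ :=
  D.mapRange (fun n => n / 2) (by simp)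

omit [Field K] [Algebra k K] [Algebra F K] [IsScalarTower k F K] [IsFF k K] [CharZero k]
  [IsAlgClosed k] [IsFF k F] in
theorem half_apply (D : Place k F →₀ ℤ) (v : Place k F) : half D v = D v / 2 := by
  unfold half
  rw [Finsupp.mapRange_apply]

omit [Field K] [Algebra k K] [Algebra F K] [IsScalarTower k F K] [IsFF k K] in
theorem two_half (δ : F) :
    (2 : ℕ) • half (divisor k δ) + ∑ v ∈ Br k δ, Finsupp.single v (1 : ℤ) = divisor k δ := by
  classical
  ext v
  rw [Finsupp.add_apply, Finsupp.smul_apply, half_apply, Finsupp.finsetSum_apply, divisor_apply]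
  simp only [Finsupp.single_apply]
  rw [Finset.sum_ite_eq' (Br k δ) v, nsmul_eq_mul]
  push_cast
  split_ifs with h
  · have := Int.odd_iff.1 (mem_Br.1 h)
    omega
  · have := Int.even_iff.1 (Int.not_odd_iff_even.1 fun h' => h (mem_Br.2 h'))
    omega

omit [Field K] [Algebra k K] [Algebra F K] [IsScalarTower k F K] [IsFF k K] in
theorem ddeg_half (δ : F) : 2 * ddeg (half (divisor k δ)) + (Br k δ).card = 0 := by
  have h := congrArg ddeg (two_half (k := k) δ)
  rw [ddeg_add, ddeg_nsmul, ddeg_divisor, ddeg_eq_dg (∑ v ∈ Br k δ, Finsupp.single v (1 : ℤ)),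
    map_sum] at h
  rw [Finset.sum_congr rfl fun v _ => dg_single v 1, Finset.sum_const, nsmul_eq_mul, mul_one] at h
  exact_mod_cast h

namespace Root

variable {τ : K ≃ₐ[F] K} {w : K} {δ : F} (R : Root F K τ w δ)

include R

theorem card_Br_le {g g' : ℕ} (hg : HasGenus k K g) (hg' : HasGenus k F g') :
    ((Br k δ).card : ℤ) ≤ 2 * (g - 2 * g' + 1) := by
  classical
  obtain ⟨hfd, h2⟩ := R.finrank_eq (k := k)
  have h20 : (2 : K) ≠ 0 := two_ne (k := k)
  obtain ⟨v0, -⟩ := exists_place (k := k) (K := F)
  obtain ⟨T, hT, hT2⟩ := exists_over (K := K) v0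
  rw [h2] at hT2
  obtain ⟨N1, hN1⟩ := hg.ell_eq
  obtain ⟨N2, hN2⟩ := hg'.ell_eq
  -- a large multiple of a place
  set n : ℤ := |N1| + |N2| + (Br k δ).card with hn
  have hn0 : 0 ≤ n := by positivity
  set E : Place k F →₀ ℤ := Finsupp.single v0 n with hE
  set E' : Place k K →₀ ℤ := ∑ P ∈ T, Finsupp.single P (ram F P * n) with hE'
  have hdE : ddeg E = n := by rw [ddeg_eq_dg, hE, dg_single]
  have hdE' : ddeg E' = 2 * n := by
    rw [ddeg_eq_dg, hE', map_sum, Finset.sum_congr rfl fun P _ => dg_single P _,
      ← Finset.sum_mul, hT2]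
    rfl
  have hE'a : ∀ P : Place k K, E' P = ram F P * E (under F P) := by
    intro P
    rw [hE', Finsupp.finsetSum_apply, hE]
    simp only [Finsupp.single_apply]
    rw [Finset.sum_ite_eq' T P]
    by_cases h : P ∈ T
    · rw [if_pos h, (hT P).1 h, if_pos rfl]
    · rw [if_neg h, if_neg (fun h' => h ((hT P).2 h'.symm)), mul_zero]
  -- the two parts
  let l1 : F →ₗ[k] K := (Algebra.linearMap F K).restrictScalars k
  let l2 : F →ₗ[k] K := ((LinearMap.mulRight F w).comp (Algebra.linearMap F K)).restrictScalars k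
  have hle : LL E' ≤ (LL E).map l1 ⊔ (LL (E + half (divisor k δ))).map l2 := by
    intro f hf
    obtain ⟨a, b, hab⟩ := R.dec f
    have hτf : τ f = algebraMap F K a - algebraMap F K b * w := by
      rw [hab, map_add, map_mul, AlgEquiv.commutes, AlgEquiv.commutes, R.tau]; ring
    -- membership of the conjugate
    have hge : ∀ P : Place k K, Ge P (-E' P) f := by
      intro P
      rcases hf with hf | hf
      · exact Or.inl hf
      · exact Or.inr (hf P)
    have hge' : ∀ P : Place k K, Ge P (-E' P) (τ f) := by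
      intro P
      have h3 : τ.symm.symm = τ := rfl
      rcases hge (actF τ.symm P) with h | h
      · exact Or.inl (by rw [h, map_zero])
      · right
        rw [hE'a, under_act, ram_act, ← hE'a] at h
        exact h
    have hga : ∀ P : Place k K, Ge P (-E' P) (algebraMap F K a) := by
      intro P
      have h3 := (hge P).add (hge' P)
      have h4 : f + τ f = algebraMap k K 2 * algebraMap F K a := by
        rw [hτf, hab, map_ofNat]; ring
      rw [h4] at h3
      refine Ge.of_mul' (m := 0) (by rw [map_ofNat]; exact h20) (P.ord_const two_ne_zero) ?_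
      rwa [add_zero]
    have hgb : ∀ P : Place k K, Ge P (-E' P) (algebraMap F K b * w) := by
      intro P
      have h3 := (hge P).sub (hge' P)
      have h4 : f - τ f = algebraMap k K 2 * (algebraMap F K b * w) := by
        rw [hτf, hab, map_ofNat]; ring
      rw [h4] at h3
      refine Ge.of_mul' (m := 0) (by rw [map_ofNat]; exact h20) (P.ord_const two_ne_zero) ?_
      rwa [add_zero]
    have ha : a ∈ LL E := by
      by_cases ha0 : a = 0
      · exact Or.inl ha0
      right
      intro v
      obtain ⟨P, hP⟩ := exists_place_over (K := K) v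
      have h3 := (hga P).resolve_left (by simpa using ha0)
      rw [ord_under, hE'a, hP] at h3
      have h4 : (0 : ℤ) < ram F P := by exact_mod_cast (ram_spec (F := F) P).1
      by_contra hcon
      push Not at hcon
      nlinarith
    have hb : b ∈ LL (E + half (divisor k δ)) := by
      by_cases hb0 : b = 0
      · exact Or.inl hb0
      right
      intro v
      obtain ⟨P, hP⟩ := exists_place_over (K := K) v
      have hbK : algebraMap F K b ≠ 0 := by simpa using hb0
      have h3 := (hgb P).resolve_left (mul_ne_zero hbK R.w0)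
      rw [P.ord_mul hbK R.w0, ord_under, hE'a, hP] at h3
      have h4 : (0 : ℤ) < ram F P := by exact_mod_cast (ram_spec (F := F) P).1
      have h5 := R.two_ord P
      rw [hP] at h5
      rw [Finsupp.add_apply, half_apply, divisor_apply]
      have h6 : -(2 * (E v)) ≤ 2 * v.ord b + v.ord δ := by
        by_contra hcon
        push Not at hcon
        nlinarith
      omega
    rw [hab]
    refine Submodule.add_mem_sup ?_ ?_
    · exact ⟨a, ha, rfl⟩
    · exact ⟨b, hb, rfl⟩
  have h3 : ell E' ≤ ell E + ell (E + half (divisor k δ)) := by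
    have h4 := Submodule.finrank_mono hle
    have h5 := Submodule.finrank_add_le_finrank_add_finrank ((LL E).map l1)
      ((LL (E + half (divisor k δ))).map l2)
    have h6 := Submodule.finrank_map_le l1 (LL E)
    have h7 := Submodule.finrank_map_le l2 (LL (E + half (divisor k δ)))
    unfold ell
    exact_mod_cast h4.trans (h5.trans (add_le_add h6 h7))
  have h4 := ddeg_half (k := k) δ
  have h5 := le_abs_self N1
  have h6 := le_abs_self N2
  have h7 := abs_nonneg N1
  have h8 := abs_nonneg N2
  rw [hN1 E' (by rw [hdE']; omega), hN2 E (by rw [hdE]; omega), hN2 _ (by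
    rw [ddeg_add, hdE]; omega), ddeg_add, hdE, hdE'] at h3
  omega

end Root

end Pool.Agent.J4.H82.PV
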