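import Pool.Agent.J4.H82.PV.B

/-!
# Norms to a rational function field
-/

set_option autoImplicit false

open FF IntermediateField Pool.Agent.W603.LV Pool.Agent.W603.PV Pool.Agent.J4.H17.ZC
  Pool.Agent.N162.CV Pool.Agent.N75.CV

namespace Pool.Agent.J4.H82.PV

section rational

variable {k : Type} [Field k] {F : Type} [Field F] [Algebra k F]

theorem adjoin_sub_const (t : F) (c : k) : k⟮t - algebraMap k F c⟯ = k⟮t⟯ := by
  apply le_antisymm
  · rw [adjoin_simple_le_iff]
    exact sub_mem (mem_adjoin_simple_self k t) (IntermediateField.algebraMap_mem _ c)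
  · rw [adjoin_simple_le_iff]
    have h := add_mem (mem_adjoin_simple_self k (t - algebraMap k F c))
      (IntermediateField.algebraMap_mem k⟮t - algebraMap k F c⟯ c)
    rwa [sub_add_cancel] at h

theorem transc_sub_const {t : F} (ht : Transcendental k t) (c : k) :
    Transcendental k (t - algebraMap k F c) := by
  intro h
  apply ht
  have := h.add (isAlgebraic_algebraMap (A := F) c)
  rwa [sub_add_cancel] at this

variable [CharZero k] [IsAlgClosed k] [IsFF k F]

omit [CharZero k] [IsFF k F] in
theorem const_of_algebraic {f : F} (hf : IsAlgebraic k f) : ∃ c : k, f = algebraMap k F c := by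
  have h4 := IsAlgClosed.degree_eq_one_of_irreducible k (minpoly.irreducible hf.isIntegral)
  obtain ⟨c, hc⟩ := minpoly.mem_range_of_degree_eq_one k _ h4
  exact ⟨c, hc.symm⟩

theorem const_of_divisor {f : F} (h : divisor k f = 0) : ∃ c : k, f = algebraMap k F c := by
  by_cases hf : IsAlgebraic k f
  · exact const_of_algebraic hf
  · exfalso
    have h1 := ddeg_polar_pos (k := k) (x := f) hf
    have h2 : polar (k := k) f = 0 := by
      ext P
      rw [polar_apply]
      have := DFunLike.congr_fun h P
      rw [divisor_apply] at this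
      rw [this]
      rfl
    rw [h2, ddeg_zero] at h1
    omega

/-- The places of a rational function field. -/
structure RatPl (k : Type) [Field k] {F : Type} [Field F] [Algebra k F] (t : F)
    (pt : k → Place k F) (oo : Place k F) : Prop where
  div : ∀ c v, v.ord (t - algebraMap k F c) =
    Finsupp.single (pt c) (1 : ℤ) v - Finsupp.single oo (1 : ℤ) v
  uniq : ∀ c v, 0 < v.ord (t - algebraMap k F c) → v = pt c
  neg : ∀ v : Place k F, v.ord t < 0 → v = oo
  neg' : oo.ord t = -1
  ne : ∀ c, pt c ≠ oo
  all : ∀ v, v = oo ∨ ∃ c, v = pt c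

theorem exists_ratPl (t : F) (ht : Transcendental k t) (h1 : Module.finrank k⟮t⟯ F = 1) :
    ∃ (pt : k → Place k F) (oo : Place k F), RatPl k t pt oo := by
  classical
  have ht0 : t ≠ 0 := by
    rintro h
    rw [h] at ht
    exact ht isAlgebraic_zero
  have ht' : Transcendental k t⁻¹ := by
    intro h
    apply ht
    have := h.inv
    rwa [inv_inv] at this
  -- zeros
  have hz : ∀ s : F, Transcendental k s → ∃ P : Place k F, 0 < P.ord s := by
    intro s hs
    obtain ⟨S, hS, hS1, hS2⟩ := zeros hs
    have hpos : 0 < Module.finrank k⟮s⟯ F := by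
      have := IsFF.finite hs
      exact Module.finrank_pos
    by_contra hcon
    push Not at hcon
    have : S = ∅ := Finset.eq_empty_of_forall_notMem fun P hP => by
      have := (hS P).1 hP
      have := hcon P
      omega
    rw [this, Finset.sum_empty] at hS2
    omega
  have htc : ∀ c : k, Transcendental k (t - algebraMap k F c) := transc_sub_const ht
  have hrc : ∀ c : k, Module.finrank k⟮t - algebraMap k F c⟯ F = 1 := fun c => by
    rw [adjoin_sub_const]; exact h1
  choose pt hpt using fun c : k => hz _ (htc c)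
  obtain ⟨oo, hoo⟩ := hz _ ht'
  have hr' : Module.finrank k⟮t⁻¹⟯ F = 1 := by rw [adjoin_inv]; exact h1
  have hpoo := place_gen t⁻¹ ht' hr' oo hoo
  have hneg : ∀ v : Place k F, v.ord t < 0 → v = oo := fun v hv =>
    hpoo.2 v (by rw [v.ord_inv]; omega)
  have hneg' : oo.ord t = -1 := by
    have := hpoo.1
    rw [oo.ord_inv] at this
    omega
  have hptc : ∀ c, (pt c).ord (t - algebraMap k F c) = 1 ∧
      ∀ v' : Place k F, 0 < v'.ord (t - algebraMap k F c) → v' = pt c := fun c =>
    place_gen _ (htc c) (hrc c) (pt c) (hpt c)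
  have htc0 : ∀ c : k, t - algebraMap k F c ≠ 0 := fun c h => by
    have := htc c
    rw [h] at this
    exact this isAlgebraic_zero
  -- poles of `t - c`
  have hord : ∀ (c : k) (v : Place k F), v.ord t < 0 → v.ord (t - algebraMap k F c) = v.ord t := by
    intro c v hv
    by_cases hc : c = 0
    · rw [hc, map_zero, sub_zero]
    · have h3 : algebraMap k F c ≠ 0 := by simpa using hc
      rw [sub_eq_add_neg, (v.ord_add_eq ht0 (neg_ne_zero.2 h3)
        (by rw [v.ord_neg, v.ord_const hc]; exact hv)).2]
  have hord' : ∀ (c : k) (v : Place k F), v.ord (t - algebraMap k F c) < 0 → v.ord t < 0 := by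
    intro c v hv
    by_contra h
    have h3 : Ge v 0 (t - algebraMap k F c) := Ge.sub (Or.inr (by omega)) (Ge.const c)
    have := h3.resolve_left (htc0 c)
    omega
  have hne : ∀ c, pt c ≠ oo := by
    intro c h
    have h3 := (hptc c).1
    rw [h, hord c oo (by omega)] at h3
    omega
  refine ⟨pt, oo, ?_, fun c => (hptc c).2, hneg, hneg', hne, ?_⟩
  · intro c v
    rw [Finsupp.single_apply, Finsupp.single_apply]
    rcases lt_trichotomy (v.ord (t - algebraMap k F c)) 0 with h | h | h
    · have h3 := hneg v (hord' c v h)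
      have h4 : pt c ≠ v := by
        rw [h3]; exact hne c
      rw [if_neg h4, if_pos h3.symm, h3, hord c oo (by omega), hneg']
      rfl
    · have h4 : pt c ≠ v := by
        rintro rfl
        rw [(hptc c).1] at h
        omega
      have h5 : oo ≠ v := by
        rintro rfl
        rw [hord c oo (by omega)] at h
        omega
      rw [if_neg h4, if_neg h5, h]
      rfl
    · have h3 := (hptc c).2 v h
      have h5 : oo ≠ v := by
        rw [h3]; exact (hne c).symm
      rw [if_pos h3.symm, if_neg h5, h3, (hptc c).1]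
      rfl
  · intro v
    by_cases hv : v.ord t < 0
    · exact Or.inl (hneg v hv)
    · right
      obtain ⟨c, hc⟩ := exists_const v (Or.inr (by omega) : Ge v 0 t)
      refine ⟨c, (hptc c).2 v ?_⟩
      have := hc.resolve_left (htc0 c)
      omega

namespace RatPl

variable {t : F} {pt : k → Place k F} {oo : Place k F} (hp : RatPl k t pt oo)
  (ht : Transcendental k t)

include hp ht

/-- Divisors of degree zero are principal. -/
theorem principal (D : Place k F →₀ ℤ) (hD : ddeg D = 0) :
    ∃ R : F, R ≠ 0 ∧ divisor k R = D := by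
  classical
  have htc0 : ∀ c : k, t - algebraMap k F c ≠ 0 := fun c h => by
    have := transc_sub_const ht c
    rw [h] at this
    exact this isAlgebraic_zero
  have hs : ∀ v : Place k F, ∃ s : F, s ≠ 0 ∧
      divisor k s = Finsupp.single v 1 - Finsupp.single oo 1 := by
    intro v
    rcases hp.all v with h | ⟨c, h⟩
    · refine ⟨1, one_ne_zero, ?_⟩
      rw [h, sub_self]
      ext P
      rw [divisor_apply, P.ord_one]
      rfl
    · refine ⟨t - algebraMap k F c, htc0 c, ?_⟩
      ext P
      rw [divisor_apply, hp.div c P, h]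
      rfl
  choose s hs0 hs1 using hs
  refine ⟨∏ v ∈ D.support, s v ^ (D v), Finset.prod_ne_zero_iff.2 fun v _ =>
    zpow_ne_zero _ (hs0 v), ?_⟩
  ext P
  have h3 : ∀ S : Finset (Place k F), P.ord (∏ v ∈ S, s v ^ (D v)) =
      ∑ v ∈ S, D v * (Finsupp.single v (1 : ℤ) P - Finsupp.single oo (1 : ℤ) P) := by
    intro S
    induction S using Finset.induction_on with
    | empty => rw [Finset.prod_empty, Finset.sum_empty, P.ord_one]
    | insert a S ha ih =>
      rw [Finset.prod_insert ha, Finset.sum_insert ha, P.ord_mul (zpow_ne_zero _ (hs0 a))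
        (Finset.prod_ne_zero_iff.2 fun v _ => zpow_ne_zero _ (hs0 v)), ih, P.ord_zpow,
        ← divisor_apply (s a) P, hs1, Finsupp.sub_apply]
  rw [divisor_apply, h3]
  have h4 : ∑ v ∈ D.support, D v * (Finsupp.single v (1 : ℤ) P - Finsupp.single oo (1 : ℤ) P) =
      ∑ v ∈ D.support, D v * Finsupp.single v (1 : ℤ) P -
        (∑ v ∈ D.support, D v) * Finsupp.single oo (1 : ℤ) P := by
    rw [Finset.sum_mul, ← Finset.sum_sub_distrib]
    exact Finset.sum_congr rfl fun v _ => mul_sub _ _ _
  have h5 : ∑ v ∈ D.support, D v = 0 := by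
    rw [ddeg_eq_dg] at hD
    simpa only [dg, Finsupp.liftAddHom_apply, Finsupp.sum, AddMonoidHom.id_apply] using hD
  rw [h4, h5, zero_mul, sub_zero]
  simp only [Finsupp.single_apply, mul_ite, mul_one, mul_zero]
  rw [Finset.sum_ite_eq' D.support P]
  split_ifs with h
  · rfl
  · exact (Finsupp.notMem_support_iff.1 h).symm

theorem norm_form (N : F) (hN : N ≠ 0) (c c' : k)
    (hpar : ∀ v : Place k F, Even (v.ord N - (v.ord (t - algebraMap k F c) +
      v.ord (t - algebraMap k F c')))) :
    ∃ R : F, R ≠ 0 ∧ N = R ^ 2 * ((t - algebraMap k F c) * (t - algebraMap k F c')) := by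
  have htc0 : ∀ c : k, t - algebraMap k F c ≠ 0 := fun c h => by
    have := transc_sub_const ht c
    rw [h] at this
    exact this isAlgebraic_zero
  set s := (t - algebraMap k F c) * (t - algebraMap k F c') with hs
  have hs0 : s ≠ 0 := mul_ne_zero (htc0 c) (htc0 c')
  have h1 : ∀ v : Place k F, Even (v.ord (N / s)) := by
    intro v
    rw [v.ord_div hN hs0, hs, v.ord_mul (htc0 c) (htc0 c')]
    exact hpar v
  have h2 : (2 : ℕ) • half (divisor k (N / s)) = divisor k (N / s) := by
    ext v
    rw [Finsupp.smul_apply, half_apply, divisor_apply, nsmul_eq_mul]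
    obtain ⟨m, hm⟩ := h1 v
    rw [hm]
    push_cast
    omega
  have h3 : ddeg (half (divisor k (N / s))) = 0 := by
    have h4 := congrArg ddeg h2
    rw [ddeg_nsmul, ddeg_divisor] at h4
    push_cast at h4
    omega
  obtain ⟨R0, hR0, hR⟩ := hp.principal ht _ h3
  have h4 : divisor k (N / s * (R0 ^ 2)⁻¹) = 0 := by
    rw [divisor_mul (div_ne_zero hN hs0) (inv_ne_zero (pow_ne_zero _ hR0)), divisor_inv, pow_two,
      divisor_mul hR0 hR0, hR, ← two_smul ℕ, h2, add_neg_cancel]
  obtain ⟨a, ha⟩ := const_of_divisor h4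
  obtain ⟨b, hb⟩ := IsAlgClosed.exists_pow_nat_eq a (n := 2) (by norm_num)
  have h5 : N = algebraMap k F a * R0 ^ 2 * s := by
    rw [← ha]
    field_simp
  refine ⟨algebraMap k F b * R0, ?_, ?_⟩
  · refine mul_ne_zero ?_ hR0
    rintro h
    have hb0 : b = 0 := by simpa using h
    rw [← hb, hb0, zero_pow two_ne_zero, map_zero, zero_mul, zero_mul] at h5
    exact hN h5
  · rw [h5, ← hb, map_pow, mul_pow]

end RatPl

end rational

section norm

variable {k : Type} [Field k] [CharZero k] [IsAlgClosed k] {F0 F : Type} [Field F0] [Field F]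
  [Algebra k F0] [Algebra k F] [Algebra F0 F] [IsScalarTower k F0 F] [IsFF k F0] [IsFF k F]
  [FiniteDimensional F0 F]

open Classical in
theorem norm_parity {δ : F} (hδ : δ ≠ 0) (v : Place k F0) :
    Even (v.ord (Algebra.norm F0 δ) - ∑ b ∈ Br k δ, if under F0 b = v then (1 : ℤ) else 0) := by
  obtain ⟨T, hT, hTn⟩ := nf_ k F0 F v
  have hT' : ∀ w, w ∈ T ↔ under F0 w = v := by
    intro w
    rw [hT]
    constructor
    · intro hw
      symm
      refine Place.eq_of_le _ _ fun f hf0 hf => ?_
      have h2 := (hw f (Or.inr hf)).resolve_left (by simpa using hf0)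
      rw [ord_under] at h2
      have h3 : (0 : ℤ) < ram F0 w := by exact_mod_cast (ram_spec (F := F0) w).1
      by_contra hcon
      push Not at hcon
      nlinarith
    · intro hw h hh
      rcases hh with hh | hh
      · exact Or.inl (by rw [hh, map_zero])
      · right
        rw [ord_under, hw]
        positivity
  rw [hTn δ hδ]
  have h1 : ∑ b ∈ Br k δ, (if under F0 b = v then (1 : ℤ) else 0) =
      ∑ w ∈ T, if Odd (w.ord δ) then (1 : ℤ) else 0 := by
    rw [← Finset.sum_filter, ← Finset.sum_filter, Finset.sum_const, Finset.sum_const]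
    congr 2
    ext w
    rw [Finset.mem_filter, Finset.mem_filter, mem_Br, hT']
    exact and_comm
  rw [h1, ← Finset.sum_sub_distrib]
  refine Finset.even_sum _ fun w _ => ?_
  split_ifs with h
  · exact h.sub_odd odd_one
  · rw [sub_zero]
    exact Int.not_odd_iff_even.1 h

end norm

end Pool.Agent.J4.H82.PV
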