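import Pool.Agent.J4.H82.PV.C

/-!
# Galois closures
-/

set_option autoImplicit false

open FF IntermediateField Pool.Agent.W603.LV Pool.Agent.W603.PV Pool.Agent.J4.H17.ZC
  Pool.Agent.N162.CV Pool.Agent.N75.CV

namespace Pool.Agent.J4.H82.PV

theorem exists_galois (F0 F K : Type) [Field F0] [Field F] [Field K] [Algebra F0 F] [Algebra F K]
    [Algebra F0 K] [IsScalarTower F0 F K] [FiniteDimensional F0 K] [FiniteDimensional F0 F]
    [CharZero F0] :
    ∃ (M : Type) (_ : Field M) (_ : Algebra F0 M) (_ : FiniteDimensional F0 M)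
      (_ : IsGalois F0 M) (_ : Fintype (F →ₐ[F0] M)),
      Fintype.card (F →ₐ[F0] M) = Module.finrank F0 F ∧
      (∀ z : F, algebraMap F0 M (Algebra.norm F0 z) = ∏ ψ : F →ₐ[F0] M, ψ z) ∧
      ∃ φ : (F →ₐ[F0] M) → (K →ₐ[F0] M), ∀ ψ x, φ ψ (algebraMap F K x) = ψ x := by
  classical
  let A := AlgebraicClosure K
  have : FiniteDimensional F K := FiniteDimensional.right F0 F K
  have hAF : Algebra.IsAlgebraic F0 A := Algebra.IsAlgebraic.trans F0 K A
  have hAC : IsAlgClosure F0 A := ⟨inferInstance, hAF⟩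
  have hnA : Normal F0 A := IsAlgClosure.normal F0 A
  let M := normalClosure F0 K A
  have hlift : ∀ ψ : F →ₐ[F0] A, ∃ φ : K →ₐ[F0] M, ∀ x, (φ (algebraMap F K x) : A) = ψ x := by
    intro ψ
    obtain ⟨φ, hφ⟩ := IsAlgClosed.surjective_domRestrict_of_isAlgebraic (K := F0) (L := F)
      (M := A) (E := K) ψ
    have h1 : ∀ x : K, φ x ∈ M := fun x =>
      AlgHom.fieldRange_le_normalClosure φ ⟨x, rfl⟩
    refine ⟨φ.codRestrict M.toSubalgebra h1, fun x => ?_⟩
    rw [← hφ]
    rfl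
  let e : (F →ₐ[F0] M) ≃ (F →ₐ[F0] A) := Equiv.ofBijective (fun ψ => M.val.comp ψ) (by
    constructor
    · intro ψ ψ' h
      ext x
      exact DFunLike.congr_fun h x
    · intro ψ
      obtain ⟨φ, hφ⟩ := hlift ψ
      refine ⟨φ.comp (IsScalarTower.toAlgHom F0 F K), ?_⟩
      ext x
      exact hφ x)
  let i1 : Fintype (F →ₐ[F0] M) := Fintype.ofEquiv _ e.symm
  have hM : IsGalois F0 M := { }
  refine ⟨M, inferInstance, inferInstance, inferInstance, hM, i1, ?_, ?_, ?_⟩
  · rw [Fintype.card_congr e, AlgHom.card]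
  · intro z
    have h1 := Algebra.norm_eq_prod_embeddings F0 A z
    have h2 : Function.Injective (algebraMap M A) := (algebraMap M A).injective
    apply h2
    rw [← IsScalarTower.algebraMap_apply, h1, map_prod]
    exact (Fintype.prod_equiv e _ _ fun ψ => rfl).symm
  · choose φ hφ using fun ψ : F →ₐ[F0] M => hlift (e ψ)
    exact ⟨φ, fun ψ x => Subtype.ext (hφ ψ x)⟩

end Pool.Agent.J4.H82.PV
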