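import Pool.Agent.J4.H82.PV.D

/-!
# Symmetrized products of odd zero-cycles, and families of them
-/

set_option autoImplicit false

open FF IntermediateField Pool.Agent.W603.LV Pool.Agent.W603.PV Pool.Agent.J4.H17.ZC
  Pool.Agent.N162.CV Pool.Agent.N75.CV

namespace Pool.Agent.J4.H82.PV

section Th

variable {A T : Type} [Fintype T] [DecidableEq T]

/-- the odd zero-cycle given by a point -/
noncomputable def od (ρ : A → A) (P : A) : A →₀ ℤ := Finsupp.single P 1 - Finsupp.single (ρ P) 1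

theorem od_fixed {ρ : A → A} {P : A} (h : ρ P = P) : od ρ P = 0 := by
  unfold od; rw [h, sub_self]

theorem od_neg {ρ : A → A} (h : ∀ P, ρ (ρ P) = P) (P : A) : od ρ (ρ P) = -od ρ P := by
  unfold od; rw [h, neg_sub]

/-- the value of a homomorphism at the symmetrized product -/
noncomputable def Th (e : A → (A →₀ ℤ)) (l : ((T → A) →₀ ℤ) →+ ℚ) (x : T → A) : ℚ :=
  ∑ σ : Equiv.Perm T, l (extG fun i => e (x (σ i)))

theorem Th_mx (e : A → (A →₀ ℤ)) (l : ((T → A) →₀ ℤ) →+ ℚ) (x : T → A) :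
    l (mx (fun _ => e) (sy x)) = Th e l x := by
  unfold sy Th
  rw [map_sum, map_sum]
  refine Finset.sum_congr rfl fun σ _ => ?_
  rw [mx_single, one_smul]

theorem Th_zero {e : A → (A →₀ ℤ)} (l : ((T → A) →₀ ℤ) →+ ℚ) {x : T → A} {i : T}
    (h : e (x i) = 0) : Th e l x = 0 := by
  unfold Th
  refine Finset.sum_eq_zero fun σ _ => ?_
  rw [extG_zero _ (σ.symm i) (by rw [Equiv.apply_symm_apply, h]), map_zero]

theorem Th_sign (e : A → (A →₀ ℤ)) (l : ((T → A) →₀ ℤ) →+ ℚ) {x x' : T → A} (π : Equiv.Perm T)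
    (c : T → ℤ) (h : ∀ i, e (x' i) = c i • e (x (π i))) :
    Th e l x' = (∏ i, c i : ℤ) • Th e l x := by
  unfold Th
  rw [Finset.smul_sum, ← Equiv.sum_comp (Equiv.mulLeft π)
    fun σ => (∏ i, c i : ℤ) • l (extG fun i => e (x (σ i)))]
  refine Finset.sum_congr rfl fun σ _ => ?_
  have h1 : (extG fun i => e (x' (σ i))) = extG fun i => c (σ i) • e (x (π (σ i))) := by
    congr 1
    funext i
    exact h (σ i)
  rw [h1, ← extGM_apply, MultilinearMap.map_smul_univ, map_zsmul,
    Equiv.prod_comp σ c]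
  rfl

theorem prod_sign {c : T → ℤ} (h : ∀ i, c i = 1 ∨ c i = -1) : ∏ i, c i = 1 ∨ ∏ i, c i = -1 := by
  have h1 : ∀ S : Finset T, ∏ i ∈ S, c i = 1 ∨ ∏ i ∈ S, c i = -1 := by
    intro S
    induction S using Finset.induction_on with
    | empty => left; rw [Finset.prod_empty]
    | insert a S ha ih =>
      rw [Finset.prod_insert ha]
      rcases h a with h1 | h1 <;> rcases ih with h2 | h2 <;> rw [h1, h2] <;> norm_num
  exact h1 _

end Th

section family

variable {k : Type} [Field k] [CharZero k] [IsAlgClosed k] {K M : Type} [Field K] [Field M]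
  [Algebra k K] [Algebra k M] [IsFF k K] [IsFF k M] {T : Type} [Fintype T] [DecidableEq T]

omit [IsAlgClosed k] [IsFF k K] in
/-- the divisor of a function on the curve which parametrizes a family of points of a power of a
curve -/
theorem family (ρ : Place k K → Place k K) (hρ : Reg (X := curve k K) (Y := curve k K) ρ)
    (l : ((T → Place k K) →₀ ℤ) →+ ℚ) (hl : ∀ r ∈ RatEq ((curve k K).pow T), l r = 0)
    (y : Place k M → T → Place k K) (hy : ((curve k K).pow T).IsMor M y) {f : M} (hf : f ≠ 0)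
    (hz : ∀ P : Place k M, 0 < P.ord f → Th (od ρ) l (y P) = 0) (θ : ℚ)
    (hp : ∀ P : Place k M, P.ord f < 0 → Th (od ρ) l (y P) = θ) (hex : ∃ P : Place k M, P.ord f < 0) :
    θ = 0 := by
  classical
  have hmem := SY_mem (X := curve k K) (mem_ratEq (X := (curve k K).pow T) hy hf)
  set D := divisor k f with hD
  have h1 : SY (Finsupp.mapDomain y D) = ∑ P ∈ D.support, D P • sy (y P) := by
    rw [Finsupp.mapDomain, Finsupp.sum, map_sum]
    exact Finset.sum_congr rfl fun P _ => SY_single _ _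
  have h2 : mx (fun _ => od ρ) (SY (Finsupp.mapDomain y D)) ∈ RatEq ((curve k K).pow T) := by
    refine mx_mem (X := curve k K) (Y := curve k K) (J := Bool) (fun _ => od ρ)
      (fun _ b => if b then -1 else 1) (fun _ b x => if b then ρ x else x) ?_ ?_ hmem
    · intro i x
      rw [Fintype.sum_bool]
      simp [od]
      abel
    · intro i b L _ _ x hx
      cases b
      · simpa using hx
      · simpa using hρ L x hx
  have h3 := hl _ h2
  rw [h1, map_sum, map_sum] at h3
  have h4 : ∀ P ∈ D.support, l (mx (fun _ => od ρ) (D P • sy (y P))) =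
      -((max (-D P) 0 : ℤ) : ℚ) * θ := by
    intro P _
    rw [map_zsmul, map_zsmul, Th_mx, zsmul_eq_mul]
    have hDP : D P = P.ord f := rfl
    rcases lt_trichotomy (P.ord f) 0 with h | h | h
    · rw [hp P h, max_eq_left (by omega)]
      push_cast
      ring
    · rw [hDP, h]; simp
    · rw [hz P h, max_eq_right (by omega)]; simp
  rw [Finset.sum_congr rfl h4, ← Finset.sum_mul] at h3
  rcases mul_eq_zero.1 h3 with h5 | h5
  · exfalso
    rw [Finset.sum_neg_distrib, neg_eq_zero, ← Int.cast_sum, Int.cast_eq_zero] at h5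
    obtain ⟨P, hP⟩ := hex
    have h6 : 0 < ∑ P ∈ D.support, max (-D P) 0 := by
      apply Finset.sum_pos'
      · intro P _; exact le_max_right _ _
      · have hDP : D P = P.ord f := rfl
        refine ⟨P, ?_, ?_⟩
        · rw [Finsupp.mem_support_iff]; omega
        · exact lt_max_of_lt_left (by omega)
    omega
  · exact h5

end family

section gal

variable {k : Type} [Field k] [CharZero k] [IsAlgClosed k] {F0 F K M : Type} [Field F0] [Field F]
  [Field K] [Field M] [Algebra k F0] [Algebra k F] [Algebra k K] [Algebra k M] [Algebra F0 F]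
  [Algebra F K] [Algebra F0 K] [Algebra F0 M] [IsScalarTower k F0 F] [IsScalarTower k F K]
  [IsScalarTower k F0 K] [IsScalarTower k F0 M] [IsScalarTower F0 F K] [IsFF k F0] [IsFF k F]
  [IsFF k K] [IsFF k M]

omit [Field F0] [Field F] [Algebra k F0] [Algebra k F] [Algebra F0 F] [Algebra F K] [Algebra F0 K]
  [Algebra F0 M] [IsScalarTower k F0 F] [IsScalarTower k F K] [IsScalarTower k F0 K]
  [IsScalarTower k F0 M] [IsScalarTower F0 F K] [IsFF k F0] [IsFF k F] in
theorem pb_eq {χ : K →ₐ[k] M} {P : Place k M} {Q : Place k K} {e : ℕ} (he : 0 < e)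
    (h : ∀ f : K, P.ord (χ f) = e * Q.ord f) : pb χ P = Q := by
  obtain ⟨c, hc, hc'⟩ := pb_spec χ P
  refine Place.eq_of_le _ _ fun f hf0 hf => ?_
  have h1 := hc' f
  rw [h] at h1
  have h2 : (0 : ℤ) < e := by exact_mod_cast he
  have h3 : (0 : ℤ) < c := by exact_mod_cast hc
  by_contra hcon
  push Not at hcon
  nlinarith

omit [Field F0] [Field F] [Algebra k F0] [Algebra k F] [Algebra F0 F] [Algebra F K] [Algebra F0 K]
  [Algebra F0 M] [IsScalarTower k F0 F] [IsScalarTower k F K] [IsScalarTower k F0 K]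
  [IsScalarTower k F0 M] [IsScalarTower F0 F K] [IsFF k F0] [IsFF k F] in
theorem pb_act (γ : M ≃ₐ[k] M) (χ : K →ₐ[k] M) (P : Place k M) :
    pb χ (act γ P) = pb (γ.symm.toAlgHom.comp χ) P := by
  obtain ⟨c, hc, hc'⟩ := pb_spec (γ.symm.toAlgHom.comp χ) P
  exact pb_eq hc hc'

omit [Field F0] [Algebra k F0] [Algebra F0 F] [Algebra F0 K]
  [Algebra F0 M] [IsScalarTower k F0 F] [IsScalarTower k F0 K]
  [IsScalarTower k F0 M] [IsScalarTower F0 F K] [IsFF k F0] in
theorem under_pb (χ : K →ₐ[k] M) (ψ : F →ₐ[k] M) (h : ∀ x, χ (algebraMap F K x) = ψ x)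
    (P : Place k M) : under F (pb χ P) = pb ψ P := by
  symm
  obtain ⟨c, hc, hc'⟩ := pb_spec χ P
  refine pb_eq (e := c * ram F (pb χ P)) (Nat.mul_pos hc (ram_spec (F := F) _).1) fun f => ?_
  rw [← h, hc', ord_under]
  push_cast
  ring

omit [Field F0] [Algebra k F0] [Algebra F0 F] [Algebra F0 K]
  [Algebra F0 M] [IsScalarTower k F0 F] [IsScalarTower k F0 K]
  [IsScalarTower k F0 M] [IsScalarTower F0 F K] [IsFF k F0] [Algebra k F] [IsScalarTower k F K]
  [IsFF k F] in
theorem Root.od_lift {τ : K ≃ₐ[F] K} {w : K} {δ : F} (R : Root F K τ w δ) {τ' : K ≃ₐ[k] K}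
    (hτ' : ∀ x, τ' x = τ x)
    (χ χ' : K →ₐ[k] M) (h : ∀ x, χ (algebraMap F K x) = χ' (algebraMap F K x)) :
    ∃ c : ℤ, (c = 1 ∨ c = -1) ∧ χ w = c • χ' w ∧
      ∀ P : Place k M, od (act τ') (pb χ P) = c • od (act τ') (pb χ' P) := by
  have h1 : (χ w) ^ 2 = (χ' w) ^ 2 := by
    rw [← map_pow, ← map_pow, R.sq, h]
  have hinv : ∀ x, τ' (τ' x) = x := by
    intro x
    obtain ⟨a, b, rfl⟩ := R.dec x
    have h3 : ∀ a : F, τ' (algebraMap F K a) = algebraMap F K a := fun a => by
      rw [hτ', AlgEquiv.commutes]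
    have h4 : τ' w = -w := by rw [hτ', R.tau]
    rw [map_add, map_mul, h3, h3, h4, map_add, map_mul, h3, h3, map_neg, h4, neg_neg]
  have hsymm : ∀ x, τ'.symm x = τ' x := fun x => by rw [AlgEquiv.symm_apply_eq, hinv]
  rcases sq_eq_sq_iff_eq_or_eq_neg.1 h1 with h2 | h2
  · refine ⟨1, Or.inl rfl, by rw [h2, one_smul], fun P => ?_⟩
    have h3 : χ = χ' := by
      ext x
      obtain ⟨a, b, rfl⟩ := R.dec x
      rw [map_add, map_mul, map_add, map_mul, h, h, h2]
    rw [h3, one_smul]
  · refine ⟨-1, Or.inr rfl, by rw [h2]; simp, fun P => ?_⟩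
    have h3 : ∀ x, χ x = χ' (τ' x) := by
      intro x
      obtain ⟨a, b, rfl⟩ := R.dec x
      rw [hτ', map_add, map_mul, map_add, map_mul, map_add, map_mul, AlgEquiv.commutes,
        AlgEquiv.commutes, R.tau, h, h, h2, map_neg]
    have h4 : pb χ P = act τ' (pb χ' P) := by
      obtain ⟨c, hc, hc'⟩ := pb_spec χ' P
      refine pb_eq hc fun f => ?_
      rw [h3, hc', act_ord, hsymm]
    rw [h4, od_neg (fun P => by
      ext f
      rw [act_ord, act_ord, hsymm, hsymm, hinv]), neg_smul, one_smul]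

end gal

section orbit

variable {k : Type} [Field k] [CharZero k] [IsAlgClosed k] {F0 M : Type} [Field F0]
  [Field M] [Algebra k F0] [Algebra k M] [Algebra F0 M]
  [IsScalarTower k F0 M] [IsFF k F0] [IsFF k M] [FiniteDimensional F0 M] [IsGalois F0 M]

theorem orbit_gal (P P' : Place k M) (h : under F0 P = under F0 P') :
    ∃ γ : M ≃ₐ[F0] M, P' = act (γ.restrictScalars k) P := by
  classical
  let e := algEquivEquivAlgHom F0 M
  let i2 : Fintype (M →ₐ[F0] M) := Fintype.ofEquiv _ e.toEquiv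
  have hN : ∀ z : M, algebraMap F0 M (Algebra.norm F0 z) = ∏ φ : M →ₐ[F0] M, φ z := by
    intro z
    rw [Algebra.norm_eq_prod_automorphisms]
    exact Fintype.prod_equiv e.toEquiv _ _ fun σ => rfl
  have h1 := count_over (F := F0) (K := M) (L := M) hN P P' h.symm
  rw [tot_apply] at h1
  have h2 := (ram_spec (F := F0) P').1
  have h3 : 0 < (Finset.univ.filter fun φ : M →ₐ[F0] M =>
      pb (φ.restrictScalars k) P = P').card := by omega
  obtain ⟨φ, hφ⟩ := Finset.card_pos.1 h3
  rw [Finset.mem_filter] at hφ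
  obtain ⟨s, hs⟩ := e.surjective φ
  have hs' : ∀ f : M, φ f = s f := fun f => by rw [← hs]; rfl
  refine ⟨s⁻¹, ?_⟩
  obtain ⟨c, hc, hc'⟩ := pb_spec (φ.restrictScalars k) P
  rw [hφ.2] at hc'
  refine place_unique hc fun f => ?_
  rw [← hc']
  change P.ord (s f) = P.ord (φ f)
  rw [hs']

end orbit

end Pool.Agent.J4.H82.PV
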