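import Pool.Agent.J4.H82.PV.E

/-!
# A function on the curve which parametrizes the family
-/

set_option autoImplicit false

open FF IntermediateField Pool.Agent.W603.LV Pool.Agent.W603.PV Pool.Agent.J4.H17.ZC
  Pool.Agent.N162.CV Pool.Agent.N75.CV

namespace Pool.Agent.J4.H82.PV

variable {k : Type} [Field k] [CharZero k] [IsAlgClosed k] {F0 M : Type} [Field F0]
  [Field M] [Algebra k F0] [Algebra k M] [Algebra F0 M]
  [IsScalarTower k F0 M] [IsFF k F0] [IsFF k M]

omit [Field F0] [Algebra k F0] [Algebra F0 M] [IsScalarTower k F0 M] [IsFF k F0] [CharZero k]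
  [IsAlgClosed k] [IsFF k M] in
theorem sub_const_neg {P : Place k M} {t : M} (c : k) (h : P.ord t < 0) :
    P.ord (t - algebraMap k M c) = P.ord t := by
  have ht0 : t ≠ 0 := by
    rintro rfl
    rw [P.ord_zero] at h
    omega
  by_cases hc : c = 0
  · rw [hc, map_zero, sub_zero]
  · have h3 : algebraMap k M c ≠ 0 := by simpa using hc
    rw [sub_eq_add_neg, (P.ord_add_eq ht0 (neg_ne_zero.2 h3)
      (by rw [P.ord_neg, P.ord_const hc]; exact h)).2]

omit [Field F0] [Algebra k F0] [Algebra F0 M] [IsScalarTower k F0 M] [IsFF k F0] [CharZero k]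
  [IsAlgClosed k] [IsFF k M] in
theorem neg_of_sub_const {P : Place k M} {t : M} (c : k)
    (h : P.ord (t - algebraMap k M c) < 0) : P.ord t < 0 := by
  by_contra hcon
  have h3 : Ge P 0 (t - algebraMap k M c) := Ge.sub (Or.inr (by omega)) (Ge.const c)
  rcases h3 with h3 | h3
  · rw [h3, P.ord_zero] at h
    omega
  · omega

omit [Field F0] [Algebra k F0] [Algebra F0 M] [IsScalarTower k F0 M] [IsFF k F0]
  [IsAlgClosed k] in
theorem exists_pole {f : M} (hf : Transcendental k f) : ∃ P : Place k M, P.ord f < 0 := by
  have h1 := ddeg_polar_pos (k := k) (x := f) hf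
  by_contra hcon
  push Not at hcon
  have h2 : polar (k := k) f = 0 := by
    ext P
    rw [polar_apply]
    have := hcon P
    rw [max_eq_right (by omega)]
    rfl
  rw [h2, ddeg_zero] at h1
  omega

omit [IsAlgClosed k] [IsFF k F0] in
/-- The function which is used to compare the fibre at infinity with a fibre which contains a
branch point. -/
theorem exists_fun {t0 : F0} (ht : Transcendental k t0) {u : M} {R : F0} (hR0 : R ≠ 0) (c c' : k)
    (hu : u ^ 2 = algebraMap F0 M (R ^ 2 * ((t0 - algebraMap k F0 c) *
      (t0 - algebraMap k F0 c')))) :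
    ∃ f : M, f ≠ 0 ∧ (∀ P : Place k M, 0 < P.ord f →
        0 < P.ord (algebraMap F0 M (t0 - algebraMap k F0 c))) ∧
      (∀ P : Place k M, P.ord f < 0 → P.ord (algebraMap F0 M t0) < 0) ∧
      (∃ P : Place k M, P.ord f < 0) ∧
      ∀ (γ : M ≃ₐ[F0] M) (P : Place k M), P.ord f < 0 →
        (act (γ.restrictScalars k) P).ord f < 0 → γ.symm u = u := by
  set t : M := algebraMap F0 M t0 with htt
  have htr : Transcendental k t := (transcendental_algebraMap_iff (algebraMap F0 M).injective).2 ht
  have htc : ∀ c : k, algebraMap F0 M (t0 - algebraMap k F0 c) = t - algebraMap k M c := by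
    intro c
    rw [map_sub, ← IsScalarTower.algebraMap_apply]
  have htc0 : ∀ c : k, t - algebraMap k M c ≠ 0 := fun c h => by
    have := transc_sub_const htr c
    rw [h] at this
    exact this isAlgebraic_zero
  rw [map_mul, map_pow, map_mul, htc, htc] at hu
  have hRM : algebraMap F0 M R ≠ 0 := by simpa using hR0
  by_cases hcc : c = c'
  · -- the norm is a square
    subst hcc
    refine ⟨t - algebraMap k M c, htc0 c, fun P hP => by rw [htc]; exact hP,
      fun P hP => neg_of_sub_const c hP, exists_pole (transc_sub_const htr c), fun γ P _ _ => ?_⟩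
    have h1 : u ^ 2 = (algebraMap F0 M (R * (t0 - algebraMap k F0 c))) ^ 2 := by
      rw [hu, map_mul, htc]; ring
    rcases sq_eq_sq_iff_eq_or_eq_neg.1 h1 with h2 | h2
    · rw [h2, AlgEquiv.commutes]
    · rw [h2, map_neg, AlgEquiv.commutes]
  · set v : M := u / (algebraMap F0 M R * (t - algebraMap k M c')) with hv
    have hv2 : v ^ 2 = (t - algebraMap k M c) / (t - algebraMap k M c') := by
      rw [hv, div_pow, hu]
      have := htc0 c'
      field_simp
    have hv21 : v ^ 2 - 1 = algebraMap k M (c' - c) / (t - algebraMap k M c') := by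
      rw [hv2, map_sub]
      have := htc0 c'
      field_simp
      ring
    have hcc' : c' - c ≠ 0 := sub_ne_zero.2 (Ne.symm hcc)
    have hcM : algebraMap k M (c' - c) ≠ 0 := by rw [Ne, map_eq_zero]; exact hcc'
    have hv0 : v ≠ 0 := by
      intro h
      rw [h] at hv2
      have h3 : (t - algebraMap k M c) / (t - algebraMap k M c') ≠ 0 :=
        div_ne_zero (htc0 c) (htc0 c')
      rw [← hv2] at h3
      exact h3 (by norm_num)
    have hv210 : v ^ 2 - 1 ≠ 0 := by
      rw [hv21]
      exact div_ne_zero hcM (htc0 c')
    have hv1 : v - 1 ≠ 0 := by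
      intro h
      apply hv210
      have : v = 1 := sub_eq_zero.1 h
      rw [this]; norm_num
    have hv1' : v + 1 ≠ 0 := by
      intro h
      apply hv210
      have : v = -1 := eq_neg_of_add_eq_zero_left h
      rw [this]; norm_num
    have hfac : v ^ 2 - 1 = (v - 1) * (v + 1) := by ring
    -- orders
    have hord2 : ∀ P : Place k M, 2 * P.ord v =
        P.ord (t - algebraMap k M c) - P.ord (t - algebraMap k M c') := by
      intro P
      rw [← P.ord_div (htc0 c) (htc0 c'), ← hv2, P.ord_pow]
      rfl
    have hord3 : ∀ P : Place k M, P.ord (v - 1) + P.ord (v + 1) =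
        -P.ord (t - algebraMap k M c') := by
      intro P
      rw [← P.ord_mul hv1 hv1', ← hfac, hv21, P.ord_div hcM (htc0 c'), P.ord_const hcc', zero_sub]
    have hA : ∀ P : Place k M, P.ord v < 0 → P.ord (v - 1) = P.ord v := by
      intro P hP
      rw [sub_eq_add_neg, (P.ord_add_eq hv0 (neg_ne_zero.2 one_ne_zero)
        (by rw [P.ord_neg, P.ord_one]; exact hP)).2]
    have hB : ∀ P : Place k M, 0 < P.ord v → P.ord (v - 1) = 0 := by
      intro P hP
      have h3 := P.ord_add_eq (f := (-1 : M)) (neg_ne_zero.2 one_ne_zero) hv0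
        (by rw [P.ord_neg, P.ord_one]; exact hP)
      rw [sub_eq_neg_add, h3.2, P.ord_neg, P.ord_one]
    have hC : ∀ P : Place k M, 0 ≤ P.ord v → 0 ≤ P.ord (v - 1) := by
      intro P hP
      exact (Ge.sub (P := P) (N := 0) (Or.inr hP) Ge.one).resolve_left hv1
    have hC' : ∀ P : Place k M, 0 ≤ P.ord v → 0 ≤ P.ord (v + 1) := by
      intro P hP
      exact (Ge.add (P := P) (N := 0) (Or.inr hP) Ge.one).resolve_left hv1'
    have hdiv : ∀ P : Place k M, P.ord (v / (v - 1)) = P.ord v - P.ord (v - 1) := fun P =>
      P.ord_div hv0 hv1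
    refine ⟨v / (v - 1), div_ne_zero hv0 hv1, ?_, ?_, ?_, ?_⟩
    · intro P hP
      rw [hdiv] at hP
      have h1 : 0 < P.ord v := by
        rcases lt_trichotomy (P.ord v) 0 with h | h | h
        · rw [hA P h] at hP; omega
        · have := hC P h.ge; omega
        · exact h
      have h2 := hord2 P
      rw [htc]
      by_contra hcon
      have h3 : P.ord (t - algebraMap k M c') < 0 := by omega
      have h4 := neg_of_sub_const c' h3
      rw [sub_const_neg c h4, sub_const_neg c' h4] at h2
      omega
    · intro P hP
      rw [hdiv] at hP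
      have h1 : P.ord v = 0 := by
        rcases lt_trichotomy (P.ord v) 0 with h | h | h
        · rw [hA P h] at hP; omega
        · exact h
        · rw [hB P h] at hP; omega
      have h2 := hC' P h1.ge
      have h3 := hord3 P
      exact neg_of_sub_const c' (by omega)
    · apply exists_pole
      intro h
      apply htr
      have h1 : IsAlgebraic k v := by
        have h2 : v = v / (v - 1) * (v / (v - 1) - 1)⁻¹ := by
          have h3 : v / (v - 1) - 1 = 1 / (v - 1) := by field_simp; ring
          rw [h3]
          field_simp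
        rw [h2]
        exact h.mul (h.sub isAlgebraic_one).inv
      have h2 : IsAlgebraic k (t - algebraMap k M c') := by
        have h3 : t - algebraMap k M c' = algebraMap k M (c' - c) * (v ^ 2 - 1)⁻¹ := by
          rw [hv21]
          have := htc0 c'
          field_simp
        rw [h3]
        exact (isAlgebraic_algebraMap _).mul ((h1.pow 2).sub isAlgebraic_one).inv
      have h3 := h2.add (isAlgebraic_algebraMap (A := M) c')
      rwa [sub_add_cancel] at h3
    · intro γ P hP hP'
      have h2 : (γ.symm u) ^ 2 = u ^ 2 := by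
        rw [← map_pow, hu, ← htc, ← htc, ← map_pow, ← map_mul, ← map_mul, AlgEquiv.commutes]
      rcases sq_eq_sq_iff_eq_or_eq_neg.1 h2 with h3 | h3
      · exact h3
      · exfalso
        have h4 : γ.symm v = -v := by
          rw [hv, map_div₀, h3, map_mul, AlgEquiv.commutes, ← htc, AlgEquiv.commutes, neg_div]
        have h5 : (act (γ.restrictScalars k) P).ord (v / (v - 1)) =
            P.ord (γ.symm (v / (v - 1))) := rfl
        rw [h5, map_div₀, map_sub, h4, map_one] at hP'
        have h6 : -v / (-v - 1) = v / (v + 1) := by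
          have : -v - 1 ≠ 0 := by
            intro h; apply hv1'; linear_combination -h
          field_simp
          ring
        rw [h6, P.ord_div hv0 hv1'] at hP'
        rw [hdiv] at hP
        have h1 : P.ord v = 0 := by
          rcases lt_trichotomy (P.ord v) 0 with h | h | h
          · rw [hA P h] at hP; omega
          · exact h
          · rw [hB P h] at hP; omega
        have h7 : Ge P 1 ((v + 1) - (v - 1)) :=
          Ge.sub (Or.inr (by omega)) (Or.inr (by omega))
        have h8 : (v + 1) - (v - 1) = algebraMap k M 2 := by rw [map_ofNat]; ring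
        rw [h8] at h7
        rcases h7 with h7 | h7
        · exact absurd h7 (by simp)
        · rw [P.ord_const two_ne_zero] at h7
          omega

end Pool.Agent.J4.H82.PV
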