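import Pool.Agent.J4.H82.PV.F

/-!
# The comparison of the fibre at infinity with a fibre which contains a branch point
-/

set_option autoImplicit false

open FF IntermediateField Pool.Agent.W603.LV Pool.Agent.W603.PV Pool.Agent.J4.H17.ZC
  Pool.Agent.N162.CV Pool.Agent.N75.CV

namespace Pool.Agent.J4.H82.PV

variable {k : Type} [Field k] [CharZero k] [IsAlgClosed k] {F0 F K : Type} [Field F0] [Field F]
  [Field K] [Algebra k F0] [Algebra k F] [Algebra k K] [Algebra F0 F]
  [Algebra F K] [Algebra F0 K] [IsScalarTower k F0 F] [IsScalarTower k F K]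
  [IsScalarTower k F0 K] [IsScalarTower F0 F K] [IsFF k F0] [IsFF k F]
  [IsFF k K] [FiniteDimensional F0 K] [FiniteDimensional F0 F]

omit [Field F0] [Algebra k F0] [Algebra F0 F] [Algebra F0 K] [IsScalarTower k F0 F]
  [IsScalarTower k F0 K] [IsScalarTower F0 F K] [IsFF k F0] [FiniteDimensional F0 K]
  [FiniteDimensional F0 F] in
/-- The places over a place are conjugate. -/
theorem Root.over_eq {τ : K ≃ₐ[F] K} {w : K} {δ : F} (R : Root F K τ w δ) {P Q : Place k K}
    (h : under F Q = under F P) : Q = P ∨ Q = actF τ P := by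
  classical
  by_contra hcon
  push Not at hcon
  obtain ⟨hfd, h2⟩ := R.finrank_eq (k := k)
  obtain ⟨T, hT, hT2⟩ := exists_over (K := K) (under F P)
  rw [h2] at hT2
  have hT3 : ∑ w ∈ T, ram F w = 2 := by exact_mod_cast hT2
  have h8 := (ram_spec (F := F) P).1
  have h9 := (ram_spec (F := F) Q).1
  have h11 := (ram_spec (F := F) (actF τ P)).1
  have h12 : actF τ P ∈ T := (hT _).2 (under_act τ P)
  by_cases hfixP : actF τ P = P
  · have h4 := R.odd_of_fixed hfixP
    have h5 := R.two_ord P
    have h6 : Even ((ram F P : ℤ) * (under F P).ord δ) := by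
      rw [← h5]; exact even_two_mul _
    have h7 : Even (ram F P : ℤ) := by
      rcases Int.even_mul.1 h6 with h6 | h6
      · exact h6
      · exact absurd h6 (Int.not_even_iff_odd.2 h4)
    have h10 := Finset.add_le_sum (f := fun w : Place k K => ram F w)
      (fun _ _ => Nat.zero_le _) ((hT Q).2 h) ((hT P).2 rfl) hcon.1
    rw [hT3] at h10
    obtain ⟨a, ha⟩ := h7
    omega
  · have h13 : ({P, actF τ P, Q} : Finset (Place k K)) ⊆ T := by
      intro x hx
      simp only [Finset.mem_insert, Finset.mem_singleton] at hx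
      rcases hx with rfl | rfl | rfl
      · exact (hT _).2 rfl
      · exact h12
      · exact (hT _).2 h
    have h14 := Finset.sum_le_sum_of_subset (f := fun w : Place k K => ram F w) h13
    rw [hT3, Finset.sum_insert (by
      simp only [Finset.mem_insert, Finset.mem_singleton, not_or]
      exact ⟨fun h => hfixP h.symm, fun h => hcon.1 h.symm⟩), Finset.sum_insert (by
      simp only [Finset.mem_singleton]
      exact fun h => hcon.2 h.symm), Finset.sum_singleton] at h14
    omega

omit [Field F0] [Algebra k F0] [Algebra F0 F] [Algebra F0 K] [IsScalarTower k F0 F]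
  [IsScalarTower k F0 K] [IsScalarTower F0 F K] [IsFF k F0] [FiniteDimensional F0 K]
  [FiniteDimensional F0 F] in
theorem Root.od_over {τ : K ≃ₐ[F] K} {w : K} {δ : F} (R : Root F K τ w δ) {τ' : K ≃ₐ[k] K}
    (hτ' : ∀ x, τ' x = τ x) (P Q : Place k K) (h : under F P = under F Q) :
    ∃ c : ℤ, od (act τ') P = c • od (act τ') Q := by
  have hfix : ∀ P : Place k K, act τ' P = actF τ P := by
    intro P
    ext x
    rw [act_ord, actF_ord]
    congr 1
    rw [AlgEquiv.symm_apply_eq, hτ', AlgEquiv.apply_symm_apply]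
  have hinv : ∀ P : Place k K, act τ' (act τ' P) = P := by
    intro P
    rw [hfix, hfix]
    ext x
    rw [actF_ord, actF_ord]
    congr 1
    obtain ⟨a, b, rfl⟩ := R.dec x
    have h5 : τ.symm w = -w := by
      rw [AlgEquiv.symm_apply_eq, map_neg, R.tau, neg_neg]
    rw [map_add, map_mul, AlgEquiv.commutes, AlgEquiv.commutes, h5, map_add, map_mul,
      AlgEquiv.commutes, AlgEquiv.commutes, map_neg, h5, neg_neg]
  rcases R.over_eq h with h1 | h1
  · exact ⟨1, by rw [h1, one_smul]⟩
  · exact ⟨-1, by rw [h1, ← hfix, od_neg hinv, neg_smul, one_smul]⟩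

theorem core {τ : K ≃ₐ[F] K} {w : K} {δ : F} (R : Root F K τ w δ) {τ' : K ≃ₐ[k] K}
    (hτ' : ∀ x, τ' x = τ x) {t0 : F0} (ht : Transcendental k t0)
    (h1 : Module.finrank k⟮t0⟯ F0 = 1) {T : Type} [Fintype T] [DecidableEq T]
    (l : ((T → Place k K) →₀ ℤ) →+ ℚ) (hl : ∀ r ∈ RatEq ((curve k K).pow T), l r = 0)
    (s : T → Place k K)
    (hs : polar (algebraMap F0 F t0) ≤ tot fun i => under F (s i))
    (c c' : k) (v1 : Place k F) (hv1 : Odd (v1.ord δ))
    (hv1' : 0 < v1.ord (algebraMap F0 F (t0 - algebraMap k F0 c)))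
    (hpar : ∀ v : Place k F0, Even (v.ord (Algebra.norm F0 δ) -
      (v.ord (t0 - algebraMap k F0 c) + v.ord (t0 - algebraMap k F0 c')))) :
    Th (od (act τ')) l s = 0 := by
  classical
  have hc0 : CharZero F0 := charZero_of_injective_algebraMap (algebraMap k F0).injective
  have hfd : FiniteDimensional F K := FiniteDimensional.right F0 F K
  obtain ⟨pt, oo, hp⟩ := exists_ratPl t0 ht h1
  have hN0 : Algebra.norm F0 δ ≠ 0 := Algebra.norm_ne_zero_iff.2 R.δ0
  obtain ⟨r, hr0, hr⟩ := hp.norm_form ht _ hN0 c c' hpar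
  obtain ⟨M, _, _, _, _, _, hcard, hN, φ, hφ⟩ := exists_galois F0 F K
  let _ : Algebra k M := ((algebraMap F0 M).comp (algebraMap k F0)).toAlgebra
  have : IsScalarTower k F0 M := IsScalarTower.of_algebraMap_eq fun _ => rfl
  have : IsFF k M := isFF_of_finite (F := F0)
  have hcM : CharZero M := charZero_of_injective_algebraMap (algebraMap k M).injective
  -- the product of the square roots
  set u : M := ∏ ψ : F →ₐ[F0] M, φ ψ w with hu
  have hu0 : u ≠ 0 := Finset.prod_ne_zero_iff.2 fun ψ _ => by
    rw [Ne, map_eq_zero]; exact R.w0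
  have hu2 : u ^ 2 = algebraMap F0 M (r ^ 2 * ((t0 - algebraMap k F0 c) *
      (t0 - algebraMap k F0 c'))) := by
    rw [← hr, hN, hu, ← Finset.prod_pow]
    refine Finset.prod_congr rfl fun ψ _ => ?_
    rw [← map_pow, R.sq, hφ]
  obtain ⟨f, hf0, hfz, hfp, hfe, hfγ⟩ := exists_fun ht hr0 c c' hu2
  -- the counting lemma at zeros and poles
  have key : ∀ (a : F0), Transcendental k a → Module.finrank k⟮a⟯ F0 = 1 → ∀ P : Place k M,
      0 < P.ord (algebraMap F0 M a) → ∀ v : Place k F,
      tot (fun ψ : F →ₐ[F0] M => pb (ψ.restrictScalars k) P) v =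
        max (v.ord (algebraMap F0 F a)) 0 := by
    intro a ha ha1 P hP v
    have h1 : 0 < (under F0 P).ord a := by
      rw [ord_under] at hP
      have h3 : (0 : ℤ) < ram F0 P := by exact_mod_cast (ram_spec (F := F0) P).1
      by_contra hcon
      push Not at hcon
      nlinarith
    have h2 := place_gen a ha ha1 _ h1
    exact count hN P a h2.1 h2.2 v
  have ht' : Transcendental k t0⁻¹ := by
    intro h
    apply ht
    have := h.inv
    rwa [inv_inv] at this
  have hr' : Module.finrank k⟮t0⁻¹⟯ F0 = 1 := by rw [adjoin_inv]; exact h1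
  have keyp : ∀ P : Place k M, P.ord (algebraMap F0 M t0) < 0 →
      tot (fun ψ : F →ₐ[F0] M => pb (ψ.restrictScalars k) P) = polar (algebraMap F0 F t0) := by
    intro P hP
    ext v
    rw [key t0⁻¹ ht' hr' P (by rw [map_inv₀, P.ord_inv]; omega), polar_apply, map_inv₀,
      v.ord_inv]
  -- degrees
  obtain ⟨P1, hP1⟩ := hfe
  have hdeg : dg (polar (k := k) (algebraMap F0 F t0)) = Module.finrank F0 F := by
    rw [← keyp P1 (hfp P1 hP1), dg_tot, hcard]
  have hle : 0 ≤ (tot fun i => under F (s i)) - polar (algebraMap F0 F t0) := sub_nonneg.2 hs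
  have hdeg' : dg ((tot fun i => under F (s i)) - polar (algebraMap F0 F t0)) =
      (Fintype.card T : ℤ) - Module.finrank F0 F := by
    rw [map_sub, dg_tot, hdeg]
  have hdeg0 : 0 ≤ dg ((tot fun i => under F (s i)) - polar (algebraMap F0 F t0)) := by
    simp only [dg, Finsupp.liftAddHom_apply]
    exact Finset.sum_nonneg fun w _ => hle w
  have hmle : Module.finrank F0 F ≤ Fintype.card T := by
    rw [hdeg'] at hdeg0
    omega
  obtain ⟨S, hS⟩ := enum (ι := Fin (Fintype.card T - Module.finrank F0 F)) _ hle (by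
    rw [hdeg', Fintype.card_fin]
    push_cast [hmle]
    rfl)
  choose S' hS' using fun j => exists_place_over (K := K) (S j)
  have e : T ≃ (F →ₐ[F0] M) ⊕ Fin (Fintype.card T - Module.finrank F0 F) :=
    Fintype.equivOfCardEq (by rw [Fintype.card_sum, hcard, Fintype.card_fin]; omega)
  let y0 : Place k M → (F →ₐ[F0] M) ⊕ Fin (Fintype.card T - Module.finrank F0 F) → Place k K :=
    fun P => Sum.elim (fun ψ => pb ((φ ψ).restrictScalars k) P) S'
  let y : Place k M → T → Place k K := fun P i => y0 P (e i)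
  have hy : ((curve k K).pow T).IsMor M y := by
    intro i
    change (curve k K).IsMor M (fun P => y0 P (e i))
    rcases e i with ψ | j
    · right
      refine ⟨(φ ψ).restrictScalars k, fun P => ?_⟩
      exact pb_spec ((φ ψ).restrictScalars k) P
    · left
      exact ⟨S' j, fun P => rfl⟩
  have hpbu : ∀ (ψ : F →ₐ[F0] M) (P : Place k M),
      under F (pb ((φ ψ).restrictScalars k) P) = pb (ψ.restrictScalars k) P := fun ψ P =>
    under_pb ((φ ψ).restrictScalars k) (ψ.restrictScalars k) (fun x => hφ ψ x) P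
  -- sums of the places below
  have hunder : ∀ P : Place k M, P.ord (algebraMap F0 M t0) < 0 →
      (tot fun i => under F (y P i)) = tot fun i => under F (s i) := by
    intro P hP
    have h2 : (fun i => under F (y P i)) =
        fun i => Sum.elim (fun ψ : F →ₐ[F0] M => pb (ψ.restrictScalars k) P) S (e i) := by
      funext i
      change under F (y0 P (e i)) = _
      rcases e i with ψ | j
      · exact hpbu ψ P
      · exact hS' j
    rw [h2, tot_comp e, tot_sum, keyp P hP, hS]
    abel
  -- the involution acts on the places over a given place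
  have hfix : ∀ P : Place k K, act τ' P = actF τ P := by
    intro P
    ext x
    rw [act_ord, actF_ord]
    congr 1
    rw [AlgEquiv.symm_apply_eq, hτ', AlgEquiv.apply_symm_apply]
  have hodd : ∀ P : Place k K, Odd ((under F P).ord δ) → od (act τ') P = 0 := by
    intro P hP
    apply od_fixed
    rw [hfix]
    exact R.fixed_of_odd hP
  have hzero : ∀ P : Place k M, 0 < P.ord f → Th (od (act τ')) l (y P) = 0 := by
    intro P hP
    have h2 := hfz P hP
    have h3 := key _ (transc_sub_const ht c) (by rw [adjoin_sub_const]; exact h1) P h2 v1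
    rw [max_eq_left hv1'.le, tot_apply] at h3
    have h4 : 0 < (Finset.univ.filter fun ψ : F →ₐ[F0] M =>
      pb (ψ.restrictScalars k) P = v1).card := by omega
    obtain ⟨ψ, hψ⟩ := Finset.card_pos.1 h4
    rw [Finset.mem_filter] at hψ
    refine Th_zero l (i := e.symm (Sum.inl ψ)) ?_
    have h5 : y P (e.symm (Sum.inl ψ)) = pb ((φ ψ).restrictScalars k) P := by
      change y0 P (e (e.symm (Sum.inl ψ))) = _
      rw [Equiv.apply_symm_apply]
      rfl
    rw [h5]
    apply hodd
    rw [hpbu, hψ.2]
    exact hv1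
  -- conjugate places
  have hconj : ∀ P : Place k M, P.ord f < 0 →
      Th (od (act τ')) l (y P) = Th (od (act τ')) l (y P1) := by
    intro P hP
    have h2 : under F0 P1 = under F0 P := by
      have h3 : ∀ P : Place k M, P.ord f < 0 → under F0 P = oo := by
        intro P hP
        apply hp.neg
        have h4 := hfp P hP
        rw [ord_under] at h4
        have h3 : (0 : ℤ) < ram F0 P := by exact_mod_cast (ram_spec (F := F0) P).1
        by_contra hcon
        push Not at hcon
        nlinarith
      rw [h3 P1 hP1, h3 P hP]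
    obtain ⟨γ, hγ⟩ := orbit_gal P1 P h2
    have h3 := hfγ γ P1 hP1 (by rw [← hγ]; exact hP)
    -- the permutation of the embeddings
    let κ : (F →ₐ[F0] M) ≃ (F →ₐ[F0] M) :=
      { toFun := fun ψ => γ.symm.toAlgHom.comp ψ
        invFun := fun ψ => γ.toAlgHom.comp ψ
        left_inv := fun ψ => by
          ext x
          exact γ.apply_symm_apply (ψ x)
        right_inv := fun ψ => by
          ext x
          exact γ.symm_apply_apply (ψ x) }
    have h4 : ∀ ψ : F →ₐ[F0] M, ∃ c : ℤ, (c = 1 ∨ c = -1) ∧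
        γ.symm (φ ψ w) = c • φ (κ ψ) w ∧ ∀ P : Place k M,
        od (act τ') (pb ((φ ψ).restrictScalars k) (act (γ.restrictScalars k) P)) =
          c • od (act τ') (pb ((φ (κ ψ)).restrictScalars k) P) := by
      intro ψ
      obtain ⟨c, hc, hc1, hc2⟩ := R.od_lift hτ'
        ((γ.restrictScalars k).symm.toAlgHom.comp ((φ ψ).restrictScalars k))
        ((φ (κ ψ)).restrictScalars k) (fun x => by
          change γ.symm (φ ψ (algebraMap F K x)) = φ (κ ψ) (algebraMap F K x)
          rw [hφ, hφ]
          rfl)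
      refine ⟨c, hc, hc1, fun P => ?_⟩
      rw [pb_act]
      exact hc2 P
    choose a ha ha1 ha2 using h4
    have h5 : (∏ ψ, a ψ : ℤ) = 1 := by
      have h6 : γ.symm u = (∏ ψ, a ψ : ℤ) • u := by
        rw [hu, map_prod, Finset.prod_congr rfl fun ψ _ => ha1 ψ]
        simp only [zsmul_eq_mul]
        rw [Finset.prod_mul_distrib, Equiv.prod_comp κ fun ψ => φ ψ w]
        push_cast
        rfl
      rw [h3, zsmul_eq_mul] at h6
      have h7 : ((∏ ψ, a ψ : ℤ) : M) = 1 := by
        have h8 : (((∏ ψ, a ψ : ℤ) : M) - 1) * u = 0 := by linear_combination -h6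
        exact sub_eq_zero.1 ((mul_eq_zero.1 h8).resolve_right hu0)
      exact_mod_cast h7
    have h6 := Th_sign (od (act τ')) l (x := y P1) (x' := y P)
      ((e.trans (Equiv.sumCongr κ (Equiv.refl _))).trans e.symm)
      (fun i => Sum.elim a (fun _ => 1) (e i)) (by
        intro i
        change od (act τ') (y0 P (e i)) = Sum.elim a (fun _ => (1 : ℤ)) (e i) •
          od (act τ') (y0 P1 (e (e.symm (Equiv.sumCongr κ (Equiv.refl _) (e i)))))
        rw [Equiv.apply_symm_apply, hγ]
        rcases e i with ψ | j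
        · exact ha2 ψ P1
        · exact (one_smul ℤ _).symm)
    have h7 : ∏ i, Sum.elim a (fun _ => (1 : ℤ)) (e i) = 1 := by
      rw [Equiv.prod_comp e fun z => Sum.elim a (fun _ => (1 : ℤ)) z, Fintype.prod_sum_type]
      simp only [Sum.elim_inl, Sum.elim_inr]
      rw [h5, Finset.prod_const_one, one_mul]
    rw [h6, h7, one_smul]
  have hfam := family (act τ') (act_reg τ') l hl y hy hf0 hzero _ hconj ⟨P1, hP1⟩
  -- the configuration `s`
  obtain ⟨π, hπ⟩ := exists_perm (hunder P1 (hfp P1 hP1))
  choose a ha using fun i => R.od_over hτ' (s i) (y P1 (π i)) (congrFun hπ i)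
  rw [Th_sign (od (act τ')) l (x := y P1) (x' := s) π a ha, hfam, smul_zero]

end Pool.Agent.J4.H82.PV
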