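import Pool.Agent.J4.H82.PV.G

/-!
# The vanishing theorem for odd zero-cycles on double covers with a branch point
-/

set_option autoImplicit false

open FF IntermediateField Pool.Agent.W603.LV Pool.Agent.W603.PV Pool.Agent.J4.H17.ZC
  Pool.Agent.N162.CV Pool.Agent.N75.CV

namespace Pool.Agent.J4.H82.PV

variable {k : Type} [Field k] [CharZero k] [IsAlgClosed k] {F K : Type} [Field F]
  [Field K] [Algebra k F] [Algebra k K] [Algebra F K] [IsScalarTower k F K] [IsFF k F] [IsFF k K]

/-- Symmetrized products of `g - g' + 1` odd zero-cycles vanish, if `g` and `g'` are the genera of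
a curve and its quotient by an involution with a fixed point. -/
theorem vanish_odd {τ : K ≃ₐ[F] K} (q : Quad F K τ) {τ' : K ≃ₐ[k] K} (hτ' : ∀ x, τ' x = τ x)
    {g g' : ℕ} (hg : HasGenus k K g) (hg' : HasGenus k F g')
    (hfix : ∃ P : Place k K, act τ' P = P) {T : Type} [Fintype T] [DecidableEq T]
    (hT : Fintype.card T + g' = g + 1) (s : T → Place k K)
    (l : ((T → Place k K) →₀ ℤ) →+ ℚ) (hl : ∀ r ∈ RatEq ((curve k K).pow T), l r = 0) :
    Th (od (act τ')) l s = 0 := by
  classical
  obtain ⟨w, δ, R⟩ := q.exists_root (k := k)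
  by_cases hsf : ∃ i, act τ' (s i) = s i
  · obtain ⟨i, hi⟩ := hsf
    exact Th_zero l (i := i) (od_fixed hi)
  push Not at hsf
  have hact : ∀ P : Place k K, act τ' P = actF τ P := by
    intro P
    ext x
    rw [act_ord, actF_ord]
    congr 1
    rw [AlgEquiv.symm_apply_eq, hτ', AlgEquiv.apply_symm_apply]
  have hsb : ∀ i, ¬ Odd ((under F (s i)).ord δ) := fun i h => hsf i (by
    rw [hact]; exact R.fixed_of_odd h)
  -- the branch places
  obtain ⟨P0, hP0⟩ := hfix
  have hP0' : under F P0 ∈ Br k δ := mem_Br.2 (R.odd_of_fixed (by rw [← hact]; exact hP0))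
  have hcard := R.card_Br_le hg hg'
  have hhalf := ddeg_half (k := k) δ
  have hpos : 0 < (Br k δ).card := Finset.card_pos.2 ⟨_, hP0'⟩
  obtain ⟨m, hm⟩ : ∃ m : ℕ, (Br k δ).card = 2 * (m + 1) :=
    ⟨(Br k δ).card / 2 - 1, by omega⟩
  let e : Fin (m + 1) × Bool ≃ Br k δ := Fintype.equivOfCardEq (by
    rw [Fintype.card_prod, Fintype.card_fin, Fintype.card_bool, Fintype.card_coe, hm]; ring)
  let b : Fin (m + 1) → Place k F := fun j => (e (j, false)).1
  let b' : Fin (m + 1) → Place k F := fun j => (e (j, true)).1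
  have hb : ∀ j, Odd ((b j).ord δ) := fun j => mem_Br.1 (e (j, false)).2
  have hb' : ∀ j, Odd ((b' j).ord δ) := fun j => mem_Br.1 (e (j, true)).2
  -- the divisor
  set E : Place k F →₀ ℤ := tot fun i => under F (s i) with hE
  have hEb : ∀ v : Place k F, Odd (v.ord δ) → E v = 0 := by
    intro v hv
    rw [hE, tot_apply, Nat.cast_eq_zero, Finset.card_eq_zero, Finset.filter_eq_empty_iff]
    intro i _ h
    rw [← h] at hv
    exact hsb i hv
  have hEd : ddeg E = Fintype.card T := by rw [ddeg_eq_dg, hE, dg_tot]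
  have hell := ell_lower hg' E
  obtain ⟨h, hhE, hh, hhb⟩ := exists_paired (J := Fin m) E (fun j => b j.castSucc)
    (fun j => b' j.castSucc) (fun j => (hEb _ (hb _)).le) (fun j => (hEb _ (hb' _)).le) (by
      rw [Fintype.card_fin]
      omega)
  have hh0 : h ≠ 0 := by
    rintro rfl
    exact hh isAlgebraic_zero
  have hhP := hhE.resolve_left hh0
  -- the rational function field
  let t : k⟮h⟯ := AdjoinSimple.gen k h
  have hht : algebraMap k⟮h⟯ F t = h := rfl
  have ht : Transcendental k t := by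
    rw [← transcendental_algebraMap_iff (algebraMap k⟮h⟯ F).injective]
    exact hh
  have hr : Module.finrank k⟮t⟯ k⟮h⟯ = 1 := finrank_gen h
  have hfd : FiniteDimensional k⟮t⟯ k⟮h⟯ := Module.finite_of_finrank_pos (by rw [hr]; exact one_pos)
  have : IsFF k k⟮h⟯ := IsFF.of_finite ht hfd
  have : FiniteDimensional k⟮h⟯ F := IsFF.finite hh
  have : IsScalarTower k⟮h⟯ F K := inferInstance
  have : IsScalarTower k k⟮h⟯ K := inferInstance
  obtain ⟨hfdK, -⟩ := R.finrank_eq (k := k)
  have : FiniteDimensional k⟮h⟯ K := FiniteDimensional.trans k⟮h⟯ F K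
  -- the values at the last pair
  have hreg : ∀ v : Place k F, Odd (v.ord δ) → ∃ c : k, Ge v 1 (h - algebraMap k F c) := by
    intro v hv
    apply Pool.Agent.W603.LV.exists_const
    right
    have := hhP v
    rw [hEb v hv] at this
    omega
  have hne : ∀ c : k, h - algebraMap k F c ≠ 0 := fun c hc => by
    have := transc_sub_const hh c
    rw [hc] at this
    exact this isAlgebraic_zero
  obtain ⟨c, hc⟩ := hreg _ (hb (Fin.last m))
  obtain ⟨c', hc'⟩ := hreg _ (hb' (Fin.last m))
  obtain ⟨pt, oo, hp⟩ := exists_ratPl t ht hr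
  have hpt : ∀ (v : Place k F) (c : k), Ge v 1 (h - algebraMap k F c) → under k⟮h⟯ v = pt c := by
    intro v c hvc
    apply hp.uniq
    have h1 := hvc.resolve_left (hne c)
    have h2 : h - algebraMap k F c = algebraMap k⟮h⟯ F (t - algebraMap k k⟮h⟯ c) := by
      rw [map_sub, hht, ← IsScalarTower.algebraMap_apply]
    rw [h2, ord_under] at h1
    have h3 : (0 : ℤ) < ram k⟮h⟯ v := by exact_mod_cast (ram_spec (F := k⟮h⟯) v).1
    by_contra hcon
    push Not at hcon
    nlinarith
  refine core R hτ' ht hr l hl s ?_ c c' (b (Fin.last m)) (hb _) ?_ ?_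
  · intro v
    rw [polar_apply, hht]
    have h1 := hhP v
    have h2 : 0 ≤ E v := tot_nonneg _ v
    change _ ≤ E v
    exact max_le (by omega) h2
  · rw [map_sub, hht, ← IsScalarTower.algebraMap_apply]
    have := hc.resolve_left (hne c)
    omega
  · intro v
    have h1 := norm_parity (F0 := k⟮h⟯) R.δ0 v
    have h2 : ∑ b ∈ Br k δ, (if under k⟮h⟯ b = v then (1 : ℤ) else 0) =
        ∑ j : Fin (m + 1), ((if under k⟮h⟯ (b j) = v then (1 : ℤ) else 0) +
          (if under k⟮h⟯ (b' j) = v then (1 : ℤ) else 0)) := by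
      rw [← Finset.sum_coe_sort (Br k δ) fun b => if under k⟮h⟯ b = v then (1 : ℤ) else 0,
        ← Equiv.sum_comp e, Fintype.sum_prod_type]
      refine Finset.sum_congr rfl fun j _ => ?_
      rw [Fintype.sum_bool, add_comm]
    have h3 : ∀ j : Fin m, Even ((if under k⟮h⟯ (b j.castSucc) = v then (1 : ℤ) else 0) +
          (if under k⟮h⟯ (b' j.castSucc) = v then (1 : ℤ) else 0)) := by
      intro j
      obtain ⟨a, ha, ha'⟩ := hhb j
      rw [hpt _ a ha, hpt _ a ha']
      exact Even.add_self _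
    rw [h2, Fin.sum_univ_castSucc, hpt _ c hc, hpt _ c' hc'] at h1
    have h4 : Even (∑ j : Fin m, ((if under k⟮h⟯ (b j.castSucc) = v then (1 : ℤ) else 0) +
          (if under k⟮h⟯ (b' j.castSucc) = v then (1 : ℤ) else 0))) :=
      Finset.even_sum _ fun j _ => h3 j
    rw [hp.div, hp.div]
    simp only [Finsupp.single_apply]
    have h5 : ∀ x y z u o : ℤ, Even (x - (y + (z + u))) → Even y → Even (x - (z - o + (u - o))) := by
      intro x y z u o h1 h2
      have h3 : x - (z - o + (u - o)) = (x - (y + (z + u))) + y + (o + o) := by ring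
      rw [h3]
      exact (h1.add h2).add (Even.add_self _)
    exact h5 _ _ _ _ _ h1 h4

end Pool.Agent.J4.H82.PV
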