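import Pool.Agent.J4.H82.PV.H
import Pool.Agent.J4.H17.ZC.G11

/-!
# Relations in powers of products of two curves from vanishing theorems on the curves
-/

set_option autoImplicit false

open FF IntermediateField Equiv Pool.Agent.J4.H17.ZC

namespace Pool.Agent.J4.H82.PV

/-- The symmetrized products of `d + 1` zero-cycles `e P` vanish up to torsion. -/
def Van (k : Type) [Field k] [CharZero k] {K : Type} [Field K] [Algebra k K]
    (e : Place k K → (Place k K →₀ ℤ)) (d : ℕ) : Prop :=
  ∀ (T : Type) [Fintype T] [DecidableEq T], Fintype.card T = d + 1 →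
    ∀ (s : T → Place k K) (l : ((T → Place k K) →₀ ℤ) →+ ℚ),
      (∀ r ∈ RatEq ((curve k K).pow T), l r = 0) → Th e l s = 0

/-- Fixed coordinates: the relation in a power where the coordinates outside of `T` are arbitrary
cycles. -/
theorem van_multi {k : Type} [Field k] {K : Type} [Field K] [Algebra k K] [CharZero k]
    {e : Place k K → (Place k K →₀ ℤ)} {g : ℕ}
    (hg : Van k e g) {ι : Type} [Fintype ι] [DecidableEq ι] (T : Finset ι)
    (hT : T.card = g + 1) (s : ι → Place k K)
    (l : ((ι → Place k K) →₀ ℤ) →+ ℚ) (hl : ∀ r ∈ RatEq ((curve k K).pow ι), l r = 0)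
    (Z : ι → Place k K →₀ ℤ) :
    ∑ τ ∈ PT T, l (extG fun i => if i ∈ T then e (s (τ i)) else Z i) = 0 := by
  classical
  -- the case of points outside of `T`
  have key : ∀ z : ι → Place k K, ∑ τ ∈ PT T, l (extG fun i =>
      if i ∈ T then e (s (τ i)) else Finsupp.single (z i) 1) = 0 := by
    intro z
    let G : ({x // x ∈ T} → Place k K) → (ι → Place k K) := fun u i =>
      if h : i ∈ T then u ⟨i, h⟩ else z i
    have hG : Reg (X := (curve k K).pow {x // x ∈ T}) (Y := (curve k K).pow ι) G := by
      intro L _ _ x hx i
      by_cases h : i ∈ T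
      · have h1 := hx ⟨i, h⟩
        have h2 : (fun P => G (x P) i) = fun P => x P ⟨i, h⟩ := by
          funext P
          simp only [G, h, dite_true]
        rw [h2]
        exact h1
      · have h2 : (fun P => G (x P) i) = fun _ : Place k L => z i := by
          funext P
          simp only [G, h, dite_false]
        rw [h2]
        exact curve_const K L _
    have h1 := hg {x // x ∈ T} (by rw [Fintype.card_coe, hT])
      (fun i => s i) (l.comp (Finsupp.mapDomain.addMonoidHom G)) (fun r hr => hl _ (hG.push hr))
    unfold Th at h1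
    rw [sum_PT, ← h1]
    refine Finset.sum_congr rfl fun σ _ => ?_
    change _ = l (Finsupp.mapDomain G (extG _))
    congr 1
    -- both sides are multilinear in the factors
    have h3 : ∀ a : {x // x ∈ T} → Place k K →₀ ℤ, Finsupp.mapDomain G (extG a) =
        extG fun i => if h : i ∈ T then a ⟨i, h⟩ else Finsupp.single (z i) 1 := by
      intro a
      ext y
      by_cases hy : ∀ i, i ∉ T → y i = z i
      · have h4 : y = G fun j => y j := by
          funext i
          by_cases h : i ∈ T
          · simp only [G, h, dite_true]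
          · simp only [G, h, dite_false]
            exact hy i h
        have hinj : Function.Injective G := by
          intro u v huv
          funext j
          have := congrFun huv j
          simpa only [G, j.2, dite_true] using this
        have h5 : Finsupp.mapDomain G (extG a) y = extG a fun j => y j := by
          conv_lhs => rw [h4]
          exact Finsupp.mapDomain_apply hinj (extG a) fun j : {x // x ∈ T} => y j
        rw [h5, extG_apply, extG_apply]
        rw [← Finset.prod_subset (Finset.subset_univ T)]
        · rw [← Finset.prod_coe_sort T]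
          refine Finset.prod_congr rfl fun j _ => ?_
          rw [dif_pos j.2]
        · intro i _ hi
          rw [dif_neg hi, hy i hi, Finsupp.single_eq_same]
      · push Not at hy
        obtain ⟨i, hi, hyi⟩ := hy
        rw [extG_apply, Finset.prod_eq_zero (Finset.mem_univ i)]
        · refine Finsupp.mapDomain_of_notMem_range _ _ ?_
          rintro ⟨u, hu⟩
          apply hyi
          rw [← hu]
          simp only [G, hi, dite_false]
        · rw [dif_neg hi, Finsupp.single_eq_of_ne hyi]
    rw [h3]
    congr 1
    funext i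
    by_cases h : i ∈ T
    · rw [if_pos h, dif_pos h]
      congr 1
      congr 1
      rw [Equiv.Perm.ofSubtype_apply_of_mem σ h]
    · rw [if_neg h, dif_neg h]
  -- reduction to this case
  have main : ∀ (U : Finset ι) (Z : ι → Place k K →₀ ℤ),
      (∀ i, i ∉ U → ∃ z, Z i = Finsupp.single z 1) →
      ∑ τ ∈ PT T, l (extG fun i => if i ∈ T then e (s (τ i)) else Z i) = 0 := by
    intro U
    induction U using Finset.induction_on with
    | empty =>
      intro Z hZ
      have h1 : ∀ i, ∃ z, Z i = Finsupp.single z 1 := fun i => hZ i (by simp)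
      choose z hz using h1
      have h2 : Z = fun i => Finsupp.single (z i) 1 := funext hz
      rw [h2]
      exact key z
    | insert j U hj ih =>
      intro Z hZ
      by_cases hjT : j ∈ T
      · -- the cycle `Z j` does not matter
        have h1 := ih (Function.update Z j (Finsupp.single (s j) 1)) (by
          intro i hi
          by_cases hij : i = j
          · subst hij; exact ⟨s i, by rw [Function.update_self]⟩
          · rw [Function.update_of_ne hij]
            exact hZ i (by rw [Finset.mem_insert, not_or]; exact ⟨hij, hi⟩))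
        rw [← h1]
        refine Finset.sum_congr rfl fun τ _ => ?_
        congr 2
        funext i
        by_cases h : i ∈ T
        · rw [if_pos h, if_pos h]
        · rw [if_neg h, if_neg h, Function.update_of_ne (fun h' => h (by rw [h']; exact hjT))]
      · have h1 : ∀ w : Place k K →₀ ℤ, ∑ τ ∈ PT T, l (extG (Function.update
            (fun i => if i ∈ T then e (s (τ i)) else Z i) j w)) = 0 := by
          intro w
          induction w using Finsupp.induction_linear with
          | zero =>
            refine Finset.sum_eq_zero fun τ _ => ?_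
            rw [← extGM_apply, MultilinearMap.map_update_zero, map_zero]
          | add u v hu hv =>
            have h2 : ∀ τ : Equiv.Perm ι, l (extG (Function.update
                (fun i => if i ∈ T then e (s (τ i)) else Z i) j (u + v))) =
                l (extG (Function.update
                (fun i => if i ∈ T then e (s (τ i)) else Z i) j u)) +
                l (extG (Function.update
                (fun i => if i ∈ T then e (s (τ i)) else Z i) j v)) := by
              intro τ
              rw [← map_add, ← extGM_apply, ← extGM_apply, ← extGM_apply,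
                MultilinearMap.map_update_add]
            rw [Finset.sum_congr rfl fun τ _ => h2 τ, Finset.sum_add_distrib, hu, hv, add_zero]
          | single u c =>
            have h5 : Finsupp.single u c = c • Finsupp.single u (1 : ℤ) := by
              rw [Finsupp.smul_single, smul_eq_mul, mul_one]
            have h2 : ∀ τ : Equiv.Perm ι, l (extG (Function.update
                (fun i => if i ∈ T then e (s (τ i)) else Z i) j
                  (Finsupp.single u c))) = (c : ℚ) * l (extG (fun i =>
                  if i ∈ T then e (s (τ i)) else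
                    Function.update Z j (Finsupp.single u 1) i)) := by
              intro τ
              rw [h5, ← extGM_apply, MultilinearMap.map_update_smul, map_zsmul, zsmul_eq_mul,
                extGM_apply]
              congr 3
              funext i
              by_cases hij : i = j
              · subst hij
                rw [Function.update_self, if_neg hjT, Function.update_self]
              · rw [Function.update_of_ne hij, Function.update_of_ne hij]
            rw [Finset.sum_congr rfl fun τ _ => h2 τ, ← Finset.mul_sum, ih, mul_zero]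
            intro i hi
            by_cases hij : i = j
            · subst hij; exact ⟨u, by rw [Function.update_self]⟩
            · rw [Function.update_of_ne hij]
              exact hZ i (by rw [Finset.mem_insert, not_or]; exact ⟨hij, hi⟩)
        have h2 := h1 (Z j)
        rw [← h2]
        refine Finset.sum_congr rfl fun τ _ => ?_
        congr 2
        funext i
        by_cases hij : i = j
        · subst hij
          rw [Function.update_self, if_neg hjT]
        · rw [Function.update_of_ne hij]
  exact main Finset.univ Z (fun i hi => absurd (Finset.mem_univ i) hi)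


section rel

variable {k : Type} [Field k] [CharZero k] {K1 K2 : Type} [Field K1] [Algebra k K1] [Field K2]
  [Algebra k K2] {n : ℕ}

/-- The relations in the first factors. -/
theorem rel_left {e : Place k K1 → (Place k K1 →₀ ℤ)} {g : ℕ} (hg : Van k e g)
    (T : Finset (Fin n)) (hT : T.card = g + 1)
    (s : Fin n → Place k K1) (Z : Fin n → Place k K1 →₀ ℤ)
    (W : Fin n → Place k K2 →₀ ℤ)
    (l : ((Fin n → Place k K1 × Place k K2) →₀ ℤ) →+ ℚ)
    (hl : ∀ r ∈ RatEq (((curve k K1).prod (curve k K2)).pow (Fin n)), l r = 0) :
    ∑ τ ∈ PT T, l (extG fun i =>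
      px (if i ∈ T then e (s (τ i)) else Z i) (W i)) = 0 := by
  have h1 := van_multi hg T hT s
    (l.comp (mx fun i s => Finsupp.mapDomain (fun t => (s, t)) (W i)))
    (fun r hr => hl _ (left_mem W hr)) Z
  rw [← h1]
  refine Finset.sum_congr rfl fun τ _ => ?_
  change _ = l (mx (fun i s => Finsupp.mapDomain (fun t => (s, t)) (W i)) (extG _))
  rw [mx_extG]
  rfl

/-- The relations in the second factors. -/
theorem rel_right {e : Place k K2 → (Place k K2 →₀ ℤ)} {g : ℕ} (hg : Van k e g)
    (T : Finset (Fin n)) (hT : T.card = g + 1)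
    (t : Fin n → Place k K2) (Z : Fin n → Place k K1 →₀ ℤ)
    (W : Fin n → Place k K2 →₀ ℤ)
    (l : ((Fin n → Place k K1 × Place k K2) →₀ ℤ) →+ ℚ)
    (hl : ∀ r ∈ RatEq (((curve k K1).prod (curve k K2)).pow (Fin n)), l r = 0) :
    ∑ τ ∈ PT T, l (extG fun i =>
      px (Z i) (if i ∈ T then e (t (τ i)) else W i)) = 0 := by
  have h1 := van_multi hg T hT t
    (l.comp (mx fun i t => Finsupp.mapDomain (fun s => (s, t)) (Z i)))
    (fun r hr => hl _ (right_mem Z hr)) W
  rw [← h1]
  refine Finset.sum_congr rfl fun τ _ => ?_
  change _ = l (mx (fun i t => Finsupp.mapDomain (fun s => (s, t)) (Z i)) (extG _))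
  rw [mx_extG]
  congr 2
  funext i
  exact px_swap _ _

/-- The bound `m` for a pair of operators. -/
def VanPair (k : Type) [Field k] [CharZero k] {K1 K2 : Type} [Field K1] [Algebra k K1] [Field K2]
    [Algebra k K2] (e1 : Place k K1 → (Place k K1 →₀ ℤ)) (e2 : Place k K2 → (Place k K2 →₀ ℤ))
    (m : ℕ) : Prop :=
  (∃ d1 d2, Van k e1 d1 ∧ Van k e2 d2 ∧ m = d1 * d2) ∨ Van k e1 0 ∨ Van k e2 0

theorem pair_vanish {J : Type} (e1 : J → Place k K1 → (Place k K1 →₀ ℤ))
    (e2 : J → Place k K2 → (Place k K2 →₀ ℤ)) (m : J → ℕ)
    (hv : ∀ j, VanPair k (e1 j) (e2 j) (m j)) [Fintype J]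
    (hn : ∑ j, m j < n) (l : ((Fin n → Place k K1 × Place k K2) →₀ ℤ) →+ ℚ)
    (hl : ∀ r ∈ RatEq (((curve k K1).prod (curve k K2)).pow (Fin n)), l r = 0) (κ : Fin n → J)
    (x : Fin n → Place k K1 × Place k K2) :
    ∑ σ : Perm (Fin n), ((Perm.sign σ : ℤ) : ℚ) *
      l (extG fun i => px (e1 (κ i) (x (σ i)).1) (e2 (κ i) (x (σ i)).2)) = 0 := by
  classical
  -- the pigeonhole principle
  obtain ⟨j, hj⟩ : ∃ j, m j < (Finset.univ.filter fun i => κ i = j).card := by
    by_contra hcon
    push Not at hcon
    have h3 : n = ∑ j, (Finset.univ.filter fun i => κ i = j).card := by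
      have h4 := Finset.card_eq_sum_card_fiberwise (s := (Finset.univ : Finset (Fin n)))
        (t := (Finset.univ : Finset J)) (f := κ) (fun i _ => Finset.mem_univ _)
      rwa [Finset.card_univ, Fintype.card_fin] at h4
    have h4 : ∑ j, (Finset.univ.filter fun i => κ i = j).card ≤ ∑ j, m j :=
      Finset.sum_le_sum fun j _ => hcon j
    omega
  -- the relations
  have hL : ∀ d, Van k (e1 j) d → ∀ T : Finset (Fin n),
      T ⊆ (Finset.univ.filter fun i => κ i = j) → T.card = d + 1 → ∀ u v : Perm (Fin n),
      ∑ τ ∈ PT T, l (extG fun i => px (e1 (κ i) (x ((u * τ) i)).1) (e2 (κ i) (x (v i)).2)) = 0 := by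
    intro d hd T hTA hT u v
    have h3 := rel_left hd T hT (fun i => (x (u i)).1)
      (fun i => e1 (κ i) (x (u i)).1) (fun i => e2 (κ i) (x (v i)).2) l hl
    rw [← h3]
    refine Finset.sum_congr rfl fun τ hτ => ?_
    rw [mem_PT] at hτ
    refine congrArg l (congrArg extG (funext fun i => ?_))
    by_cases hi : i ∈ T
    · rw [if_pos hi]
      have h4 : κ i = j := (Finset.mem_filter.1 (hTA hi)).2
      rw [h4]
      rfl
    · rw [if_neg hi, Perm.mul_apply, hτ i hi]
  have hR : ∀ d, Van k (e2 j) d → ∀ T : Finset (Fin n),
      T ⊆ (Finset.univ.filter fun i => κ i = j) → T.card = d + 1 → ∀ u v : Perm (Fin n),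
      ∑ τ ∈ PT T, l (extG fun i => px (e1 (κ i) (x (u i)).1) (e2 (κ i) (x ((v * τ) i)).2)) = 0 := by
    intro d hd T hTA hT u v
    have h3 := rel_right hd T hT (fun i => (x (v i)).2)
      (fun i => e1 (κ i) (x (u i)).1) (fun i => e2 (κ i) (x (v i)).2) l hl
    rw [← h3]
    refine Finset.sum_congr rfl fun τ hτ => ?_
    rw [mem_PT] at hτ
    refine congrArg l (congrArg extG (funext fun i => ?_))
    by_cases hi : i ∈ T
    · rw [if_pos hi]
      have h4 : κ i = j := (Finset.mem_filter.1 (hTA hi)).2
      rw [h4]
      rfl
    · rw [if_neg hi, Perm.mul_apply, hτ i hi]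
  have hone : ∀ T : Finset (Fin n), T.card = 0 + 1 → ∀ F : Perm (Fin n) → ℚ,
      ∑ τ ∈ PT T, F τ = F 1 := by
    intro T hT F
    obtain ⟨i, rfl⟩ := Finset.card_eq_one.1 hT
    have h5 : PT ({i} : Finset (Fin n)) = {1} := by
      ext τ
      rw [mem_PT, Finset.mem_singleton]
      constructor
      · intro h
        ext a
        by_cases ha : a = i
        · subst ha
          by_contra hne
          have h6 : τ (τ a) = τ a := h (τ a) (by
            rw [Finset.mem_singleton]
            intro h7
            exact hne (by rw [h7]; rfl))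
          exact hne (by rw [τ.injective h6]; rfl)
        · rw [h a (by rw [Finset.mem_singleton]; exact ha)]; rfl
      · rintro rfl a _
        rfl
    rw [h5, Finset.sum_singleton]
  have hpos : ∃ i, κ i = j := by
    obtain ⟨i, hi⟩ := Finset.card_pos.1 ((Nat.zero_le _).trans_lt hj)
    exact ⟨i, (Finset.mem_filter.1 hi).2⟩
  obtain ⟨i, hi⟩ := hpos
  have hsub : ({i} : Finset (Fin n)) ⊆ (Finset.univ.filter fun i => κ i = j) := by
    intro a ha
    rw [Finset.mem_singleton] at ha
    rw [ha, Finset.mem_filter]
    exact ⟨Finset.mem_univ _, hi⟩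
  rcases hv j with ⟨d1, d2, h1, h2, hm⟩ | h1 | h2
  · rw [hm] at hj
    exact comb_part (Finset.univ.filter fun i => κ i = j) hj
      (fun u v => l (extG fun i => px (e1 (κ i) (x (u i)).1) (e2 (κ i) (x (v i)).2)))
      (fun T hTA hT u v => hL d1 h1 T hTA hT u v) (fun T hTA hT u v => hR d2 h2 T hTA hT u v)
  · refine Finset.sum_eq_zero fun σ _ => ?_
    have h3 := hL 0 h1 {i} hsub (Finset.card_singleton i) σ σ
    rw [hone {i} (Finset.card_singleton i), mul_one] at h3
    rw [h3, mul_zero]
  · refine Finset.sum_eq_zero fun σ _ => ?_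
    have h3 := hR 0 h2 {i} hsub (Finset.card_singleton i) σ σ
    rw [hone {i} (Finset.card_singleton i), mul_one] at h3
    rw [h3, mul_zero]

theorem pair_vanish' {J : Type} (e1 : J → Place k K1 → (Place k K1 →₀ ℤ))
    (e2 : J → Place k K2 → (Place k K2 →₀ ℤ)) (m : J → ℕ)
    (hv : ∀ j, VanPair k (e1 j) (e2 j) (m j)) [Fintype J]
    (hn : ∑ j, m j < n) (l : ((Fin n → Place k K1 × Place k K2) →₀ ℤ) →+ ℚ)
    (hl : ∀ r ∈ RatEq (((curve k K1).prod (curve k K2)).pow (Fin n)), l r = 0) (κ : Fin n → J)
    (b : Fin n → (Place k K1 × Place k K2) →₀ ℤ) :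
    ∑ σ : Perm (Fin n), ((Perm.sign σ : ℤ) : ℚ) *
      l (extG fun i => Finsupp.linearCombination ℤ
        (fun x : Place k K1 × Place k K2 => px (e1 (κ i) x.1) (e2 (κ i) x.2)) (b (σ i))) = 0 := by
  classical
  let R : Fin n → Place k K1 × Place k K2 → ((Place k K1 × Place k K2) →₀ ℤ) :=
    fun i x => px (e1 (κ i) x.1) (e2 (κ i) x.2)
  have h3 : ∑ σ : Perm (Fin n), ((Perm.sign σ : ℤ) : ℚ) *
      l (extG fun i => Finsupp.linearCombination ℤ (R i) (b (σ i))) =
      l (mx R (ALT (ext b))) := by
    rw [← altSum_eq]
    unfold altSum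
    rw [map_sum, map_sum]
    refine Finset.sum_congr rfl fun σ _ => ?_
    rw [map_zsmul, map_zsmul, zsmul_eq_mul, ext_eq_extG, mx_extG]
  change ∑ σ : Perm (Fin n), ((Perm.sign σ : ℤ) : ℚ) *
      l (extG fun i => Finsupp.linearCombination ℤ (R i) (b (σ i))) = 0
  rw [h3]
  generalize ext b = z
  induction z using Finsupp.induction_linear with
  | zero => rw [map_zero, map_zero, map_zero]
  | add u v hu hv => rw [map_add, map_add, map_add, hu, hv, add_zero]
  | single x c =>
    have h4 : Finsupp.single x c = c • Finsupp.single x (1 : ℤ) := by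
      rw [Finsupp.smul_single, smul_eq_mul, mul_one]
    rw [h4, map_zsmul, map_zsmul, map_zsmul, ALT_single, map_sum, map_sum]
    have h5 : ∑ σ : Perm (Fin n), l (mx R
        ((Perm.sign σ : ℤ) • Finsupp.single (fun i => x (σ i)) 1)) =
        ∑ σ : Perm (Fin n), ((Perm.sign σ : ℤ) : ℚ) *
          l (extG fun i => px (e1 (κ i) (x (σ i)).1) (e2 (κ i) (x (σ i)).2)) := by
      refine Finset.sum_congr rfl fun σ _ => ?_
      rw [map_zsmul, map_zsmul, zsmul_eq_mul, mx_single, one_smul]
    rw [h5, pair_vanish e1 e2 m hv hn l hl κ x, smul_zero]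

end rel

end Pool.Agent.J4.H82.PV
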