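import Pool.Agent.J4.H82.PV.I

/-!
# Double covers of curves of genus one by curves of genus one
-/

set_option autoImplicit false

open FF IntermediateField Pool.Agent.W603.LV Pool.Agent.W603.PV Pool.Agent.J4.H17.ZC
  Pool.Agent.N162.CV Pool.Agent.N75.CV

namespace Pool.Agent.J4.H82.PV

section rat

variable {k : Type} [Field k] [CharZero k] [IsAlgClosed k] {F : Type} [Field F] [Algebra k F]
  [IsFF k F]

theorem not_rational (hg : HasGenus k F 1) (t : F) (ht : Transcendental k t)
    (h1 : Module.finrank k⟮t⟯ F = 1) : False := by
  obtain ⟨pt, oo, hp⟩ := exists_ratPl t ht h1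
  obtain ⟨N, hN⟩ := hg.ell_eq
  have ht0 : t ≠ 0 := by
    rintro h
    rw [h] at ht
    exact ht isAlgebraic_zero
  set n : ℕ := N.toNat with hn
  have h2 : ddeg (Finsupp.single oo (n : ℤ)) = n := by rw [ddeg_eq_dg, dg_single]
  have h3 := hN (Finsupp.single oo (n : ℤ)) (by rw [h2]; omega)
  rw [h2] at h3
  have hge : ∀ (v : Place k F), v ≠ oo → Ge v 0 t := by
    intro v hv
    right
    by_contra hcon
    exact hv (hp.neg v (by omega))
  have hmem : ∀ p : Polynomial k, p ∈ Polynomial.degreeLT k (n + 1) →
      Polynomial.aeval t p ∈ LL (Finsupp.single oo (n : ℤ)) := by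
    intro p hp'
    rw [Polynomial.mem_degreeLT] at hp'
    rw [Polynomial.aeval_eq_sum_range]
    refine Submodule.sum_mem _ fun i hi => Submodule.smul_mem _ _ ?_
    have hi' : i ≤ n := by
      rw [Finset.mem_range] at hi
      by_cases hp0 : p = 0
      · subst hp0
        rw [Polynomial.natDegree_zero] at hi
        omega
      · have := (Polynomial.natDegree_lt_iff_degree_lt hp0).2 hp'
        omega
    right
    intro v
    by_cases hv : v = oo
    · rw [hv, Finsupp.single_eq_same, Place.ord_pow, hp.neg']
      omega
    · rw [Finsupp.single_eq_of_ne hv, Place.ord_pow]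
      have := (hge v hv).resolve_left ht0
      have h4 : 0 ≤ (i : ℤ) * v.ord t := by positivity
      omega
  let l : Polynomial.degreeLT k (n + 1) →ₗ[k] LL (Finsupp.single oo (n : ℤ)) :=
    LinearMap.restrict (Polynomial.aeval t).toLinearMap hmem
  have hl : Function.Injective l := by
    intro p q h
    apply Subtype.ext
    have h4 : Polynomial.aeval t p.1 = Polynomial.aeval t q.1 := congrArg Subtype.val h
    exact (transcendental_iff_injective.1 ht) h4
  have h4 := LinearMap.finrank_le_finrank_of_injective hl
  rw [(Polynomial.degreeLTEquiv k (n + 1)).finrank_eq, Module.finrank_fin_fun] at h4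
  unfold ell at h3
  omega

end rat

section ell

variable {k : Type} [Field k] [CharZero k] [IsAlgClosed k] {F K : Type} [Field F]
  [Field K] [Algebra k F] [Algebra k K] [Algebra F K] [IsScalarTower k F K] [IsFF k F] [IsFF k K]

omit [IsAlgClosed k] [IsFF k K] in
theorem van_zero {e : Place k K → (Place k K →₀ ℤ)}
    (h : ∀ P, ∃ N : ℕ, 0 < N ∧ N • e P ∈ RatEq (curve k K)) : Van k e 0 := by
  classical
  intro T _ _ hT s l hl
  obtain ⟨u⟩ := Fintype.card_eq_one_iff_nonempty_unique.1 hT
  have h1 : ∀ a : T → Place k K →₀ ℤ, extG a =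
      Finsupp.mapDomain (fun (x : Place k K) (_ : T) => x) (a default) := by
    intro a
    ext y
    have hinj : Function.Injective (fun (x : Place k K) (_ : T) => x) := fun x y h =>
      congrFun h default
    have hy : y = fun _ => y default := by
      funext i
      rw [Unique.eq_default i]
    have h2 := Finsupp.mapDomain_apply hinj (a default) (y default)
    rw [extG_apply, Fintype.prod_unique]
    conv_rhs => rw [hy]
    exact h2.symm
  unfold Th
  rw [Fintype.sum_unique, h1]
  obtain ⟨N, hN, h2⟩ := h (s ((default : Equiv.Perm T) default))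
  have h3 := hl _ (Reg.push (X := curve k K) (Y := (curve k K).pow T)
    (F := fun (x : Place k K) (_ : T) => x) (fun L _ _ x hx _ => hx) h2)
  have h4 : Finsupp.mapDomain (fun (x : Place k K) (_ : T) => x)
      (N • e (s ((default : Equiv.Perm T) default))) =
      N • Finsupp.mapDomain (fun (x : Place k K) (_ : T) => x)
        (e (s ((default : Equiv.Perm T) default))) :=
    map_nsmul (Finsupp.mapDomain.addMonoidHom fun (x : Place k K) (_ : T) => x) _ _
  rw [h4, map_nsmul] at h3
  rcases smul_eq_zero.1 h3 with h5 | h5
  · omega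
  · exact h5

theorem elliptic {τ : K ≃ₐ[F] K} (q : Quad F K τ) {τ' : K ≃ₐ[k] K} (hτ' : ∀ x, τ' x = τ x)
    (hg : HasGenus k K 1) (hg' : HasGenus k F 1) (P : Place k K) :
    ∃ N : ℕ, 0 < N ∧ N • od (act τ') P ∈ RatEq (curve k K) := by
  classical
  obtain ⟨w, δ, R⟩ := q.exists_root (k := k)
  obtain ⟨hfd, h2⟩ := R.finrank_eq (k := k)
  have hact : ∀ P : Place k K, act τ' P = actF τ P := by
    intro P
    ext x
    rw [act_ord, actF_ord]
    congr 1
    rw [AlgEquiv.symm_apply_eq, hτ', AlgEquiv.apply_symm_apply]
  by_cases hfix : act τ' P = P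
  · exact ⟨1, one_pos, by rw [od_fixed hfix, smul_zero]; exact AddSubgroup.zero_mem _⟩
  set Q := act τ' P with hQ
  have hell := ell_lower hg (Finsupp.single P 2)
  rw [ddeg_eq_dg, dg_single] at hell
  obtain ⟨h, hhE, hh, -⟩ := exists_paired (J := Fin 0) (Finsupp.single P (2 : ℤ))
    Fin.elim0 Fin.elim0 (fun j => j.elim0) (fun j => j.elim0) (by
      rw [Fintype.card_fin]; push_cast; omega)
  have hh0 : h ≠ 0 := by
    rintro rfl
    exact hh isAlgebraic_zero
  have hhP := hhE.resolve_left hh0
  have hreg : ∀ v : Place k K, v ≠ P → Ge v 0 h := by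
    intro v hv
    right
    have := hhP v
    rw [Finsupp.single_eq_of_ne hv] at this
    omega
  obtain ⟨c, hc⟩ := Pool.Agent.W603.LV.exists_const Q (hreg Q hfix)
  set f := h - algebraMap k K c with hf
  have hf0 : f ≠ 0 := fun hc => by
    have := transc_sub_const hh c
    rw [← hf, hc] at this
    exact this isAlgebraic_zero
  have hfQ : 1 ≤ Q.ord f := hc.resolve_left hf0
  have hfv : ∀ v : Place k K, v ≠ P → 0 ≤ v.ord f := fun v hv =>
    ((hreg v hv).sub (Ge.const c)).resolve_left hf0
  have hfP : -2 ≤ P.ord f := by
    have h3 : Ge P (-2) f := Ge.sub (by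
      have := hhP P
      rw [Finsupp.single_eq_same] at this
      exact Or.inr this) ((Ge.const c).mono (by norm_num))
    exact h3.resolve_left hf0
  -- the norm
  have hnorm : ∀ v : Place k F, v.ord (Algebra.norm F f) =
      ∑ w ∈ (exists_over (K := K) v).choose, w.ord f := by
    intro v
    obtain ⟨T, hT, hTn⟩ := nf_ k F K v
    have h4 : T = (exists_over (K := K) v).choose := by
      ext w
      rw [(exists_over (K := K) v).choose_spec.1, hT]
      constructor
      · intro hw
        symm
        refine Place.eq_of_le _ _ fun f hf0 hf => ?_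
        have h2 := (hw f (Or.inr hf)).resolve_left (by simpa using hf0)
        rw [ord_under] at h2
        have h3 : (0 : ℤ) < ram F w := by exact_mod_cast (ram_spec (F := F) w).1
        by_contra hcon
        push Not at hcon
        nlinarith
      · intro hw h hh
        rcases hh with hh | hh
        · exact Or.inl (by rw [hh, map_zero])
        · right
          rw [ord_under, hw]
          positivity
    rw [← h4]
    exact hTn f hf0
  have hNf0 : Algebra.norm F f ≠ 0 := Algebra.norm_ne_zero_iff.2 hf0
  have hv1 : ∀ v : Place k F, v ≠ under F P → ∀ w ∈ (exists_over (K := K) v).choose, w ≠ P := by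
    intro v hv w hw hwP
    rw [(exists_over (K := K) v).choose_spec.1, hwP] at hw
    exact hv hw.symm
  have hset : (exists_over (K := K) (under F P)).choose = {P, Q} := by
    ext w
    rw [(exists_over (K := K) (under F P)).choose_spec.1, Finset.mem_insert,
      Finset.mem_singleton]
    constructor
    · intro hw
      rcases R.over_eq hw with h | h
      · exact Or.inl h
      · exact Or.inr (by rw [hQ, hact]; exact h)
    · rintro (rfl | rfl)
      · rfl
      · rw [hQ, hact, under_act]
  have hPQ : (under F P).ord (Algebra.norm F f) = P.ord f + Q.ord f := by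
    rw [hnorm, hset, Finset.sum_pair (Ne.symm hfix)]
  have hge : ∀ v : Place k F, v ≠ under F P → 0 ≤ v.ord (Algebra.norm F f) := by
    intro v hv
    rw [hnorm]
    exact Finset.sum_nonneg fun w hw => hfv w (hv1 v hv w hw)
  -- the norm is constant
  have hdiv : divisor k (Algebra.norm F f) = 0 := by
    by_cases halg : IsAlgebraic k (Algebra.norm F f)
    · ext v
      rw [divisor_apply, v.ord_eq_zero_of_isAlgebraic hNf0 halg]
      rfl
    · exfalso
      have htr : Transcendental k (Algebra.norm F f) := halg
      have h3 : polar (k := k) (Algebra.norm F f) ≤ Finsupp.single (under F P) 1 := by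
        intro v
        rw [polar_apply]
        by_cases hv : v = under F P
        · rw [hv, Finsupp.single_eq_same, hPQ]
          exact max_le (by omega) (by norm_num)
        · rw [Finsupp.single_eq_of_ne hv]
          exact max_le (by have := hge v hv; omega) le_rfl
      have h4 := ddeg_mono h3
      rw [ddeg_polar htr, ddeg_eq_dg, dg_single] at h4
      have h5 : FiniteDimensional k⟮Algebra.norm F f⟯ F := IsFF.finite htr
      have h6 : 0 < Module.finrank k⟮Algebra.norm F f⟯ F := Module.finrank_pos
      exact not_rational hg' _ htr (by omega)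
  have hord : ∀ v : Place k F, v.ord (Algebra.norm F f) = 0 := fun v => DFunLike.congr_fun hdiv v
  have h3 : divisor k f = Q.ord f • (Finsupp.single Q 1 - Finsupp.single P 1) := by
    ext v
    rw [divisor_apply, Finsupp.smul_apply, Finsupp.sub_apply, Finsupp.single_apply,
      Finsupp.single_apply, smul_eq_mul]
    by_cases hvP : P = v
    · subst hvP
      rw [if_neg hfix, if_pos rfl]
      have := hord (under F P)
      rw [hPQ] at this
      omega
    · rw [if_neg hvP]
      by_cases hvQ : Q = v
      · rw [if_pos hvQ, ← hvQ]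
        ring
      · rw [if_neg hvQ]
        by_cases hu : under F v = under F P
        · exfalso
          rcases R.over_eq hu with h | h
          · exact hvP h.symm
          · exact hvQ (by rw [hQ, hact]; exact h.symm)
        · have h4 := hord (under F v)
          rw [hnorm, Finset.sum_eq_zero_iff_of_nonneg fun w hw => hfv w (hv1 _ hu w hw)] at h4
          rw [h4 v ((exists_over (K := K) (under F v)).choose_spec.1 v |>.2 rfl)]
          ring
  refine ⟨(Q.ord f).toNat, by omega, ?_⟩
  have h4 : (Q.ord f).toNat • od (act τ') P = -divisor k f := by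
    rw [h3, ← natCast_zsmul, Int.toNat_of_nonneg (by omega), ← smul_neg, neg_sub]
    rfl
  rw [h4]
  refine AddSubgroup.neg_mem _ ?_
  have hid : (curve k K).IsMor K (fun P => P) :=
    Or.inr ⟨AlgHom.id k K, fun P => ⟨1, one_pos, fun g => by simp⟩⟩
  have h5 := mem_ratEq (X := curve k K) (L := K) hid hf0
  have h6 : Finsupp.mapDomain (fun P : Place k K => P) (divisor k f) = divisor k f :=
    Finsupp.mapDomain_id
  rw [h6] at h5
  exact h5

end ell

end Pool.Agent.J4.H82.PV
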