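import Pool.Agent.J4.H82.PV.J

/-!
# Quadratic characters of groups of automorphisms
-/

set_option autoImplicit false

open FF IntermediateField Pool.Agent.W603.LV Pool.Agent.W603.PV Pool.Agent.J4.H17.ZC
  Pool.Agent.N162.CV Pool.Agent.N75.CV

namespace Pool.Agent.J4.H82.PV

section defs

variable {k : Type} [Field k] {K : Type} [Field K] [Algebra k K] {H : Type} [Group H] [Fintype H]
  (β : H →* (K ≃ₐ[k] K)) (χ : H →* ℤˣ)

/-- the sum of the images of a point, weighted by a character -/
noncomputable def ex (P : Place k K) : Place k K →₀ ℤ :=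
  ∑ h : H, ((χ h : ℤˣ) : ℤ) • Finsupp.single (act (β h) P) 1

theorem ex_one (P : Place k K) : ex β 1 P = NN β P := by
  unfold ex NN
  refine Finset.sum_congr rfl fun h _ => ?_
  rw [MonoidHom.one_apply, Units.val_one, one_smul]

theorem ex_eq [Fintype χ.ker] {h0 : H} (h : χ h0 = -1) (P : Place k K) :
    ex β χ P = NN (β.comp χ.ker.subtype) P - NN (β.comp χ.ker.subtype) (act (β h0) P) := by
  classical
  unfold ex NN
  rw [← Finset.sum_filter_add_sum_filter_not Finset.univ (fun h => χ h = 1)]
  have h1 : ∑ h ∈ Finset.univ.filter (fun h => χ h = 1),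
      ((χ h : ℤˣ) : ℤ) • Finsupp.single (act (β h) P) (1 : ℤ) =
      ∑ h : χ.ker, Finsupp.single (act ((β.comp χ.ker.subtype) h) P) (1 : ℤ) := by
    symm
    refine Finset.sum_bij (fun (h : χ.ker) _ => (h : H)) ?_ ?_ ?_ ?_
    · intro h _
      rw [Finset.mem_filter]
      exact ⟨Finset.mem_univ _, h.2⟩
    · intro a _ b _ hab
      exact Subtype.ext hab
    · intro b hb
      rw [Finset.mem_filter] at hb
      exact ⟨⟨b, hb.2⟩, Finset.mem_univ _, rfl⟩
    · intro a _
      have : χ (a : H) = 1 := a.2
      rw [this, Units.val_one, one_smul]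
      rfl
  have h2 : ∑ h ∈ Finset.univ.filter (fun h => ¬ χ h = 1),
      ((χ h : ℤˣ) : ℤ) • Finsupp.single (act (β h) P) (1 : ℤ) =
      -∑ h : χ.ker, Finsupp.single (act ((β.comp χ.ker.subtype) h) (act (β h0) P)) (1 : ℤ) := by
    rw [← Finset.sum_neg_distrib]
    symm
    refine Finset.sum_bij (fun (h : χ.ker) _ => (h : H) * h0) ?_ ?_ ?_ ?_
    · intro a _
      rw [Finset.mem_filter]
      refine ⟨Finset.mem_univ _, ?_⟩
      have : χ (a : H) = 1 := a.2
      rw [map_mul, this, one_mul, h]
      decide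
    · intro a _ b _ hab
      exact Subtype.ext (mul_right_cancel hab)
    · intro b hb
      rw [Finset.mem_filter] at hb
      have h3 : χ b = -1 := (Int.units_eq_one_or (χ b)).resolve_left hb.2
      refine ⟨⟨b * h0⁻¹, ?_⟩, Finset.mem_univ _, ?_⟩
      · rw [MonoidHom.mem_ker, map_mul, map_inv, h, h3]
        decide
      · change b * h0⁻¹ * h0 = b
        rw [inv_mul_cancel_right]
    · intro a _
      have : χ (a : H) = 1 := a.2
      rw [map_mul χ, this, one_mul, h, map_mul β, act_mul]
      simp
  rw [h1, h2]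
  abel

end defs

section setup

variable {k : Type} [Field k] [CharZero k] [IsAlgClosed k] {K : Type} [Field K] [Algebra k K]
  [IsFF k K] {H : Type} [Group H] [Fintype H] (β : H →* (K ≃ₐ[k] K)) (χ : H →* ℤˣ)

theorem under_eq {F : Type} [Field F] [Algebra k F] [Algebra F K] [IsScalarTower k F K] [IsFF k F]
    {P : Place k K} {Q : Place k F} {e : ℕ} (he : 0 < e)
    (h : ∀ f : F, P.ord (algebraMap F K f) = e * Q.ord f) : under F P = Q := by
  refine Place.eq_of_le _ _ fun f hf0 hf => ?_
  have h1 := h f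
  rw [ord_under] at h1
  have h2 : (0 : ℤ) < e := by exact_mod_cast he
  have h3 : (0 : ℤ) < ram F P := by exact_mod_cast (ram_spec (F := F) P).1
  by_contra hcon
  push Not at hcon
  nlinarith

omit [CharZero k] [IsAlgClosed k] [IsFF k K] [Fintype H] in
theorem mem_ff {Γ : Subgroup (K ≃ₐ[k] K)} {x : K} :
    x ∈ fixedField Γ ↔ ∀ g ∈ Γ, g x = x := by
  constructor
  · intro h g hg
    exact h ⟨g, hg⟩
  · intro h g
    exact h g g.2

omit [Fintype H] in
theorem setup [IsFF k (fixedField (β.comp χ.ker.subtype).range)]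
    {h0 : H} (h : χ h0 = -1) :
    (∀ x : fixedField (β.comp χ.ker.subtype).range, β h0 x = x) ∨
    ∃ (_ : Algebra (fixedField β.range) (fixedField (β.comp χ.ker.subtype).range))
      (_ : IsScalarTower k (fixedField β.range) (fixedField (β.comp χ.ker.subtype).range))
      (τ : fixedField (β.comp χ.ker.subtype).range ≃ₐ[fixedField β.range]
        fixedField (β.comp χ.ker.subtype).range)
      (τ' : fixedField (β.comp χ.ker.subtype).range ≃ₐ[k]
        fixedField (β.comp χ.ker.subtype).range),
      Quad _ _ τ ∧ (∀ x, τ' x = τ x) ∧ ∀ P : Place k K,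
        under (fixedField (β.comp χ.ker.subtype).range) (act (β h0) P) =
          act τ' (under (fixedField (β.comp χ.ker.subtype).range) P) := by
  classical
  set K' := fixedField (β.comp χ.ker.subtype).range with hK'
  set F := fixedField β.range with hF
  have hmemK : ∀ x : K, x ∈ K' ↔ ∀ n : H, χ n = 1 → β n x = x := by
    intro x
    rw [hK', mem_ff]
    constructor
    · intro h n hn
      exact h _ ⟨⟨n, hn⟩, rfl⟩
    · rintro h g ⟨n, rfl⟩
      exact h n n.2
  have hmemF : ∀ x : K, x ∈ F ↔ ∀ n : H, β n x = x := by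
    intro x
    rw [hF, mem_ff]
    constructor
    · intro h n
      exact h _ ⟨n, rfl⟩
    · rintro h g ⟨n, rfl⟩
      exact h n
  by_cases hdeg : ∀ x : K', β h0 x = x
  · exact Or.inl hdeg
  right
  have hle : F ≤ K' := fun x hx => (hmemK x).2 fun n _ => (hmemF x).1 hx n
  -- stability
  have hstab : ∀ a : H, ∀ x ∈ K', β a x ∈ K' := by
    intro a x hx
    rw [hmemK]
    intro n hn
    have h1 : n * a = a * (a⁻¹ * n * a) := by group
    have h2 : χ (a⁻¹ * n * a) = 1 := by
      rw [map_mul, map_mul, hn, mul_one, map_inv, inv_mul_cancel]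
    have h3 : β n (β a x) = β (n * a) x := by rw [map_mul]; rfl
    rw [h3, h1, map_mul]
    change β a (β (a⁻¹ * n * a) x) = β a x
    rw [(hmemK x).1 hx _ h2]
  let res : H → (K' →ₐ[k] K') := fun a =>
    ((β a).toAlgHom.comp K'.val).codRestrict K'.toSubalgebra fun x => hstab a x x.2
  have hres : ∀ a (x : K'), ((res a x : K') : K) = β a x := fun a x => rfl
  have hinv1 : ∀ a (x : K'), res a⁻¹ (res a x) = x := by
    intro a x
    apply Subtype.ext
    rw [hres, hres]
    have : β a⁻¹ (β a x) = β (a⁻¹ * a) x := by rw [map_mul]; rfl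
    rw [this, inv_mul_cancel, map_one]
    rfl
  let τ' : K' ≃ₐ[k] K' := AlgEquiv.ofAlgHom (res h0) (res h0⁻¹)
    (by
      ext x
      have := hinv1 h0⁻¹ x
      rw [inv_inv] at this
      exact congrArg Subtype.val this)
    (by
      ext x
      exact congrArg Subtype.val (hinv1 h0 x))
  have hτ' : ∀ x : K', ((τ' x : K') : K) = β h0 x := fun x => rfl
  let iA : Algebra F K' := (IntermediateField.inclusion hle).toRingHom.toAlgebra
  have hiA : ∀ x : F, ((algebraMap F K' x : K') : K) = x := fun x => rfl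
  have iT : IsScalarTower k F K' := IsScalarTower.of_algebraMap_eq fun c => rfl
  let τ : K' ≃ₐ[F] K' := AlgEquiv.ofRingEquiv (f := τ'.toRingEquiv) (fun x => by
    apply Subtype.ext
    change β h0 ((algebraMap F K' x : K') : K) = _
    rw [hiA]
    exact (hmemF x).1 x.2 h0)
  have hττ : ∀ x, τ' x = τ x := fun x => rfl
  have hmulmem : ∀ x : K', ∀ a b : H, β a (β b x) = β (a * b) x := fun x a b => by
    rw [map_mul]; rfl
  refine ⟨iA, iT, τ, τ', ⟨?_, ?_, ?_⟩, hττ, ?_⟩
  · intro x
    apply Subtype.ext
    change β h0 (β h0 x) = x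
    rw [hmulmem]
    refine (hmemK x).1 x.2 _ ?_
    rw [map_mul, h]
    decide
  · intro x hx
    have hx' : β h0 x = x := congrArg Subtype.val hx
    refine ⟨⟨x, ?_⟩, Subtype.ext rfl⟩
    rw [hmemF]
    intro n
    rcases Int.units_eq_one_or (χ n) with hn | hn
    · exact (hmemK x).1 x.2 n hn
    · have h1 : χ (n * h0) = 1 := by rw [map_mul, hn, h]; decide
      have h2 := (hmemK x).1 x.2 _ h1
      rw [← hmulmem, hx'] at h2
      exact h2
  · push Not at hdeg
    obtain ⟨x, hx⟩ := hdeg
    exact ⟨x, fun hx' => hx (congrArg Subtype.val hx')⟩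
  · intro P
    refine under_eq (e := ram K' P) (ram_spec (F := K') P).1 fun f => ?_
    rw [act_ord, act_ord, ← ord_under]
    congr 1
    rw [AlgEquiv.symm_apply_eq]
    have h1 : β h0 ((τ'.symm f : K') : K) = ((τ' (τ'.symm f) : K') : K) := (hτ' _).symm
    rw [AlgEquiv.apply_symm_apply] at h1
    exact h1.symm

/-- Reduction to the quotient by the kernel of the character. -/
theorem Th_char [Fintype χ.ker] [IsFF k (fixedField (β.comp χ.ker.subtype).range)]
    {h0 : H} (h : χ h0 = -1)
    {τ' : fixedField (β.comp χ.ker.subtype).range ≃ₐ[k] fixedField (β.comp χ.ker.subtype).range}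
    (hτ : ∀ P : Place k K, under (fixedField (β.comp χ.ker.subtype).range) (act (β h0) P) =
          act τ' (under (fixedField (β.comp χ.ker.subtype).range) P))
    {T : Type} [Fintype T] [DecidableEq T] (s : T → Place k K)
    (l : ((T → Place k K) →₀ ℤ) →+ ℚ) :
    Th (ex β χ) l s = Th (od (act τ'))
      (l.comp (mx fun _ w => NN (β.comp χ.ker.subtype) (lf (β.comp χ.ker.subtype) w)))
      (fun i => under (fixedField (β.comp χ.ker.subtype).range) (s i)) := by
  unfold Th
  refine Finset.sum_congr rfl fun σ _ => ?_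
  change _ = l (mx (fun _ w => NN (β.comp χ.ker.subtype) (lf (β.comp χ.ker.subtype) w)) (extG _))
  rw [mx_extG]
  refine congrArg l (congrArg extG (funext fun i => ?_))
  unfold od
  rw [map_sub, Finsupp.linearCombination_single, Finsupp.linearCombination_single, one_smul,
    one_smul, ← hτ, NN_lf, NN_lf, ex_eq β χ h]

theorem ex_degenerate [Fintype χ.ker] {h0 : H} (h : χ h0 = -1)
    (hdeg : ∀ x : fixedField (β.comp χ.ker.subtype).range, β h0 x = x) (P : Place k K) :
    ex β χ P = 0 := by
  have i1 : IsFF k (fixedField (β.comp χ.ker.subtype).range) := isFF_fixed _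
  rw [ex_eq β χ h, sub_eq_zero]
  apply NN_eq
  symm
  refine under_eq (e := ram (fixedField (β.comp χ.ker.subtype).range) P)
    (ram_spec (F := fixedField (β.comp χ.ker.subtype).range) P).1 fun f => ?_
  rw [act_ord, ← ord_under]
  congr 1
  rw [AlgEquiv.symm_apply_eq]
  exact (hdeg f).symm

/-- The vanishing theorem for a quadratic character such that an element with value `-1` has a
fixed point. -/
theorem van_char [Fintype χ.ker] {g' d : ℕ} (hF : HasGenus k (fixedField β.range) g')
    (hK : HasGenus k (fixedField (β.comp χ.ker.subtype).range) (g' + d)) {h0 : H}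
    (h : χ h0 = -1) {P0 : Place k K} (hP0 : act (β h0) P0 = P0) : Van k (ex β χ) d := by
  intro T _ _ hT s l hl
  have i1 : IsFF k (fixedField (β.comp χ.ker.subtype).range) := isFF_fixed _
  have i2 : IsFF k (fixedField β.range) := isFF_fixed _
  rcases setup β χ h with hdeg | ⟨iA, iT, τ, τ', hq, hτ', hτ⟩
  · have hne : Nonempty T := Fintype.card_pos_iff.1 (by omega)
    obtain ⟨i⟩ := hne
    exact Th_zero l (i := i) (ex_degenerate β χ h hdeg _)
  · rw [Th_char β χ h hτ]
    exact vanish_odd hq hτ' hK hF ⟨under _ P0, by rw [← hτ, hP0]⟩ (by rw [hT]; omega) _ _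
      (fun r hr => pull (β.comp χ.ker.subtype) l hl hr)

/-- The vanishing theorem for étale double covers of elliptic curves. -/
theorem van_char_elliptic [Fintype χ.ker] (hF : HasGenus k (fixedField β.range) 1)
    (hK : HasGenus k (fixedField (β.comp χ.ker.subtype).range) 1) (h : χ ≠ 1) :
    Van k (ex β χ) 0 := by
  obtain ⟨h0, hh0⟩ : ∃ h0, χ h0 = -1 := by
    by_contra hcon
    push Not at hcon
    apply h
    ext x
    rw [(Int.units_eq_one_or (χ x)).resolve_right (hcon x)]
    rfl
  intro T _ _ hT s l hl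
  have i1 : IsFF k (fixedField (β.comp χ.ker.subtype).range) := isFF_fixed _
  have i2 : IsFF k (fixedField β.range) := isFF_fixed _
  rcases setup β χ hh0 with hdeg | ⟨iA, iT, τ, τ', hq, hτ', hτ⟩
  · have hne : Nonempty T := Fintype.card_pos_iff.1 (by omega)
    obtain ⟨i⟩ := hne
    exact Th_zero l (i := i) (ex_degenerate β χ hh0 hdeg _)
  · rw [Th_char β χ hh0 hτ]
    exact van_zero (elliptic hq hτ' hK hF) T hT _ _
      (fun r hr => pull (β.comp χ.ker.subtype) l hl hr)

/-- The trivial character. -/
theorem van_one {g : ℕ} (hF : HasGenus k (fixedField β.range) g) (o : Place k K) :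
    Van k (fun P => ex β 1 P - ex β 1 o) g := by
  intro T _ _ hT s l hl
  have := vanish_pull β hF hT s o l hl
  unfold Th
  simp only [ex_one]
  exact this

end setup

end Pool.Agent.J4.H82.PV
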