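import Pool.Agent.J4.H82.PV.K

/-!
# Zero-cycles on quotients of products of two curves: reduction with quadratic characters
-/

set_option autoImplicit false

open FF IntermediateField Equiv Pool.Agent.J4.H17.ZC

namespace Pool.Agent.J4.H82.PV

section zero

open Pool.Agent.W603.LV Pool.Agent.W603.PV

variable {k : Type} [Field k] [CharZero k] [IsAlgClosed k] {K : Type} [Field K] [Algebra k K]
  [IsFF k K] {H : Type} [Group H] [Fintype H] (β : H →* (K ≃ₐ[k] K)) (χ : H →* ℤˣ)

/-- The vanishing theorem for a quadratic character without contribution to the genus. -/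
theorem van_char_zero [Fintype χ.ker] {g : ℕ} (hF : HasGenus k (fixedField β.range) g)
    (hK : HasGenus k (fixedField (β.comp χ.ker.subtype).range) g) (h : χ ≠ 1) :
    Van k (ex β χ) 0 := by
  obtain ⟨h0, hh0⟩ : ∃ h0, χ h0 = -1 := by
    by_contra hcon
    push Not at hcon
    apply h
    ext x
    rw [(Int.units_eq_one_or (χ x)).resolve_right (hcon x)]
    rfl
  by_cases hfix : ∃ P, act (β h0) P = P
  · obtain ⟨P, hP⟩ := hfix
    exact van_char β χ hF (d := 0) hK hh0 hP
  intro T _ _ hT s l hl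
  have i1 : IsFF k (fixedField (β.comp χ.ker.subtype).range) := isFF_fixed _
  have i2 : IsFF k (fixedField β.range) := isFF_fixed _
  rcases setup β χ hh0 with hdeg | ⟨iA, iT, τ, τ', hq, hτ', hτ⟩
  · have hne : Nonempty T := Fintype.card_pos_iff.1 (by omega)
    obtain ⟨i⟩ := hne
    exact Th_zero l (i := i) (ex_degenerate β χ hh0 hdeg _)
  · rw [Th_char β χ hh0 hτ]
    obtain ⟨w, δ, R⟩ := hq.exists_root (k := k)
    have h1 := R.card_Br_le hK hF
    have hl' : ∀ r ∈ RatEq ((curve k (fixedField (β.comp χ.ker.subtype).range)).pow T),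
        (l.comp (mx fun _ w => NN (β.comp χ.ker.subtype) (lf (β.comp χ.ker.subtype) w))) r = 0 :=
      fun r hr => pull (β.comp χ.ker.subtype) l hl hr
    have h2 : g ≤ 1 := by
      have := Int.natCast_nonneg (Br k δ).card
      omega
    rcases Nat.le_one_iff_eq_zero_or_eq_one.1 h2 with rfl | rfl
    · -- rational curves
      refine van_zero (fun P => ?_) T hT _ _ hl'
      refine torsion_of_hom _ _ fun m hm => ?_
      let m2 : ((Unit → Place k (fixedField (β.comp χ.ker.subtype).range)) →₀ ℤ) →+ ℚ :=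
        m.comp (Finsupp.mapDomain.addMonoidHom fun x => x ())
      have h3 := vanish hK (T := Unit) (by simp) (fun _ => P) (act τ' P) m2 (by
        intro r hr
        refine hm _ (Reg.push (X := (curve k (fixedField (β.comp χ.ker.subtype).range)).pow Unit)
          (Y := curve k (fixedField (β.comp χ.ker.subtype).range)) (F := fun x => x ()) ?_ hr)
        intro L _ _ x hx
        exact hx ())
      have h4 : ∀ a : Unit → Place k (fixedField (β.comp χ.ker.subtype).range) →₀ ℤ,
          Finsupp.mapDomain (fun x : Unit → Place k (fixedField (β.comp χ.ker.subtype).range) =>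
            x ()) (extG a) = a () := by
        intro a
        let e : (Unit → Place k (fixedField (β.comp χ.ker.subtype).range)) ≃
          Place k (fixedField (β.comp χ.ker.subtype).range) := Equiv.funUnique Unit _
        have h3 : Finsupp.mapDomain (fun x : Unit →
            Place k (fixedField (β.comp χ.ker.subtype).range) => x ()) (extG a) =
            Finsupp.mapDomain e (extG a) := rfl
        rw [h3]
        ext x
        have h4 := Finsupp.mapDomain_apply e.injective (extG a) (e.symm x)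
        rw [Equiv.apply_symm_apply] at h4
        rw [h4, extG_apply]
        simp [e]
      rw [Fintype.sum_unique] at h3
      change m (Finsupp.mapDomain (fun x : Unit →
        Place k (fixedField (β.comp χ.ker.subtype).range) => x ()) (extG _)) = 0 at h3
      rw [h4] at h3
      exact h3
    · exact van_zero (elliptic hq hτ' hK hF) T hT _ _ hl'

end zero

section group

variable {G : Type} [Group G] [Fintype G] {M : Type} [AddCommGroup M]

open Classical in
/-- a character of a subgroup, extended by zero -/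
noncomputable def cf {G : Type} [Group G] {H : Subgroup G} (χ : H →* ℤˣ) (x : G) : ℤ :=
  if hx : x ∈ H then ((χ ⟨x, hx⟩ : ℤˣ) : ℤ) else 0

theorem sum_conj_char (H : Subgroup G) [Fintype H] (χ : H →* ℤˣ) (F : G → M) :
    ∑ g : G, ∑ h : H, ∑ h' : H, (((χ h : ℤˣ) : ℤ) * ((χ h' : ℤˣ) : ℤ)) •
        F (g⁻¹ * (h : G)⁻¹ * h' * g) =
      (Fintype.card H : ℤ) • ∑ x : G, (∑ g : G, cf χ (g * x * g⁻¹)) • F x := by
  classical
  have h1 : ∀ (g : G) (h : H), ∑ h' : H, (((χ h : ℤˣ) : ℤ) * ((χ h' : ℤˣ) : ℤ)) •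
        F (g⁻¹ * (h : G)⁻¹ * h' * g) =
      ∑ h' : H, ((χ h' : ℤˣ) : ℤ) • F (g⁻¹ * h' * g) := by
    intro g h
    refine Fintype.sum_equiv (Equiv.mulLeft h⁻¹) _ _ fun h' => ?_
    rw [Equiv.coe_mulLeft, map_mul, map_inv]
    have h3 : (χ h)⁻¹ = χ h := by
      rcases Int.units_eq_one_or (χ h) with h4 | h4 <;> rw [h4] <;> rfl
    rw [h3]
    push_cast
    simp only [mul_assoc]
  have h2 : ∀ g : G, ∑ h : H, ((χ h : ℤˣ) : ℤ) • F (g⁻¹ * h * g) =
      ∑ x : G, cf χ (g * x * g⁻¹) • F x := by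
    intro g
    have h3 : ∀ x : G, cf χ (g * x * g⁻¹) • F x =
        if hx : g * x * g⁻¹ ∈ H then ((χ ⟨_, hx⟩ : ℤˣ) : ℤ) • F x else 0 := by
      intro x
      unfold cf
      split_ifs with hx
      · rfl
      · rw [zero_smul]
    rw [Finset.sum_congr rfl fun x _ => h3 x,
      ← Finset.sum_subset (Finset.subset_univ (Finset.univ.filter fun x : G => g * x * g⁻¹ ∈ H))]
    · refine Finset.sum_bij (fun h _ => g⁻¹ * (h : G) * g) ?_ ?_ ?_ ?_
      · intro h _
        rw [Finset.mem_filter]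
        refine ⟨Finset.mem_univ _, ?_⟩
        have : g * (g⁻¹ * (h : G) * g) * g⁻¹ = h := by group
        rw [this]
        exact h.2
      · intro h _ h' _ he
        apply Subtype.ext
        simpa using he
      · intro x hx
        rw [Finset.mem_filter] at hx
        exact ⟨⟨g * x * g⁻¹, hx.2⟩, Finset.mem_univ _, by group⟩
      · intro h _
        have h4 : g * (g⁻¹ * (h : G) * g) * g⁻¹ = h := by group
        have h5 : g * (g⁻¹ * (h : G) * g) * g⁻¹ ∈ H := by rw [h4]; exact h.2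
        rw [dif_pos h5]
        have h6 : (⟨_, h5⟩ : H) = h := Subtype.ext h4
        rw [h6]
    · intro x _ hx
      rw [Finset.mem_filter, not_and] at hx
      exact dif_neg (hx (Finset.mem_univ _))
  rw [Finset.smul_sum]
  calc _ = ∑ g : G, (Fintype.card H : ℤ) • ∑ x : G, cf χ (g * x * g⁻¹) • F x := by
        refine Finset.sum_congr rfl fun g _ => ?_
        rw [Finset.sum_congr rfl fun h _ => h1 g h, Finset.sum_const, Finset.card_univ, h2,
          natCast_zsmul]
    _ = _ := by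
        rw [← Finset.smul_sum, Finset.sum_comm, Finset.smul_sum]
        refine Finset.sum_congr rfl fun x _ => ?_
        rw [Finset.sum_smul]

end group

section

variable {k : Type} [Field k] {K1 K2 : Type} [Field K1] [Algebra k K1] [Field K2]
  [Algebra k K2] {G : Type} [Group G] [Fintype G] (α1 : G →* (K1 ≃ₐ[k] K1))
  (α2 : G →* (K2 ≃ₐ[k] K2))

/-- the cycle `∑ g, e (g s) × e (g t)`, where `e` is the sum over the subgroup `H`, weighted by the
character -/
noncomputable def EX (H : Subgroup G) [Fintype H] (χ : H →* ℤˣ) (x : Place k K1 × Place k K2) :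
    (Place k K1 × Place k K2) →₀ ℤ :=
  ∑ g : G, px (ex (α1.comp H.subtype) χ (act (α1 g) x.1)) (ex (α2.comp H.subtype) χ
    (act (α2 g) x.2))

theorem EX_map (H : Subgroup G) [Fintype H] (χ : H →* ℤˣ) {Y : Type}
    (q : Place k K1 × Place k K2 → Y)
    (hq : ∀ (g : G) (s : Place k K1) (t : Place k K2),
      q (act (α1 g) s, act (α2 g) t) = q (s, t)) (s : Place k K1) (t : Place k K2) :
    Finsupp.mapDomain q (EX α1 α2 H χ (s, t)) = (Fintype.card H : ℤ) • ∑ x : G,
      (∑ g : G, cf χ (g * x * g⁻¹)) • Finsupp.single (q (s, act (α2 x) t)) (1 : ℤ) := by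
  classical
  rw [← sum_conj_char H χ fun x => Finsupp.single (q (s, act (α2 x) t)) (1 : ℤ)]
  unfold EX
  rw [Finsupp.mapDomain_finsetSum]
  refine Finset.sum_congr rfl fun g _ => ?_
  unfold ex
  rw [px_sum_left, Finsupp.mapDomain_finsetSum]
  refine Finset.sum_congr rfl fun h _ => ?_
  rw [px_sum_right, Finsupp.mapDomain_finsetSum]
  refine Finset.sum_congr rfl fun h' _ => ?_
  rw [px_smul_left, px_smul_right, ← mul_smul, Finsupp.mapDomain_smul, px_single_single, mul_one,
    Finsupp.mapDomain_single]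
  congr 2
  have h1 : act ((α1.comp H.subtype) h) (act (α1 g) s) = act (α1 (h * g)) s := by
    rw [map_mul, act_mul]; rfl
  have h2 : act ((α2.comp H.subtype) h') (act (α2 g) t) =
      act (α2 (h * g)) (act (α2 (g⁻¹ * (h : G)⁻¹ * h' * g)) t) := by
    have h3 : (h : G) * g * (g⁻¹ * (h : G)⁻¹ * h' * g) = h' * g := by group
    rw [← act_mul (α2 (h * g)), ← map_mul, h3, map_mul, act_mul]
    rfl
  change q (act ((α1.comp H.subtype) h) (act (α1 g) s), act ((α2.comp H.subtype) h')
    (act (α2 g) t)) = _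
  rw [h1, h2, hq]

variable {J : Type} [Fintype J] [DecidableEq J] (H : J → Subgroup G) [∀ j, Fintype (H j)]
  (χ : ∀ j, H j →* ℤˣ) (c : J → ℤ)

theorem EX_sum (hc : ∀ x : G, x ≠ 1 → ∑ j, c j * ∑ g : G, cf (χ j) (g * x * g⁻¹) = 0)
    {Y : Type} (q : Place k K1 × Place k K2 → Y)
    (hq : ∀ (g : G) (s : Place k K1) (t : Place k K2),
      q (act (α1 g) s, act (α2 g) t) = q (s, t)) (x : Place k K1 × Place k K2) :
    Finsupp.mapDomain q (∑ j, cc H c j • EX α1 α2 (H j) (χ j) x) =
      (DD H * (Fintype.card G * ∑ j, c j)) • Finsupp.single (q x) (1 : ℤ) := by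
  classical
  obtain ⟨s, t⟩ := x
  rw [Finsupp.mapDomain_finsetSum]
  have h1 : ∀ j, Finsupp.mapDomain q (cc H c j • EX α1 α2 (H j) (χ j) (s, t)) =
      ∑ x : G, (DD H * (c j * ∑ g : G, cf (χ j) (g * x * g⁻¹))) •
        Finsupp.single (q (s, act (α2 x) t)) (1 : ℤ) := by
    intro j
    rw [Finsupp.mapDomain_smul, EX_map α1 α2 (H j) (χ j) q hq, ← mul_smul, cc_mul,
      Finset.smul_sum]
    refine Finset.sum_congr rfl fun x _ => ?_
    rw [← mul_smul, mul_assoc]
  rw [Finset.sum_congr rfl fun j _ => h1 j, Finset.sum_comm]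
  have h2 : ∀ x : G, ∑ j, (DD H * (c j * ∑ g : G, cf (χ j) (g * x * g⁻¹))) •
        Finsupp.single (q (s, act (α2 x) t)) (1 : ℤ) =
      (DD H * ∑ j, c j * ∑ g : G, cf (χ j) (g * x * g⁻¹)) •
        Finsupp.single (q (s, act (α2 x) t)) (1 : ℤ) := by
    intro x
    rw [← Finset.sum_smul, Finset.mul_sum]
  rw [Finset.sum_congr rfl fun x _ => h2 x, Finset.sum_eq_single (1 : G)]
  · have h3 : ∀ j, ∑ g : G, cf (χ j) (g * 1 * g⁻¹) = Fintype.card G := by
      intro j
      have h5 : ∀ g : G, cf (χ j) (g * 1 * g⁻¹) = 1 := by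
        intro g
        rw [mul_one, mul_inv_cancel]
        unfold cf
        rw [dif_pos (H j).one_mem]
        have h6 : (⟨1, (H j).one_mem⟩ : H j) = 1 := rfl
        rw [h6, map_one]
        rfl
      rw [Finset.sum_congr rfl fun g _ => h5 g, Finset.sum_const, Finset.card_univ, nsmul_eq_mul,
        mul_one]
    have h4 : act (α2 1) t = t := by rw [map_one, act_one]
    rw [h4]
    congr 1
    congr 1
    rw [Finset.mul_sum]
    refine Finset.sum_congr rfl fun j _ => ?_
    rw [h3, mul_comm]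
  · intro x _ hx
    rw [hc x hx, mul_zero, zero_smul]
  · intro h
    exact absurd (Finset.mem_univ _) h

theorem sum_ex {K : Type} [Field K] [Algebra k K] (α : G →* (K ≃ₐ[k] K)) (H : Subgroup G)
    [Fintype H] (χ : H →* ℤˣ) (s : Place k K) :
    ∑ g : G, ex (α.comp H.subtype) χ (act (α g) s) = (∑ h : H, ((χ h : ℤˣ) : ℤ)) • NN α s := by
  unfold ex NN
  rw [Finset.sum_comm, Finset.sum_smul]
  refine Finset.sum_congr rfl fun h _ => ?_
  rw [← Finset.smul_sum]
  congr 1
  refine Fintype.sum_equiv (Equiv.mulLeft (h : G)) _ _ fun g => ?_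
  rw [Equiv.coe_mulLeft, map_mul, act_mul]
  rfl

/-- the product of the weighted inverse images of two points, made to vanish on the axes -/
noncomputable def RX (H : Subgroup G) [Fintype H] (χ : H →* ℤˣ) (ω1 : Place k K1 →₀ ℤ)
    (ω2 : Place k K2 →₀ ℤ) (x : Place k K1 × Place k K2) : (Place k K1 × Place k K2) →₀ ℤ :=
  px (ex (α1.comp H.subtype) χ x.1 - ω1) (ex (α2.comp H.subtype) χ x.2 - ω2)

/-- the operator `b ↦ R (∑ g, g b)` -/
noncomputable def QX (H : Subgroup G) [Fintype H] (χ : H →* ℤˣ) (ω1 : Place k K1 →₀ ℤ)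
    (ω2 : Place k K2 →₀ ℤ) :
    ((Place k K1 × Place k K2) →₀ ℤ) →+ ((Place k K1 × Place k K2) →₀ ℤ) :=
  (Finsupp.linearCombination ℤ (RX α1 α2 H χ ω1 ω2)).toAddMonoidHom.comp (trG α1 α2)

theorem QX_single (H : Subgroup G) [Fintype H] (χ : H →* ℤˣ) (ω1 : Place k K1 →₀ ℤ)
    (ω2 : Place k K2 →₀ ℤ) (s : Place k K1) (t : Place k K2) :
    QX α1 α2 H χ ω1 ω2 (Finsupp.single (s, t) 1) = EX α1 α2 H χ (s, t) -
      (∑ h : H, ((χ h : ℤˣ) : ℤ)) • px (NN α1 s) ω2 -
      (∑ h : H, ((χ h : ℤˣ) : ℤ)) • px ω1 (NN α2 t) +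
      (Fintype.card G : ℤ) • px ω1 ω2 := by
  have h1 : trG α1 α2 (Finsupp.single (s, t) 1) =
      ∑ g : G, Finsupp.single (act (α1 g) s, act (α2 g) t) (1 : ℤ) := by
    unfold trG
    rw [AddMonoidHom.finsetSum_apply]
    refine Finset.sum_congr rfl fun g _ => ?_
    change Finsupp.mapDomain _ _ = _
    rw [Finsupp.mapDomain_single]
  have h2 : QX α1 α2 H χ ω1 ω2 (Finsupp.single (s, t) 1) =
      ∑ g : G, RX α1 α2 H χ ω1 ω2 (act (α1 g) s, act (α2 g) t) := by
    unfold QX
    change Finsupp.linearCombination ℤ (RX α1 α2 H χ ω1 ω2)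
      (trG α1 α2 (Finsupp.single (s, t) 1)) = _
    rw [h1, map_sum]
    refine Finset.sum_congr rfl fun g _ => ?_
    rw [Finsupp.linearCombination_single, one_smul]
  rw [h2]
  unfold RX EX
  simp only [px_sub_left, px_sub_right, Finset.sum_sub_distrib]
  rw [← px_sum_left, ← px_sum_right, sum_ex, sum_ex, px_smul_left, px_smul_right,
    Finset.sum_const, Finset.card_univ, ← natCast_zsmul]
  abel

/-- the pull-back to the first curve of the push-forward to its quotient -/
noncomputable def pp1 : ((Place k K1 × Place k K2) →₀ ℤ) →+ (Place k K1 →₀ ℤ) :=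
  (Finsupp.linearCombination ℤ fun x : Place k K1 × Place k K2 => NN α1 x.1).toAddMonoidHom

/-- the pull-back to the second curve of the push-forward to its quotient -/
noncomputable def pp2 : ((Place k K1 × Place k K2) →₀ ℤ) →+ (Place k K2 →₀ ℤ) :=
  (Finsupp.linearCombination ℤ fun x : Place k K1 × Place k K2 => NN α2 x.2).toAddMonoidHom

theorem pp1_single (x : Place k K1 × Place k K2) (m : ℤ) :
    pp1 (K2 := K2) α1 (Finsupp.single x m) = m • NN α1 x.1 :=
  Finsupp.linearCombination_single ℤ m x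

theorem pp2_single (x : Place k K1 × Place k K2) (m : ℤ) :
    pp2 (K1 := K1) α2 (Finsupp.single x m) = m • NN α2 x.2 :=
  Finsupp.linearCombination_single ℤ m x

theorem QX_eq (H : Subgroup G) [Fintype H] (χ : H →* ℤˣ) (ω1 : Place k K1 →₀ ℤ)
    (ω2 : Place k K2 →₀ ℤ) (b : (Place k K1 × Place k K2) →₀ ℤ) :
    QX α1 α2 H χ ω1 ω2 b = Finsupp.linearCombination ℤ (EX α1 α2 H χ) b -
      (∑ h : H, ((χ h : ℤˣ) : ℤ)) • px (pp1 α1 b) ω2 -
      (∑ h : H, ((χ h : ℤˣ) : ℤ)) • px ω1 (pp2 α2 b) +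
      dg b • (Fintype.card G : ℤ) • px ω1 ω2 := by
  induction b using Finsupp.induction_linear with
  | zero =>
    have h1 : px (0 : Place k K1 →₀ ℤ) ω2 = 0 := by
      have := px_sub_left (0 : Place k K1 →₀ ℤ) 0 ω2
      rwa [sub_self, sub_self] at this
    have h2 : px ω1 (0 : Place k K2 →₀ ℤ) = 0 := by
      have := px_sub_right ω1 (0 : Place k K2 →₀ ℤ) 0
      rwa [sub_self, sub_self] at this
    rw [map_zero, map_zero, map_zero, map_zero, map_zero, h1, h2]
    simp
  | add u v hu hv =>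
    simp only [map_add, px_add_left, px_add_right, smul_add, add_smul, hu, hv]
    abel
  | single x m =>
    obtain ⟨s, t⟩ := x
    have h3 : Finsupp.single (s, t) m = m • Finsupp.single (s, t) (1 : ℤ) := by
      rw [Finsupp.smul_single, smul_eq_mul, mul_one]
    have h4 := congrArg (fun z => m • z) (QX_single α1 α2 H χ ω1 ω2 s t)
    rw [← map_zsmul, ← h3] at h4
    rw [h4, Finsupp.linearCombination_single, pp1_single, pp2_single, dg_single, px_smul_left,
      px_smul_right, smul_add, smul_sub, smul_sub, smul_comm m (∑ h : H, ((χ h : ℤˣ) : ℤ)),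
      smul_comm m (∑ h : H, ((χ h : ℤˣ) : ℤ))]

end

section red

variable {k : Type} [Field k] {K1 K2 : Type} [Field K1] [Algebra k K1] [Field K2]
  [Algebra k K2] {G : Type} [Group G] [Fintype G] (α1 : G →* (K1 ≃ₐ[k] K1))
  (α2 : G →* (K2 ≃ₐ[k] K2)) [CharZero k] [IsAlgClosed k] [IsFF k K1] [IsFF k K2]
  {J : Type} [Fintype J] [DecidableEq J] (H : J → Subgroup G) [∀ j, Fintype (H j)]
  (χ : ∀ j, H j →* ℤˣ) (c : J → ℤ) (ω1 : J → Place k K1 →₀ ℤ) (ω2 : J → Place k K2 →₀ ℤ)

omit [IsAlgClosed k] [IsFF k K1] [IsFF k K2] in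
/-- The reduction. -/
theorem red' (hc : ∀ x : G, x ≠ 1 → ∑ j, c j * ∑ g : G, cf (χ j) (g * x * g⁻¹) = 0)
    {Y : Type} (q : Place k K1 × Place k K2 → Y)
    (hq : ∀ (g : G) (s : Place k K1) (t : Place k K2),
      q (act (α1 g) s, act (α2 g) t) = q (s, t)) {n : ℕ}
    (l : ((Fin n → Y) →₀ ℤ) →+ ℚ)
    (hl : ∀ r ∈ RatEq (((curve k K1).prod (curve k K2)).pow (Fin n)),
      l (Finsupp.mapDomain (fun x i => q (x i)) r) = 0)
    (b : (Place k K1 × Place k K2) →₀ ℤ) (hb : dg b = 0)
    (hb1 : ∃ N : ℕ, 0 < N ∧ N • pp1 α1 b ∈ RatEq (curve k K1))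
    (hb2 : ∃ N : ℕ, 0 < N ∧ N • pp2 α2 b ∈ RatEq (curve k K2)) :
    (DD H * (Fintype.card G * ∑ j, c j)) • b -
      ∑ j, cc H c j • QX α1 α2 (H j) (χ j) (ω1 j) (ω2 j) b ∈
      Null (l.comp (Finsupp.mapDomain.addMonoidHom fun x i => q (x i))) := by
  have h1 : (DD H * (Fintype.card G * ∑ j, c j)) • b -
      ∑ j, cc H c j • Finsupp.linearCombination ℤ (EX α1 α2 (H j) (χ j)) b ∈
      Null (l.comp (Finsupp.mapDomain.addMonoidHom fun x i => q (x i))) := by
    refine Null_of_map q l ?_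
    have h2 : ∀ b : (Place k K1 × Place k K2) →₀ ℤ, Finsupp.mapDomain q
        (∑ j, cc H c j • Finsupp.linearCombination ℤ (EX α1 α2 (H j) (χ j)) b) =
        (DD H * (Fintype.card G * ∑ j, c j)) • Finsupp.mapDomain q b := by
      intro b
      induction b using Finsupp.induction_linear with
      | zero => simp
      | add u v hu hv =>
        rw [Finsupp.mapDomain_add, smul_add, ← hu, ← hv, ← Finsupp.mapDomain_add,
          ← Finset.sum_add_distrib]
        congr 1
        refine Finset.sum_congr rfl fun j _ => ?_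
        rw [map_add, smul_add]
      | single x m =>
        have h3 := EX_sum α1 α2 H χ c hc q hq x
        have h4 : ∑ j, cc H c j • Finsupp.linearCombination ℤ (EX α1 α2 (H j) (χ j))
            (Finsupp.single x m) = m • ∑ j, cc H c j • EX α1 α2 (H j) (χ j) x := by
          rw [Finset.smul_sum]
          refine Finset.sum_congr rfl fun j _ => ?_
          rw [Finsupp.linearCombination_single, smul_comm]
        rw [h4, Finsupp.mapDomain_smul, h3, Finsupp.mapDomain_single, smul_comm,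
          Finsupp.smul_single m, smul_eq_mul, mul_one]
    have h5 := map_sub (Finsupp.mapDomain.addMonoidHom (M := ℤ) q)
      ((DD H * (Fintype.card G * ∑ j, c j)) • b)
      (∑ j, cc H c j • Finsupp.linearCombination ℤ (EX α1 α2 (H j) (χ j)) b)
    refine h5.trans ?_
    change Finsupp.mapDomain q _ - Finsupp.mapDomain q _ = 0
    rw [h2, Finsupp.mapDomain_smul, sub_self]
  have hX := prod_const k K1 K2
  have h2 : ∑ j, cc H c j • QX α1 α2 (H j) (χ j) (ω1 j) (ω2 j) b -
      ∑ j, cc H c j • Finsupp.linearCombination ℤ (EX α1 α2 (H j) (χ j)) b ∈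
      Null (l.comp (Finsupp.mapDomain.addMonoidHom fun x i => q (x i))) := by
    rw [← Finset.sum_sub_distrib]
    refine AddSubgroup.sum_mem _ fun j _ => ?_
    rw [← smul_sub]
    refine AddSubgroup.zsmul_mem _ ?_ _
    rw [QX_eq, hb, zero_smul, add_zero]
    have h3 : ∀ a u v : (Place k K1 × Place k K2) →₀ ℤ, a - u - v - a = -u - v := fun a u v => by
      abel
    rw [h3]
    refine AddSubgroup.sub_mem _ (AddSubgroup.neg_mem _ (AddSubgroup.zsmul_mem _ ?_ _))
      (AddSubgroup.zsmul_mem _ ?_ _)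
    · obtain ⟨N, hN, h⟩ := hb1
      refine Null_of_nsmul _ hN ?_
      rw [← natCast_zsmul, ← px_smul_left]
      refine Null_of_mem (X := (curve k K1).prod (curve k K2)) hX _ hl (px_mem_left ?_ _)
      rwa [natCast_zsmul]
    · obtain ⟨N, hN, h⟩ := hb2
      refine Null_of_nsmul _ hN ?_
      rw [← natCast_zsmul, ← px_smul_right]
      refine Null_of_mem (X := (curve k K1).prod (curve k K2)) hX _ hl (px_mem_right ?_ _)
      rwa [natCast_zsmul]
  have h3 := AddSubgroup.sub_mem _ h1 h2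
  rwa [sub_sub_sub_cancel_right] at h3

omit [IsAlgClosed k] [IsFF k K1] [IsFF k K2] in
theorem quot_alt' (m : J → ℕ)
    (hc : ∀ x : G, x ≠ 1 → ∑ j, c j * ∑ g : G, cf (χ j) (g * x * g⁻¹) = 0) (hc0 : ∑ j, c j ≠ 0)
    (hv : ∀ j, VanPair k (fun P => ex (α1.comp (H j).subtype) (χ j) P - ω1 j)
      (fun P => ex (α2.comp (H j).subtype) (χ j) P - ω2 j) (m j)) {n : ℕ}
    (hn : ∑ j, m j < n) {Y : Type} (q : Place k K1 × Place k K2 → Y)
    (hq : ∀ (g : G) (s : Place k K1) (t : Place k K2),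
      q (act (α1 g) s, act (α2 g) t) = q (s, t))
    (b : Fin n → (Place k K1 × Place k K2) →₀ ℤ) (hb : ∀ i, dg (b i) = 0)
    (hb1 : ∀ i, ∃ N : ℕ, 0 < N ∧ N • pp1 α1 (b i) ∈ RatEq (curve k K1))
    (hb2 : ∀ i, ∃ N : ℕ, 0 < N ∧ N • pp2 α2 (b i) ∈ RatEq (curve k K2)) :
    ∃ N : ℕ, 0 < N ∧ N • altSum (fun i => Finsupp.mapDomain q (b i)) ∈
      RatEq ((((curve k K1).prod (curve k K2)).quot q).pow (Fin n)) := by
  classical
  refine torsion_of_hom _ _ fun l hl => ?_
  let l' : ((Fin n → Place k K1 × Place k K2) →₀ ℤ) →+ ℚ :=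
    l.comp (Finsupp.mapDomain.addMonoidHom fun x i => q (x i))
  have hl' : ∀ r ∈ RatEq (((curve k K1).prod (curve k K2)).pow (Fin n)), l' r = 0 :=
    fun r hr => hl _ (quot_mem (X := (curve k K1).prod (curve k K2)) q hr)
  set C : ℤ := DD H * (Fintype.card G * ∑ j, c j) with hC
  have hC0 : C ≠ 0 := by
    rw [hC]
    refine mul_ne_zero ?_ (mul_ne_zero ?_ hc0)
    · unfold DD
      refine Finset.prod_ne_zero_iff.2 fun j _ => ?_
      have : 0 < Fintype.card (H j) := Fintype.card_pos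
      exact_mod_cast this.ne'
    · have : 0 < Fintype.card G := Fintype.card_pos
      exact_mod_cast this.ne'
  -- the values of the functional
  have h3 : l (altSum fun i => Finsupp.mapDomain q (b i)) =
      ∑ σ : Perm (Fin n), ((Perm.sign σ : ℤ) : ℚ) * l' (extG fun i => b (σ i)) := by
    rw [← map_altSum q b]
    change l' (altSum b) = _
    unfold altSum
    rw [map_sum]
    refine Finset.sum_congr rfl fun σ _ => ?_
    rw [map_zsmul, zsmul_eq_mul, ext_eq_extG]
  have h4 : ∀ σ : Perm (Fin n), (C : ℚ) ^ n * l' (extG fun i => b (σ i)) =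
      ∑ κ : Fin n → J, ((∏ i, cc H c (κ i) : ℤ) : ℚ) *
        l' (extG fun i => QX α1 α2 (H (κ i)) (χ (κ i)) (ω1 (κ i)) (ω2 (κ i)) (b (σ i))) := by
    intro σ
    have h5 : (C : ℚ) ^ n * l' (extG fun i => b (σ i)) = l' (extG fun i => C • b (σ i)) := by
      rw [← extGM_apply (fun i => C • b (σ i)), MultilinearMap.map_smul_univ, extGM_apply,
        Finset.prod_const, Finset.card_univ, Fintype.card_fin, map_zsmul, zsmul_eq_mul]
      push_cast
      rfl
    have h6 : l' (extG fun i => C • b (σ i)) =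
        l' (extG fun i => ∑ j, cc H c j • QX α1 α2 (H j) (χ j) (ω1 j) (ω2 j) (b (σ i))) :=
      tele l' _ _ fun i => red' α1 α2 H χ c ω1 ω2 hc q hq l hl' (b (σ i)) (hb _) (hb1 _) (hb2 _)
    rw [h5, h6, ← extGM_apply, MultilinearMap.map_sum, map_sum]
    refine Finset.sum_congr ?_ fun κ _ => ?_
    · ext; simp
    rw [MultilinearMap.map_smul_univ, map_zsmul, zsmul_eq_mul, extGM_apply]
  have h5 : (C : ℚ) ^ n * l (altSum fun i => Finsupp.mapDomain q (b i)) = 0 := by
    rw [h3, Finset.mul_sum]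
    have h6 : ∀ σ : Perm (Fin n), (C : ℚ) ^ n * (((Perm.sign σ : ℤ) : ℚ) *
        l' (extG fun i => b (σ i))) = ∑ κ : Fin n → J, ((∏ i, cc H c (κ i) : ℤ) : ℚ) *
          (((Perm.sign σ : ℤ) : ℚ) *
            l' (extG fun i => QX α1 α2 (H (κ i)) (χ (κ i)) (ω1 (κ i)) (ω2 (κ i)) (b (σ i)))) := by
      intro σ
      rw [mul_left_comm, h4, Finset.mul_sum]
      refine Finset.sum_congr rfl fun κ _ => ?_
      ring
    rw [Finset.sum_congr rfl fun σ _ => h6 σ, Finset.sum_comm]
    refine Finset.sum_eq_zero fun κ _ => ?_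
    rw [← Finset.mul_sum]
    have h7 := pair_vanish' (fun j P => ex (α1.comp (H j).subtype) (χ j) P - ω1 j)
      (fun j P => ex (α2.comp (H j).subtype) (χ j) P - ω2 j) m hv hn l' hl' κ
      (fun i => trG α1 α2 (b i))
    change _ * ∑ σ : Perm (Fin n), ((Perm.sign σ : ℤ) : ℚ) *
      l' (extG fun i => Finsupp.linearCombination ℤ (fun x : Place k K1 × Place k K2 =>
        px (ex (α1.comp (H (κ i)).subtype) (χ (κ i)) x.1 - ω1 (κ i))
          (ex (α2.comp (H (κ i)).subtype) (χ (κ i)) x.2 - ω2 (κ i)))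
        (trG α1 α2 (b (σ i)))) = 0
    rw [h7, mul_zero]
  rcases mul_eq_zero.1 h5 with h6 | h6
  · exact absurd h6 (pow_ne_zero n (by exact_mod_cast hC0))
  · exact h6

end red

end Pool.Agent.J4.H82.PV
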