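import Pool.Agent.J4.H82.PV.L

/-!
# Operations with the vanishing theorems; the genus
-/

set_option autoImplicit false

open FF IntermediateField Equiv Pool.Agent.W603.LV Pool.Agent.W603.PV Pool.Agent.J4.H17.ZC

namespace Pool.Agent.J4.H82.PV

section van

variable {k : Type} [Field k] [CharZero k] {K : Type} [Field K] [Algebra k K]

/-- Combination with maps of the points. -/
theorem van_lin {e : Place k K → (Place k K →₀ ℤ)} {d : ℕ} (hv : Van k e d) {J : Type} [Fintype J]
    (c : J → ℤ) (θ : J → Place k K → Place k K) : Van k (fun P => ∑ j, c j • e (θ j P)) d := by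
  classical
  intro T _ _ hT s l hl
  unfold Th
  have h1 : ∀ σ : Perm T, l (extG fun i => ∑ j, c j • e (θ j (s (σ i)))) =
      ∑ φ : T → J, ((∏ i, c (φ i) : ℤ) : ℚ) *
        l (extG fun i => e (θ (φ (σ i)) (s (σ i)))) := by
    intro σ
    rw [← extGM_apply, MultilinearMap.map_sum, map_sum]
    have h2 : ∀ φ : T → J, l ((extGM T (Place k K)) fun i => c (φ i) • e (θ (φ i) (s (σ i)))) =
        ((∏ i, c (φ i) : ℤ) : ℚ) * l (extG fun i => e (θ (φ i) (s (σ i)))) := by
      intro φ
      rw [MultilinearMap.map_smul_univ, map_zsmul, zsmul_eq_mul, extGM_apply]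
    have h3 : ∑ φ : T → J, ((∏ i, c (φ i) : ℤ) : ℚ) * l (extG fun i => e (θ (φ i) (s (σ i)))) =
        ∑ φ : T → J, ((∏ i, c (φ i) : ℤ) : ℚ) *
          l (extG fun i => e (θ (φ (σ i)) (s (σ i)))) := by
      rw [← Equiv.sum_comp (Equiv.arrowCongr σ.symm (Equiv.refl J))]
      refine Finset.sum_congr rfl fun φ _ => ?_
      have h4 : ∀ i, (Equiv.arrowCongr σ.symm (Equiv.refl J)) φ i = φ (σ i) := fun i => rfl
      simp only [h4]
      rw [Equiv.prod_comp σ fun i => c (φ i)]
    rw [← h3]
    refine Finset.sum_congr ?_ fun φ _ => h2 φ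
    ext; simp
  rw [Finset.sum_congr rfl fun σ _ => h1 σ, Finset.sum_comm]
  refine Finset.sum_eq_zero fun φ _ => ?_
  rw [← Finset.mul_sum]
  have h5 := hv T hT (fun i => θ (φ i) (s i)) l hl
  unfold Th at h5
  rw [h5, mul_zero]

/-- The sum over all permutations vanishes if there are enough factors. -/
theorem avg {e e' : Place k K → (Place k K →₀ ℤ)} {d : ℕ} (hv : Van k e d) {T : Type} [Fintype T]
    [DecidableEq T] (A : Finset T) (hA : d + 1 ≤ A.card) (s : T → Place k K)
    (l : ((T → Place k K) →₀ ℤ) →+ ℚ) (hl : ∀ r ∈ RatEq ((curve k K).pow T), l r = 0) :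
    ∑ σ : Perm T, l (extG fun i => if i ∈ A then e (s (σ i)) else e' (s (σ i))) = 0 := by
  obtain ⟨B, hBA, hB⟩ := Finset.exists_subset_card_eq hA
  have h1 : ∀ σ : Perm T, ∑ τ ∈ PT B, l (extG fun i =>
      if i ∈ A then e (s ((σ * τ) i)) else e' (s ((σ * τ) i))) = 0 := by
    intro σ
    have h2 := van_multi hv B hB (fun i => s (σ i)) l hl
      (fun i => if i ∈ A then e (s (σ i)) else e' (s (σ i)))
    rw [← h2]
    refine Finset.sum_congr rfl fun τ hτ => ?_
    rw [mem_PT] at hτ
    refine congrArg l (congrArg extG (funext fun i => ?_))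
    by_cases hi : i ∈ B
    · rw [if_pos hi, if_pos (hBA hi)]
      rfl
    · rw [if_neg hi, Perm.mul_apply, hτ i hi]
  have h3 : ∑ τ ∈ PT B, ∑ σ : Perm T, l (extG fun i =>
      if i ∈ A then e (s ((σ * τ) i)) else e' (s ((σ * τ) i))) = 0 := by
    rw [Finset.sum_comm]
    exact Finset.sum_eq_zero fun σ _ => h1 σ
  have h4 : ∀ τ : Perm T, ∑ σ : Perm T, l (extG fun i =>
      if i ∈ A then e (s ((σ * τ) i)) else e' (s ((σ * τ) i))) =
      ∑ σ : Perm T, l (extG fun i => if i ∈ A then e (s (σ i)) else e' (s (σ i))) := fun τ =>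
    Fintype.sum_equiv (Equiv.mulRight τ) _ _ fun σ => rfl
  rw [Finset.sum_congr rfl fun τ _ => h4 τ, Finset.sum_const, nsmul_eq_mul, mul_eq_zero] at h3
  rcases h3 with h3 | h3
  · exfalso
    have h5 : (PT B).card = 0 := by exact_mod_cast h3
    rw [Finset.card_eq_zero] at h5
    have h6 : (1 : Perm T) ∈ PT B := by rw [mem_PT]; intro x _; rfl
    rw [h5] at h6
    exact absurd h6 (Finset.notMem_empty _)
  · exact h3

theorem van_mono {e : Place k K → (Place k K →₀ ℤ)} {d d' : ℕ} (hv : Van k e d) (h : d ≤ d') :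
    Van k e d' := by
  intro T _ _ hT s l hl
  have h1 := avg (e' := e) hv (Finset.univ : Finset T) (by rw [Finset.card_univ, hT]; omega) s l hl
  unfold Th
  rw [← h1]
  refine Finset.sum_congr rfl fun σ _ => ?_
  refine congrArg l (congrArg extG (funext fun i => ?_))
  rw [if_pos (Finset.mem_univ i)]

/-- The sum of two operators. -/
theorem van_add {e e1 e2 : Place k K → (Place k K →₀ ℤ)} {d1 d2 : ℕ} (h1 : Van k e1 d1)
    (h2 : Van k e2 d2) {c : ℤ} (hc : c ≠ 0) (h : ∀ P, c • e P = e1 P + e2 P) :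
    Van k e (d1 + d2) := by
  classical
  intro T _ _ hT s l hl
  have h3 : (c : ℚ) ^ Fintype.card T * Th e l s = 0 := by
    unfold Th
    rw [Finset.mul_sum]
    have h4 : ∀ σ : Perm T, (c : ℚ) ^ Fintype.card T * l (extG fun i => e (s (σ i))) =
        ∑ A : Finset T, l (extG fun i => if i ∈ A then e1 (s (σ i)) else e2 (s (σ i))) := by
      intro σ
      have h5 : (c : ℚ) ^ Fintype.card T * l (extG fun i => e (s (σ i))) =
          l (extG fun i => c • e (s (σ i))) := by
        rw [← extGM_apply (fun i => c • e (s (σ i))), MultilinearMap.map_smul_univ, extGM_apply,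
          Finset.prod_const, Finset.card_univ, map_zsmul, zsmul_eq_mul]
        push_cast
        rfl
      have h6 : (fun i => c • e (s (σ i))) =
          (fun i => e1 (s (σ i))) + fun i => e2 (s (σ i)) := by
        funext i
        exact h _
      rw [h5, h6, ← extGM_apply, MultilinearMap.map_add_univ, map_sum]
      refine Finset.sum_congr rfl fun A _ => ?_
      rw [extGM_apply]
      refine congrArg l (congrArg extG (funext fun i => ?_))
      by_cases hi : i ∈ A
      · rw [if_pos hi, Finset.piecewise_eq_of_mem _ _ _ hi]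
      · rw [if_neg hi, Finset.piecewise_eq_of_notMem _ _ _ hi]
    rw [Finset.sum_congr rfl fun σ _ => h4 σ, Finset.sum_comm]
    refine Finset.sum_eq_zero fun A _ => ?_
    by_cases hA : d1 + 1 ≤ A.card
    · exact avg h1 A hA s l hl
    · have h5 : d2 + 1 ≤ (Aᶜ).card := by
        rw [Finset.card_compl, hT]
        omega
      have h6 := avg (e' := e1) h2 Aᶜ h5 s l hl
      rw [← h6]
      refine Finset.sum_congr rfl fun σ _ => ?_
      refine congrArg l (congrArg extG (funext fun i => ?_))
      by_cases hi : i ∈ A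
      · rw [if_pos hi, if_neg (by rw [Finset.mem_compl, not_not]; exact hi)]
      · rw [if_neg hi, if_pos (Finset.mem_compl.2 hi)]
  exact (mul_eq_zero.1 h3).resolve_left (pow_ne_zero _ (by exact_mod_cast hc))

end van

section genus

variable (k : Type) [Field k] [CharZero k] (K : Type) [Field K] [Algebra k K] [IsAlgClosed k]
  [IsFF k K]

theorem exists_genus : ∃ g, HasGenus k K g := by
  classical
  obtain ⟨γ, N, h1, h2⟩ := riemann k K
  have h3 : -1 ≤ γ := by
    have h4 := h1 0
    have h5 : ell (0 : Place k K →₀ ℤ) ≤ 1 := by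
      obtain ⟨P, -⟩ := exists_place (k := k) (K := K)
      have h6 := ell_le (D := -Finsupp.single P (1 : ℤ)) (E := 0) (by
        rw [neg_le, neg_zero]
        intro Q
        rw [Finsupp.single_apply]
        split_ifs <;> simp)
      have h7 : ell (-Finsupp.single P (1 : ℤ)) = 0 := by
        unfold ell
        rw [LL_eq_bot (by rw [ddeg_neg, ddeg_eq_dg, dg_single]; norm_num)]
        simp
      rw [h7, ddeg_zero, ddeg_neg, ddeg_eq_dg, dg_single] at h6
      linarith
    rw [ddeg_zero] at h4
    omega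
  refine ⟨(γ + 1).toNat, N, fun D hD => ?_⟩
  have h4 : ddeg D = D.sum fun _ n => n := by
    rw [ddeg_eq_dg]
    simp only [dg, Finsupp.liftAddHom_apply]
    rfl
  rw [RR_eq]
  have h5 := h2 D (by rw [h4]; exact hD)
  unfold ell at h5
  rw [h5, h4, Int.toNat_of_nonneg (by omega)]
  ring

end genus

end Pool.Agent.J4.H82.PV
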