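import Pool.Agent.J4.H82.PV.N

/-!
# The genera for an action of the group with four elements
-/

set_option autoImplicit false

open FF IntermediateField Pool.Agent.W603.LV Pool.Agent.W603.PV Pool.Agent.J4.H17.ZC
  Pool.Agent.N162.CV Pool.Agent.N75.CV

namespace Pool.Agent.J4.H82.PV

section inter

variable {k : Type} [Field k] [CharZero k] [IsAlgClosed k] {M K : Type} [Field M]
  [Field K] [Algebra k M] [Algebra k K] [Algebra M K] [IsScalarTower k M K] [IsFF k M] [IsFF k K]

/-- the image of a Riemann-Roch space in an extension -/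
noncomputable def Lim (K : Type) [Field K] [Algebra k K] [Algebra M K] [IsScalarTower k M K]
    (D : Place k M →₀ ℤ) : Submodule k K :=
  (LL D).map ((Algebra.linearMap M K).restrictScalars k)

omit [CharZero k] [IsAlgClosed k] [IsFF k M] [IsFF k K] in
theorem finrank_Lim (D : Place k M →₀ ℤ) : (Module.finrank k (Lim K D) : ℤ) = ell D := by
  unfold Lim ell
  congr 1
  exact (Submodule.equivMapOfInjective _ (algebraMap M K).injective _).finrank_eq.symm

instance finDim_Lim (D : Place k M →₀ ℤ) : FiniteDimensional k (Lim K D) := by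
  unfold Lim
  infer_instance

theorem mem_iff_polar [FiniteDimensional M K] (t : M) (n : ℕ) (x : M) :
    algebraMap M K x ∈ LL (n • polar (k := k) (algebraMap M K t)) ↔
      x ∈ LL (n • polar (k := k) t) := by
  have key : ∀ P : Place k K, (n • polar (k := k) (algebraMap M K t)) P =
      ram M P * (n • polar (k := k) t) (under M P) := by
    intro P
    rw [Finsupp.smul_apply, Finsupp.smul_apply, polar_apply, polar_apply, ord_under, nsmul_eq_mul,
      nsmul_eq_mul]
    have h1 : (0 : ℤ) < ram M P := by exact_mod_cast (ram_spec (F := M) P).1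
    have h2 : max (-((ram M P : ℤ) * (under M P).ord t)) 0 =
        ram M P * max (-(under M P).ord t) 0 := by
      rcases le_total 0 ((under M P).ord t) with h | h
      · rw [max_eq_right (by nlinarith), max_eq_right (by omega), mul_zero]
      · rw [max_eq_left (by nlinarith), max_eq_left (by omega)]
        ring
    rw [h2]
    ring
  constructor
  · rintro (h | h)
    · left; simpa using h
    · right
      intro v
      obtain ⟨P, hP⟩ := exists_place_over (K := K) v
      have h3 := h P
      rw [key, ord_under, hP] at h3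
      have h4 : (0 : ℤ) < ram M P := by exact_mod_cast (ram_spec (F := M) P).1
      by_contra hcon
      push Not at hcon
      nlinarith
  · rintro (h | h)
    · left; rw [h, map_zero]
    · right
      intro P
      rw [key, ord_under]
      have h3 := h (under M P)
      have h4 : (0 : ℤ) < ram M P := by exact_mod_cast (ram_spec (F := M) P).1
      nlinarith

theorem mem_Lim [FiniteDimensional M K] {t : M} {n : ℕ} {x : K}
    (hx : x ∈ LL (n • polar (k := k) (algebraMap M K t))) {a : M} (ha : algebraMap M K a = x) :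
    x ∈ Lim K (n • polar (k := k) t) := by
  rw [← ha] at hx
  exact ⟨a, (mem_iff_polar t n a).1 hx, ha⟩

end inter

section pow

variable {k : Type} [Field k] [CharZero k] [IsAlgClosed k] {K : Type} [Field K] [Algebra k K]
  [IsFF k K]

/-- the span of the powers of an element -/
noncomputable def Pw (t : K) (n : ℕ) : Submodule k K :=
  (Polynomial.degreeLT k (n + 1)).map (Polynomial.aeval t).toLinearMap

omit [CharZero k] [IsAlgClosed k] [IsFF k K] in
theorem finrank_Pw {t : K} (ht : Transcendental k t) (n : ℕ) :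
    Module.finrank k (Pw (k := k) t n) = n + 1 := by
  unfold Pw
  rw [← (Submodule.equivMapOfInjective (Polynomial.aeval t).toLinearMap
    (transcendental_iff_injective.1 ht) (Polynomial.degreeLT k (n + 1))).finrank_eq,
    (Polynomial.degreeLTEquiv k (n + 1)).finrank_eq, Module.finrank_fin_fun]

omit [CharZero k] [IsAlgClosed k] in
theorem aeval_mem_LL (t : K) (n : ℕ) {p : Polynomial k}
    (hp' : p ∈ Polynomial.degreeLT k (n + 1)) [CharZero k] :
    Polynomial.aeval t p ∈ LL (n • polar (k := k) t) := by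
  rw [Polynomial.mem_degreeLT] at hp'
  rw [Polynomial.aeval_eq_sum_range]
  refine Submodule.sum_mem _ fun i hi => Submodule.smul_mem _ _ ?_
  have hi' : i ≤ n := by
    rw [Finset.mem_range] at hi
    by_cases hp0 : p = 0
    · subst hp0
      rw [Polynomial.natDegree_zero] at hi
      omega
    · have := (Polynomial.natDegree_lt_iff_degree_lt hp0).2 hp'
      omega
  right
  intro v
  rw [Finsupp.smul_apply, polar_apply, Place.ord_pow, nsmul_eq_mul]
  have h1 : -(v.ord t) ≤ max (-(v.ord t)) 0 := le_max_left _ _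
  have h2 : (0 : ℤ) ≤ max (-(v.ord t)) 0 := le_max_right _ _
  have h3 : (i : ℤ) ≤ n := by exact_mod_cast hi'
  have h4 : (0 : ℤ) ≤ i := by positivity
  nlinarith

end pow

section four

variable {k : Type} [Field k] [CharZero k] [IsAlgClosed k] {K : Type} [Field K] [Algebra k K]
  [IsFF k K]

theorem four_ineq {F M1 M2 : Type} [Field F] [Field M1] [Field M2] [Algebra k F] [Algebra k M1]
    [Algebra k M2] [Algebra F K] [Algebra M1 K] [Algebra M2 K] [IsScalarTower k F K]
    [IsScalarTower k M1 K] [IsScalarTower k M2 K] [IsFF k F] [IsFF k M1] [IsFF k M2]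
    [FiniteDimensional F K] [FiniteDimensional M1 K] [FiniteDimensional M2 K]
    (τ ρ : K ≃ₐ[k] K) (hτ : ∀ x, τ (τ x) = x) (hρ : ∀ x, ρ (ρ x) = x)
    (hc : ∀ x, τ (ρ x) = ρ (τ x))
    (hF : ∀ x, τ x = x → ∃ a, algebraMap F K a = x)
    (h1 : ∀ x, ρ x = x → ∃ a, algebraMap M1 K a = x)
    (h2 : ∀ x, τ (ρ x) = x → ∃ a, algebraMap M2 K a = x)
    {t : K} (ht : Transcendental k t) {tF : F} {t1 : M1} {t2 : M2} (htF : algebraMap F K tF = t)
    (ht1 : algebraMap M1 K t1 = t) (ht2 : algebraMap M2 K t2 = t)
    (hτt : τ t = t) (hρt : ρ t = t) (n : ℕ) :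
    ell (n • polar (k := k) t) + 2 * (n + 1) ≤ ell (n • polar (k := k) tF) +
      ell (n • polar (k := k) t1) + ell (n • polar (k := k) t2) := by
  have h20 : (2 : K) ≠ 0 := two_ne (k := k)
  have ht0 : t ≠ 0 := by
    rintro h
    rw [h] at ht
    exact ht isAlgebraic_zero
  set U := LL (n • polar (k := k) t) with hU
  -- stability
  have hst : ∀ s : K ≃ₐ[k] K, s t = t → ∀ x ∈ U, s x ∈ U := by
    intro s hs x hx
    have hs' : s.symm t = t := by rw [AlgEquiv.symm_apply_eq, hs]
    rcases hx with hx | hx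
    · exact Or.inl (by rw [hx, map_zero])
    · right
      intro P
      have h3 := hx (act s.symm P)
      have h4 : (act s.symm P).ord x = P.ord (s x) := by
        rw [act_ord]; rfl
      have h5 : (act s.symm P).ord t = P.ord t := by
        rw [act_ord]
        change P.ord (s t) = _
        rw [hs]
      rw [h4, Finsupp.smul_apply, polar_apply, h5] at h3
      rw [Finsupp.smul_apply, polar_apply]
      exact h3
  have hhalf : ∀ x ∈ U, x / 2 ∈ U := by
    intro x hx
    have h3 : x / 2 = ((1 / 2 : k)) • x := by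
      rw [Algebra.smul_def, map_div₀, map_one, map_ofNat]
      ring
    rw [h3]
    exact U.smul_mem _ hx
  let UF := Lim K (n • polar (k := k) tF)
  let U1 := Lim K (n • polar (k := k) t1)
  let U2 := Lim K (n • polar (k := k) t2)
  have hUF : ∀ x ∈ U, τ x = x → x ∈ UF := by
    intro x hx hx'
    obtain ⟨a, ha⟩ := hF x hx'
    exact mem_Lim (by rw [htF]; exact hx) ha
  have hU1 : ∀ x ∈ U, ρ x = x → x ∈ U1 := by
    intro x hx hx'
    obtain ⟨a, ha⟩ := h1 x hx'
    exact mem_Lim (by rw [ht1]; exact hx) ha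
  have hU2 : ∀ x ∈ U, τ (ρ x) = x → x ∈ U2 := by
    intro x hx hx'
    obtain ⟨a, ha⟩ := h2 x hx'
    exact mem_Lim (by rw [ht2]; exact hx) ha
  have hle : U ≤ (UF ⊔ U1) ⊔ U2 := by
    intro x hx
    have e1 : (x + τ x) / 2 ∈ UF := by
      refine hUF _ (hhalf _ (U.add_mem hx (hst τ hτt x hx))) ?_
      rw [map_div₀, map_add, hτ, map_ofNat, add_comm]
    set y := (x - τ x) / 2 with hy
    have hyU : y ∈ U := hhalf _ (U.sub_mem hx (hst τ hτt x hx))
    have hτy : τ y = -y := by
      rw [hy, map_div₀, map_sub, hτ, map_ofNat]; ring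
    have e2 : (y + ρ y) / 2 ∈ U1 := by
      refine hU1 _ (hhalf _ (U.add_mem hyU (hst ρ hρt y hyU))) ?_
      rw [map_div₀, map_add, hρ, map_ofNat, add_comm]
    have e3 : (y - ρ y) / 2 ∈ U2 := by
      refine hU2 _ (hhalf _ (U.sub_mem hyU (hst ρ hρt y hyU))) ?_
      rw [map_div₀, map_sub, hρ, map_ofNat, map_div₀, map_sub, map_ofNat, hc, hτy, map_neg]
      ring
    have e4 : x = ((x + τ x) / 2 + (y + ρ y) / 2) + (y - ρ y) / 2 := by
      rw [hy]
      field_simp
      ring
    rw [e4]
    exact Submodule.add_mem_sup (Submodule.add_mem_sup e1 e2) e3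
  have hPw : ∀ x ∈ Pw (k := k) t n, x ∈ U ∧ τ x = x ∧ ρ x = x := by
    rintro x ⟨p, hp, rfl⟩
    refine ⟨aeval_mem_LL t n hp, ?_, ?_⟩
    · change τ (Polynomial.aeval t p) = Polynomial.aeval t p
      rw [← Polynomial.aeval_algHom_apply, hτt]
    · change ρ (Polynomial.aeval t p) = Polynomial.aeval t p
      rw [← Polynomial.aeval_algHom_apply, hρt]
  have f1 : Pw (k := k) t n ≤ UF ⊓ U1 := fun x hx =>
    ⟨hUF x (hPw x hx).1 (hPw x hx).2.1, hU1 x (hPw x hx).1 (hPw x hx).2.2⟩
  have f2 : Pw (k := k) t n ≤ (UF ⊔ U1) ⊓ U2 := fun x hx =>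
    ⟨Submodule.mem_sup_left (hUF x (hPw x hx).1 (hPw x hx).2.1), hU2 x (hPw x hx).1 (by
      rw [(hPw x hx).2.2, (hPw x hx).2.1])⟩
  have g1 := Submodule.finrank_sup_add_finrank_inf_eq UF U1
  have g2 := Submodule.finrank_sup_add_finrank_inf_eq (UF ⊔ U1) U2
  have g3 := Submodule.finrank_mono f1
  have g4 := Submodule.finrank_mono f2
  have g5 := Submodule.finrank_mono hle
  rw [finrank_Pw ht n] at g3 g4
  have g6 : (Module.finrank k UF : ℤ) = ell (n • polar (k := k) tF) := finrank_Lim _
  have g7 : (Module.finrank k U1 : ℤ) = ell (n • polar (k := k) t1) := finrank_Lim _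
  have g8 : (Module.finrank k U2 : ℤ) = ell (n • polar (k := k) t2) := finrank_Lim _
  have g9 : ell (n • polar (k := k) t) = Module.finrank k U := rfl
  rw [g9, ← g6, ← g7, ← g8]
  omega

end four

end Pool.Agent.J4.H82.PV
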