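import Pool.Agent.J4.H82.PV.O

/-!
# Étale double covers of hyperelliptic curves
-/

set_option autoImplicit false

open FF IntermediateField Pool.Agent.W603.LV Pool.Agent.W603.PV Pool.Agent.J4.H17.ZC
  Pool.Agent.N162.CV Pool.Agent.N75.CV

namespace Pool.Agent.J4.H82.PV

section inv

variable {k : Type} [Field k] {K : Type} [Field K] [Algebra k K]

/-- the action of the group with two elements by an involution -/
def invHom (s : K ≃ₐ[k] K) (hs : ∀ x, s (s x) = x) : ℤˣ →* (K ≃ₐ[k] K) where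
  toFun u := if u = 1 then 1 else s
  map_one' := if_pos rfl
  map_mul' u v := by
    have h1 : (-1 : ℤˣ) ≠ 1 := by decide
    rcases Int.units_eq_one_or u with rfl | rfl <;> rcases Int.units_eq_one_or v with rfl | rfl
    · simp
    · simp [h1]
    · simp [h1]
    · have h2 : (-1 : ℤˣ) * -1 = 1 := by decide
      rw [h2, if_pos rfl, if_neg h1]
      ext x
      exact (hs x).symm

theorem invHom_neg (s : K ≃ₐ[k] K) (hs : ∀ x, s (s x) = x) : invHom s hs (-1) = s := by
  change (if (-1 : ℤˣ) = 1 then (1 : K ≃ₐ[k] K) else s) = s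
  exact if_neg (by decide)

theorem mem_inv {s : K ≃ₐ[k] K} {hs : ∀ x, s (s x) = x} {x : K} :
    x ∈ fixedField (invHom s hs).range ↔ s x = x := by
  rw [mem_ff]
  constructor
  · intro h
    exact h s ⟨-1, invHom_neg s hs⟩
  · rintro h g ⟨u, rfl⟩
    rcases Int.units_eq_one_or u with rfl | rfl
    · rw [map_one]; rfl
    · rw [invHom_neg, h]

theorem NN_inv (s : K ≃ₐ[k] K) (hs : ∀ x, s (s x) = x) (P : Place k K) :
    NN (invHom s hs) P = Finsupp.single P 1 + Finsupp.single (act s P) 1 := by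
  unfold NN
  rw [show (Finset.univ : Finset ℤˣ) = {1, -1} from rfl,
    Finset.sum_pair (by decide : (1 : ℤˣ) ≠ -1), map_one, act_one, invHom_neg]

variable [CharZero k] [IsAlgClosed k] [IsFF k K]

omit [IsAlgClosed k] in
theorem finrank_inv (s : K ≃ₐ[k] K) (hs : ∀ x, s (s x) = x) (hne : ∃ x, s x ≠ x) :
    Module.finrank (fixedField (invHom s hs).range) K = 2 := by
  let s' : K ≃ₐ[fixedField (invHom s hs).range] K :=
    AlgEquiv.ofRingEquiv (f := s.toRingEquiv) (fun x => mem_inv.1 x.2)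
  have hq : Quad (fixedField (invHom s hs).range) K s' :=
    ⟨hs, fun x hx => ⟨⟨x, mem_inv.2 hx⟩, rfl⟩, hne⟩
  have i1 : IsFF k (fixedField (invHom s hs).range) := isFF_fixed _
  obtain ⟨w, δ, R⟩ := hq.exists_root (k := k)
  exact (R.finrank_eq (k := k)).2

end inv

variable {k : Type} [Field k] [CharZero k] [IsAlgClosed k] {F K : Type} [Field F]
  [Field K] [Algebra k F] [Algebra k K] [Algebra F K] [IsScalarTower k F K] [IsFF k F] [IsFF k K]

/-- An involution of the double cover which lifts the involution of the base. -/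
theorem exists_lift {τ : K ≃ₐ[F] K} (q : Quad F K τ)
    (hno : ∀ P : Place k K, actF τ P ≠ P) {t0 : F}
    (ht : Transcendental k t0) (h2 : Module.finrank k⟮t0⟯ F = 2) :
    ∃ ρ : K ≃ₐ[k] K, (∀ x, ρ (ρ x) = x) ∧ (∀ x, ρ (τ x) = τ (ρ x)) ∧
      ρ (algebraMap F K t0) = algebraMap F K t0 ∧ (∃ x : F, ρ (algebraMap F K x) ≠ algebraMap F K x)
      ∧ ∀ x : F, ∃ y : F, ρ (algebraMap F K x) = algebraMap F K y := by
  classical
  obtain ⟨w, δ, R⟩ := q.exists_root (k := k)
  have hodd : ∀ v : Place k F, ¬ Odd (v.ord δ) := by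
    intro v hv
    obtain ⟨hfd, -⟩ := R.finrank_eq (k := k)
    obtain ⟨P, hP⟩ := exists_place_over (K := K) v
    exact hno P (R.fixed_of_odd (by rw [hP]; exact hv))
  have hBr : Br k δ = ∅ := Finset.eq_empty_of_forall_notMem fun v hv => hodd v (mem_Br.1 hv)
  let t : k⟮t0⟯ := AdjoinSimple.gen k t0
  have hht : algebraMap k⟮t0⟯ F t = t0 := rfl
  have htt : Transcendental k t := by
    rw [← transcendental_algebraMap_iff (algebraMap k⟮t0⟯ F).injective]
    exact ht
  have hr : Module.finrank k⟮t⟯ k⟮t0⟯ = 1 := finrank_gen t0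
  have hfd : FiniteDimensional k⟮t⟯ k⟮t0⟯ :=
    Module.finite_of_finrank_pos (by rw [hr]; exact one_pos)
  have : IsFF k k⟮t0⟯ := IsFF.of_finite htt hfd
  have : FiniteDimensional k⟮t0⟯ F := IsFF.finite ht
  have hc0 : CharZero k⟮t0⟯ := charZero_of_injective_algebraMap (algebraMap k k⟮t0⟯).injective
  have hcF : CharZero F := charZero_of_injective_algebraMap (algebraMap k F).injective
  have : Algebra.IsQuadraticExtension k⟮t0⟯ F := { finrank_eq_two' := h2 }
  have : IsGalois k⟮t0⟯ F := inferInstance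
  have hcard : Nat.card (F ≃ₐ[k⟮t0⟯] F) = 2 := by
    rw [IsGalois.card_aut_eq_finrank, h2]
  obtain ⟨σ, hσ1, hσu⟩ := (Nat.card_eq_two_iff' (1 : F ≃ₐ[k⟮t0⟯] F)).1 hcard
  have hσσ : ∀ x, σ (σ x) = x := by
    intro x
    have h3 : σ * σ = 1 := by
      by_contra hne
      have := hσu _ hne
      apply hσ1
      exact mul_left_cancel (a := σ) (by rw [this, mul_one])
    exact DFunLike.congr_fun h3 x
  have huniv : (Finset.univ : Finset (F ≃ₐ[k⟮t0⟯] F)) = {1, σ} := by
    ext γ
    simp only [Finset.mem_univ, Finset.mem_insert, Finset.mem_singleton, true_iff]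
    by_cases h : γ = 1
    · exact Or.inl h
    · exact Or.inr (hσu _ h)
  have hnorm : algebraMap k⟮t0⟯ F (Algebra.norm k⟮t0⟯ δ) = δ * σ δ := by
    rw [Algebra.norm_eq_prod_automorphisms, huniv, Finset.prod_pair (Ne.symm hσ1)]
    rfl
  -- the norm is a square
  obtain ⟨pt, oo, hp⟩ := exists_ratPl t htt hr
  have hN0 : Algebra.norm k⟮t0⟯ δ ≠ 0 := Algebra.norm_ne_zero_iff.2 R.δ0
  obtain ⟨r1, hr10, hr1⟩ := hp.norm_form htt _ hN0 0 0 (by
    intro v
    have h3 := norm_parity (F0 := k⟮t0⟯) R.δ0 v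
    rw [hBr, Finset.sum_empty, sub_zero] at h3
    exact h3.sub (Even.add_self _))
  rw [map_zero, sub_zero] at hr1
  obtain ⟨r, hr0, hr⟩ : ∃ r : k⟮t0⟯, r ≠ 0 ∧ Algebra.norm k⟮t0⟯ δ = r ^ 2 := by
    refine ⟨r1 * t, ?_, by rw [hr1]; ring⟩
    intro h
    rw [hr1] at hN0
    apply hN0
    have : r1 ^ 2 * (t * t) = (r1 * t) ^ 2 := by ring
    rw [this, h, zero_pow two_ne_zero]
  rw [hr, map_pow] at hnorm
  set rF : F := algebraMap k⟮t0⟯ F r with hrF
  have hrF0 : rF ≠ 0 := by rw [hrF, Ne, map_eq_zero]; exact hr0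
  have hσr : σ rF = rF := σ.commutes r
  -- the extension to an algebraic closure
  obtain ⟨hfdK, -⟩ := R.finrank_eq (k := k)
  let φ : F →ₐ[k] K := (IsScalarTower.toAlgHom k F K).comp (σ.restrictScalars k).toAlgHom
  obtain ⟨ψ, hψ⟩ := extend_one (K := K) (Ω := AlgebraicClosure K) φ
  have hφ : ∀ x, φ x = algebraMap F K (σ x) := fun x => rfl
  have hrK0 : algebraMap F K rF ≠ 0 := by rw [Ne, map_eq_zero]; exact hrF0
  have hw2 : (ψ w) ^ 2 = (algebraMap K (AlgebraicClosure K) (algebraMap F K rF / w)) ^ 2 := by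
    rw [← map_pow, R.sq, hψ, hφ, ← map_pow]
    congr 1
    have h3 : algebraMap F K δ * algebraMap F K (σ δ) = algebraMap F K rF ^ 2 := by
      rw [← map_mul, ← hnorm, map_pow]
    have hδK : algebraMap F K δ ≠ 0 := by rw [Ne, map_eq_zero]; exact R.δ0
    rw [div_pow, R.sq, ← h3]
    field_simp
  obtain ⟨r', hr'0, hσr', hr'⟩ : ∃ r' : F, r' ≠ 0 ∧ σ r' = r' ∧
      ψ w = algebraMap K (AlgebraicClosure K) (algebraMap F K r' / w) := by
    rcases sq_eq_sq_iff_eq_or_eq_neg.1 hw2 with h3 | h3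
    · exact ⟨rF, hrF0, hσr, h3⟩
    · refine ⟨-rF, neg_ne_zero.2 hrF0, by rw [map_neg, hσr], ?_⟩
      rw [h3, map_neg (algebraMap F K), neg_div, map_neg]
  have hrange : ∀ x : K, ∃ y : K, algebraMap K (AlgebraicClosure K) y = ψ x := by
    intro x
    obtain ⟨a, b, rfl⟩ := R.dec x
    refine ⟨algebraMap F K (σ a) + algebraMap F K (σ b) * (algebraMap F K r' / w), ?_⟩
    rw [map_add, map_mul, map_add, map_mul, hψ, hψ, hφ, hφ, hr']
  choose ρf hρf using hrange
  have hinj := (algebraMap K (AlgebraicClosure K)).injective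
  let ρ0 : K →ₐ[k] K :=
    { toFun := ρf
      map_one' := hinj (by rw [hρf, map_one, map_one])
      map_mul' := fun x y => hinj (by rw [hρf, map_mul, map_mul, hρf, hρf])
      map_zero' := hinj (by rw [hρf, map_zero, map_zero])
      map_add' := fun x y => hinj (by rw [hρf, map_add, map_add, hρf, hρf])
      commutes' := fun c => hinj (by
        rw [hρf, AlgHom.commutes, ← IsScalarTower.algebraMap_apply]) }
  have hρF : ∀ x : F, ρ0 (algebraMap F K x) = algebraMap F K (σ x) := fun x =>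
    hinj ((hρf _).trans (hψ x))
  have hρw : ρ0 w = algebraMap F K r' / w := hinj ((hρf _).trans hr')
  have hr'K : algebraMap F K r' ≠ 0 := by rw [Ne, map_eq_zero]; exact hr'0
  have hw0 := R.w0
  have hρρ : ∀ x, ρ0 (ρ0 x) = x := by
    intro x
    obtain ⟨a, b, rfl⟩ := R.dec x
    rw [map_add, map_mul, hρF, hρF, hρw, map_add, map_mul, hρF, hρF, map_div₀, hρF, hρw, hσσ, hσσ,
      hσr']
    field_simp
  let ρ : K ≃ₐ[k] K := AlgEquiv.ofAlgHom ρ0 ρ0 (by ext x; exact hρρ x) (by ext x; exact hρρ x)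
  have hρ : ∀ x, ρ x = ρ0 x := fun x => rfl
  refine ⟨ρ, hρρ, ?_, ?_, ?_, fun x => ⟨σ x, hρF x⟩⟩
  · intro x
    obtain ⟨a, b, rfl⟩ := R.dec x
    rw [hρ, hρ, map_add, map_mul, AlgEquiv.commutes, AlgEquiv.commutes, R.tau, map_add, map_mul,
      hρF, hρF, map_neg, hρw, map_add, map_mul, hρF, hρF, hρw, map_add, map_mul,
      AlgEquiv.commutes, AlgEquiv.commutes, map_div₀, AlgEquiv.commutes, R.tau]
    field_simp
  · rw [hρ, hρF]
    congr 1
    exact σ.commutes t
  · by_contra hcon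
    push Not at hcon
    apply hσ1
    ext x
    have h3 := hcon x
    rw [hρ, hρF] at h3
    exact (algebraMap F K).injective h3

theorem hyper {τ : K ≃ₐ[F] K} (q : Quad F K τ) {τ' : K ≃ₐ[k] K} (hτ' : ∀ x, τ' x = τ x)
    {g' p : ℕ} (hg : HasGenus k K (g' + p)) (hg' : HasGenus k F g')
    (hno : ∀ P : Place k K, act τ' P ≠ P) {t0 : F}
    (ht : Transcendental k t0) (h2 : Module.finrank k⟮t0⟯ F = 2) : Van k (od (act τ')) p := by
  classical
  have hact : ∀ P : Place k K, act τ' P = actF τ P := by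
    intro P
    ext x
    rw [act_ord, actF_ord]
    congr 1
    rw [AlgEquiv.symm_apply_eq, hτ', AlgEquiv.apply_symm_apply]
  obtain ⟨ρ, hρρ, hcomm, hρt, ⟨x0, hx0⟩, hρF⟩ := exists_lift q
    (fun P => by rw [← hact]; exact hno P) ht h2
  obtain ⟨w, δ, R⟩ := q.exists_root (k := k)
  obtain ⟨hfdK, hFK⟩ := R.finrank_eq (k := k)
  have hττ : ∀ x, τ' (τ' x) = x := fun x => by rw [hτ', hτ', q.inv]
  have hcomm' : ∀ x, τ' (ρ x) = ρ (τ' x) := fun x => by rw [hτ', hτ', hcomm]
  -- the third involution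
  let μ : K ≃ₐ[k] K := ρ.trans τ'
  have hμ : ∀ x, μ x = τ' (ρ x) := fun x => rfl
  have hμμ : ∀ x, μ (μ x) = x := fun x => by rw [hμ, hμ, ← hcomm', hττ, hρρ]
  set t : K := algebraMap F K t0 with htK
  have htr : Transcendental k t := (transcendental_algebraMap_iff (algebraMap F K).injective).2 ht
  have hτt : τ' t = t := by rw [hτ', htK, AlgEquiv.commutes]
  have hμne : ∃ x, μ x ≠ x := by
    refine ⟨algebraMap F K x0, ?_⟩
    rw [hμ]
    obtain ⟨y, hy⟩ := hρF x0
    rw [hy, hτ', AlgEquiv.commutes, ← hy]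
    exact hx0
  have i1 : IsFF k (fixedField (invHom ρ hρρ).range) := isFF_fixed _
  have i2 : IsFF k (fixedField (invHom μ hμμ).range) := isFF_fixed _
  have r1 := finrank_inv ρ hρρ ⟨_, hx0⟩
  have r2 := finrank_inv μ hμμ hμne
  let t1 : fixedField (invHom ρ hρρ).range := ⟨t, mem_inv.2 hρt⟩
  let t2 : fixedField (invHom μ hμμ).range := ⟨t, mem_inv.2 (by rw [hμ, hρt, hτt])⟩
  have e1 : algebraMap (fixedField (invHom ρ hρρ).range) K t1 = t := rfl
  have e2 : algebraMap (fixedField (invHom μ hμμ).range) K t2 = t := rfl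
  have ht1 : Transcendental k t1 := by
    rw [← transcendental_algebraMap_iff (algebraMap (fixedField (invHom ρ hρρ).range) K).injective]
    exact htr
  have ht2 : Transcendental k t2 := by
    rw [← transcendental_algebraMap_iff (algebraMap (fixedField (invHom μ hμμ).range) K).injective]
    exact htr
  obtain ⟨a1, ha1⟩ := exists_genus k (fixedField (invHom ρ hρρ).range)
  obtain ⟨a2, ha2⟩ := exists_genus k (fixedField (invHom μ hμμ).range)
  -- degrees
  have d0 : Module.finrank k⟮t⟯ K = 4 := by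
    rw [htK, finrank_adjoin, h2, hFK]
  have d1 : Module.finrank k⟮t1⟯ (fixedField (invHom ρ hρρ).range) = 2 := by
    have := finrank_adjoin (k := k) (L := K) t1
    rw [e1, d0, r1] at this
    omega
  have d2 : Module.finrank k⟮t2⟯ (fixedField (invHom μ hμμ).range) = 2 := by
    have := finrank_adjoin (k := k) (L := K) t2
    rw [e2, d0, r2] at this
    omega
  have hle : a1 + a2 ≤ p := by
    obtain ⟨N0, hN0⟩ := hg.ell_eq
    obtain ⟨N1, hN1⟩ := hg'.ell_eq
    obtain ⟨N2, hN2⟩ := ha1.ell_eq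
    obtain ⟨N3, hN3⟩ := ha2.ell_eq
    set n : ℕ := N0.natAbs + N1.natAbs + N2.natAbs + N3.natAbs with hn
    have h3 := four_ineq (F := F) τ' ρ hττ hρρ hcomm'
      (fun x hx => q.fix x (by rw [← hτ']; exact hx))
      (fun x hx => ⟨(⟨x, mem_inv.2 hx⟩ : fixedField (invHom ρ hρρ).range), rfl⟩)
      (fun x hx => ⟨(⟨x, mem_inv.2 hx⟩ : fixedField (invHom μ hμμ).range), rfl⟩)
      htr (tF := t0) (t1 := t1) (t2 := t2) rfl rfl rfl hτt hρt n
    have q0 : ddeg (n • polar (k := k) t) = n * 4 := by rw [ddeg_nsmul, ddeg_polar htr, d0]; rfl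
    have q1 : ddeg (n • polar (k := k) t0) = n * 2 := by rw [ddeg_nsmul, ddeg_polar ht, h2]; rfl
    have q2 : ddeg (n • polar (k := k) t1) = n * 2 := by rw [ddeg_nsmul, ddeg_polar ht1, d1]; rfl
    have q3 : ddeg (n • polar (k := k) t2) = n * 2 := by rw [ddeg_nsmul, ddeg_polar ht2, d2]; rfl
    rw [hN0 _ (by rw [q0]; omega), hN1 _ (by rw [q1]; omega), hN2 _ (by rw [q2]; omega),
      hN3 _ (by rw [q3]; omega), q0, q1, q2, q3] at h3
    push_cast at h3
    omega
  -- the vanishing theorems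
  obtain ⟨o, -⟩ := exists_place (k := k) (K := K)
  have hv : ∀ (s : K ≃ₐ[k] K) (hs : ∀ x, s (s x) = x) (a : ℕ),
      HasGenus k (fixedField (invHom s hs).range) a →
      Van k (fun P => NN (invHom s hs) P - NN (invHom s hs) (act τ' P)) a := by
    intro s hs a ha
    have h3 := van_lin (van_one (invHom s hs) ha o) (J := Bool) (fun b => if b then 1 else -1)
      (fun b P => if b then P else act τ' P)
    have h4 : (fun P => NN (invHom s hs) P - NN (invHom s hs) (act τ' P)) = fun P =>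
        ∑ j : Bool, (if j then (1 : ℤ) else -1) • (ex (invHom s hs) 1 (if j then P else act τ' P) -
          ex (invHom s hs) 1 o) := by
      funext P
      rw [Fintype.sum_bool]
      simp only [ex_one]
      simp
    rw [h4]
    exact h3
  have hact2 : ∀ (s s' : K ≃ₐ[k] K) (P : Place k K), act s (act s' P) = act (s * s') P :=
    fun s s' P => (act_mul s s' P).symm
  have m1 : μ * τ' = ρ := by
    ext x
    change τ' (ρ (τ' x)) = ρ x
    rw [hcomm', hττ]
  have m2 : ρ * τ' = μ := by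
    ext x
    exact (hcomm' x).symm
  refine van_mono (van_add (hv ρ hρρ a1 ha1) (hv μ hμμ a2 ha2) (c := 2) (by norm_num) ?_) hle
  intro P
  rw [NN_inv, NN_inv, NN_inv, NN_inv, hact2, hact2, m1, m2]
  unfold od
  rw [smul_sub, two_smul, two_smul]
  abel

end Pool.Agent.J4.H82.PV
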