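import Pool.Agent.J4.H82.PV.Q
import Pool.Agent.J4.H27.BB.Main

/-!
# Exterior products with equal factors from the image of an operator which satisfies a vanishing theorem
-/

set_option autoImplicit false

open FF IntermediateField Pool.Agent.J4.H17.ZC Pool.Agent.J4.H27.BB

namespace Pool.Agent.J4.H82.PV

variable {k : Type} [Field k] [CharZero k] [IsAlgClosed k] {K : Type} [Field K] [Algebra k K]
  [IsFF k K] {n : ℕ}

/-- Equal cycles from the image of the operator `e` in `ν + 1` positions. -/
theorem case_van_aux {e : Place k K → (Place k K →₀ ℤ)} {ν : ℕ} (hv : Van k e ν)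
    {l : ((Fin n → Place k K) →₀ ℤ) →+ ℚ}
    (hl : ∀ r ∈ RatEq ((curve k K).pow (Fin n)), l r = 0) (T : Finset (Fin n))
    (hT : T.card = ν + 1) (D : Place k K →₀ ℤ) (Z : Fin n → Place k K →₀ ℤ) :
    l (ext fun i => if i ∈ T then Finsupp.linearCombination ℤ e D else Z i) = 0 := by
  classical
  let Λ0 : MultilinearMap ℤ (fun _ : Fin n => Place k K →₀ ℤ) ℚ :=
    l.toIntLinearMap.compMultilinearMap (extM (Place k K) n)
  let Λ : MultilinearMap ℤ (fun _ : Fin n => Place k K →₀ ℤ) ℚ :=
    Λ0.compLinearMap (fun i => if i ∈ T then Finsupp.linearCombination ℤ e else LinearMap.id)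
  have hΛ : ∀ d : Fin n → Place k K →₀ ℤ, Λ d =
      l (ext fun i => if i ∈ T then Finsupp.linearCombination ℤ e (d i) else d i) := by
    intro d
    change l (ext fun i => (if i ∈ T then Finsupp.linearCombination ℤ e else LinearMap.id) (d i)) = _
    congr 2
    funext i
    split_ifs <;> rfl
  have h1 : (∑ τ ∈ PT T, Λ.domDomCongr τ) = 0 := by
    refine Module.Basis.ext_multilinear (fun _ => Finsupp.basisSingleOne) ?_
    intro s
    rw [sum_apply]
    simp only [MultilinearMap.domDomCongr_apply, zero_apply,
      Finsupp.coe_basisSingleOne]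
    have h2 := van_multi hv T hT s l hl (fun i => Finsupp.single (s i) 1)
    rw [← h2]
    refine Finset.sum_congr rfl fun τ hτ => ?_
    rw [hΛ, ext_eq_extG]
    congr 2
    funext i
    by_cases hi : i ∈ T
    · rw [if_pos hi, if_pos hi, Finsupp.linearCombination_single, one_smul]
    · rw [if_neg hi, if_neg hi]
      rw [mem_PT] at hτ
      rw [hτ i hi]
  have h2 := congrArg (fun f : MultilinearMap ℤ (fun _ : Fin n => Place k K →₀ ℤ) ℚ =>
    f (fun i => if i ∈ T then D else Z i)) h1
  simp only [sum_apply, MultilinearMap.domDomCongr_apply, zero_apply] at h2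
  have h3 : ∀ τ ∈ PT T, Λ (fun i => if τ i ∈ T then D else Z (τ i)) =
      l (ext fun i => if i ∈ T then Finsupp.linearCombination ℤ e D else Z i) := by
    intro τ hτ
    rw [hΛ]
    congr 2
    funext i
    rw [mem_PT] at hτ
    by_cases hi : i ∈ T
    · have h4 : τ i ∈ T := by
        by_contra h5
        have h6 := hτ _ h5
        exact h5 (by rw [τ.injective h6]; exact hi)
      rw [if_pos hi, if_pos hi, if_pos h4]
    · rw [if_neg hi, if_neg hi, hτ i hi, if_neg hi]
  rw [Finset.sum_congr rfl h3, Finset.sum_const, nsmul_eq_mul] at h2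
  rcases mul_eq_zero.1 h2 with h5 | h5
  · have h6 : (PT T).card = 0 := by exact_mod_cast h5
    rw [Finset.card_eq_zero] at h6
    have h7 : (1 : Equiv.Perm (Fin n)) ∈ PT T := by
      rw [mem_PT]
      intro x _
      rfl
    rw [h6] at h7
    simp at h7
  · exact h5

/-- Equal cycles in `ν + 1` positions, of which a positive multiple is in the image of the operator
`e` up to the divisor of a function. -/
theorem case_van {e : Place k K → (Place k K →₀ ℤ)} {ν : ℕ} (hv : Van k e ν)
    {l : ((Fin n → Place k K) →₀ ℤ) →+ ℚ}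
    (hl : ∀ r ∈ RatEq ((curve k K).pow (Fin n)), l r = 0) (T : Finset (Fin n))
    (hT : T.card = ν + 1) (b D : Place k K →₀ ℤ) {N : ℕ} (hN : 0 < N)
    (hb : Principal k K (N • b - Finsupp.linearCombination ℤ e D))
    (d : Fin n → Place k K →₀ ℤ) (hd : ∀ i ∈ T, d i = b) : l (ext d) = 0 := by
  classical
  obtain ⟨f, hf, hdiv⟩ := hb
  let Λ : MultilinearMap ℤ (fun _ : Fin n => Place k K →₀ ℤ) ℚ :=
    l.toIntLinearMap.compMultilinearMap (extM (Place k K) n)
  have hid : divisor k f ∈ RatEq (curve k K) := by
    have hid : (curve k K).IsMor K (fun P => P) :=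
      Or.inr ⟨AlgHom.id k K, fun P => ⟨1, one_pos, fun g => by simp⟩⟩
    have h5 := mem_ratEq (X := curve k K) (L := K) hid hf
    have h6 : Finsupp.mapDomain (fun P : Place k K => P) (divisor k f) = divisor k f :=
      Finsupp.mapDomain_id
    rwa [h6] at h5
  have h1 : Λ (fun i => (if i ∈ T then (N : ℤ) else 1) • d i) = 0 := by
    refine multi_closure Λ (fun i => {w | w = Finsupp.linearCombination ℤ e D ∨ w = divisor k f})
      T _ ?_ ?_
    · intro i hi
      rw [if_pos hi, hd i hi, natCast_zsmul]
      have h2 : N • b = Finsupp.linearCombination ℤ e D + divisor k f := by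
        rw [← hdiv]; abel
      rw [h2]
      exact AddSubgroup.add_mem _ (AddSubgroup.subset_closure (Or.inl rfl))
        (AddSubgroup.subset_closure (Or.inr rfl))
    · intro d' _ hd'
      change l (ext d') = 0
      by_cases h2 : ∃ i ∈ T, d' i = divisor k f
      · obtain ⟨i, _, h3⟩ := h2
        exact hl _ (ext_mem (curve_const K) i d' (by rw [h3]; exact hid))
      · push Not at h2
        have h3 : d' = fun i => if i ∈ T then Finsupp.linearCombination ℤ e D else d' i := by
          funext i
          split_ifs with hi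
          · exact (hd' i hi).resolve_right (h2 i hi)
          · rfl
        rw [h3]
        exact case_van_aux hv hl T hT D d'
  rw [MultilinearMap.map_smul_univ] at h1
  rcases smul_eq_zero.1 h1 with h2 | h2
  · rw [Finset.prod_eq_zero_iff] at h2
    obtain ⟨i, _, hi⟩ := h2
    split_ifs at hi <;> omega
  · exact h2

end Pool.Agent.J4.H82.PV
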